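import Pool.Agent.H404R2.TH.Spec

set_option autoImplicit false

open MeasureTheory Set Pointwise Matrix

namespace Pool.Agent.H404R2.TH

namespace DERaux

variable {n : ℕ}

theorem cpt_seg (v : Fin n → ℝ) : IsCompact (segment ℝ 0 v) := by
  rw [segment_eq_image]
  exact isCompact_Icc.image (by fun_prop)

/-- sum of the segments with index in `I` -/
noncomputable def T (v : Fin n → Fin n → ℝ) (t : ℝ) (I : Finset (Fin n)) : Set (Fin n → ℝ) :=
  ∑ i ∈ I, segment ℝ 0 (t • v i)

theorem T_empty (v : Fin n → Fin n → ℝ) (t : ℝ) : T v t ∅ = 0 := by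
  unfold T; rw [Finset.sum_empty]

theorem T_insert (v : Fin n → Fin n → ℝ) (t : ℝ) (I : Finset (Fin n)) (i : Fin n) (hi : i ∉ I) :
    T v t (insert i I) = T v t I + segment ℝ 0 (t • v i) := by
  classical
  unfold T; rw [Finset.sum_insert hi, add_comm]

/-- compact, convex, nonempty -/
theorem good (K : Set (Fin n → ℝ)) (hK : CB K) (v : Fin n → Fin n → ℝ) (t : ℝ)
    (I : Finset (Fin n)) :
    IsCompact (K + T v t I) ∧ Convex ℝ (K + T v t I) ∧ (K + T v t I).Nonempty := by
  classical
  induction I using Finset.induction_on with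
  | empty =>
    rw [T_empty, add_zero]
    exact ⟨hK.isCompact, hK.convex, hK.interior_nonempty.mono interior_subset⟩
  | insert i I hi ih =>
    rw [T_insert v t I i hi, ← add_assoc]
    exact ⟨ih.1.add (cpt_seg _), ih.2.1.add (convex_segment _ _),
      ih.2.2.add ⟨0, left_mem_segment ℝ _ _⟩⟩

/-- elements of `T` -/
theorem mem_T (v : Fin n → Fin n → ℝ) (t : ℝ) (ht : 0 ≤ t) (I : Finset (Fin n)) (x : Fin n → ℝ)
    (hx : x ∈ T v t I) : ∃ z : Fin n → ℝ, ‖z‖ ≤ ∑ i, ‖v i‖ ∧ x = t • z := by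
  classical
  have main : ∃ z : Fin n → ℝ, ‖z‖ ≤ ∑ i ∈ I, ‖v i‖ ∧ x = t • z := by
    induction I using Finset.induction_on generalizing x with
    | empty =>
      rw [T_empty] at hx
      exact ⟨0, by simp, by simpa using hx⟩
    | insert i I hi ih =>
      rw [T_insert v t I i hi] at hx
      obtain ⟨y, hy, w, hw, rfl⟩ := hx
      obtain ⟨z, hz1, rfl⟩ := ih y hy
      rw [segment_eq_image] at hw
      obtain ⟨θ, hθ, rfl⟩ := hw
      refine ⟨z + θ • v i, ?_, ?_⟩
      · rw [Finset.sum_insert hi, add_comm (‖v i‖)]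
        refine (norm_add_le _ _).trans ?_
        refine add_le_add hz1 ?_
        rw [norm_smul, Real.norm_eq_abs, abs_of_nonneg hθ.1]
        exact mul_le_of_le_one_left (norm_nonneg _) hθ.2
      · simp only [smul_zero, zero_add, smul_add]
        rw [smul_comm]
  obtain ⟨z, hz, hx'⟩ := main
  exact ⟨z, hz.trans (Finset.sum_le_sum_of_subset_of_nonneg (Finset.subset_univ _)
    fun _ _ _ => norm_nonneg _), hx'⟩

/-- inclusion in a homothetic copy -/
theorem incl (K : Set (Fin n → ℝ)) (hK : CB K) (v : Fin n → Fin n → ℝ) :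
    ∃ R > (0 : ℝ), ∃ c : Fin n → ℝ, ∀ t : ℝ, 0 ≤ t → ∀ I : Finset (Fin n),
      K + T v t I ⊆ (-(t * R) • c) +ᵥ ((1 + t * R) • K) := by
  obtain ⟨c, hc⟩ := hK.interior_nonempty
  rw [mem_interior_iff_mem_nhds, Metric.mem_nhds_iff] at hc
  obtain ⟨r, hr, hball⟩ := hc
  set ρ : ℝ := (∑ i, ‖v i‖) + 1 with hρ
  have hρ0 : 0 < ρ := by
    have : 0 ≤ ∑ i, ‖v i‖ := Finset.sum_nonneg fun _ _ => norm_nonneg _
    linarith
  refine ⟨ρ / r, by positivity, c, ?_⟩
  rintro t ht I x ⟨k, hk, w, hw, rfl⟩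
  obtain ⟨z, hz, rfl⟩ := mem_T v t ht I w hw
  set R : ℝ := ρ / r with hR
  have hRpos : 0 < R := by positivity
  set k' : Fin n → ℝ := c + R⁻¹ • z with hk'
  have hk'K : k' ∈ K := by
    apply hball
    rw [Metric.mem_ball, dist_eq_norm, hk', add_sub_cancel_left, norm_smul, Real.norm_eq_abs,
      abs_of_pos (by positivity)]
    have h1 : ‖z‖ < ρ := by rw [hρ]; linarith
    calc R⁻¹ * ‖z‖ < R⁻¹ * ρ := mul_lt_mul_of_pos_left h1 (by positivity)
      _ = r := by rw [hR]; field_simp
  have hz' : z = R • (k' - c) := by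
    rw [hk', add_sub_cancel_left, smul_smul, mul_inv_cancel₀ hRpos.ne', one_smul]
  have h1 : 0 < 1 + t * R := by positivity
  refine ⟨(1 + t * R) • ((1 / (1 + t * R)) • k + (t * R / (1 + t * R)) • k'), ?_, ?_⟩
  · refine smul_mem_smul_set ?_
    refine hK.convex hk hk'K (by positivity) (by positivity) ?_
    field_simp
  · show -(t * R) • c + _ = _
    rw [smul_add, smul_smul, smul_smul, mul_one_div_cancel h1.ne', mul_div_cancel₀ _ h1.ne', one_smul]
    show _ = k + t • z
    rw [hz', smul_smul, smul_sub, neg_smul]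
    abel

end DERaux

open DERaux in
theorem t_DER (h : S_SEG) : S_DER := by
  classical
  intro n K L hK hL a v hbox W hW ε hε
  choose π hπ1 hπ2 hπ3 hπ4 hπ5 using fun i : Fin n => h n (v i)
  have hKne : K.Nonempty := hK.interior_nonempty.mono interior_subset
  have hKfin : volume K ≠ ⊤ := hK.isCompact.measure_lt_top.ne
  obtain ⟨R, hR, c, hincl⟩ := incl K hK v
  -- the bound for the projections of K
  have hπW : ∀ i, (π i K).toReal ≤ W := by
    intro i
    have h1 := hπ1 i K hK.isCompact hK.convex hKne 1 zero_le_one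
    rw [one_smul, ENNReal.ofReal_one, one_mul] at h1
    have h2 := hW i
    unfold V at h2
    rw [h1, ENNReal.toReal_add hKfin (hπ5 i K hK.isCompact)] at h2
    linarith
  set W' : ℝ := max W 0 with hW'
  have hπW' : ∀ i, π i K ≤ ENNReal.ofReal W' := by
    intro i
    rw [← ENNReal.ofReal_toReal (hπ5 i K hK.isCompact)]
    exact ENNReal.ofReal_le_ofReal ((hπW i).trans (le_max_left _ _))
  have hnW : (n : ℝ) * W' = n * W := by
    rcases Nat.eq_zero_or_pos n with h0 | h0
    · subst h0; simp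
    · have : 0 ≤ W := ENNReal.toReal_nonneg.trans (hπW ⟨0, h0⟩)
      rw [hW', max_eq_left this]
  -- the main estimate
  have key : ∀ t : ℝ, 0 < t → ∀ I : Finset (Fin n), volume (K + T v t I) ≤
      volume K + I.card * (ENNReal.ofReal t * (ENNReal.ofReal ((1 + t * R) ^ (n - 1)) *
        ENNReal.ofReal W')) := by
    intro t ht I
    induction I using Finset.induction_on with
    | empty => rw [T_empty, add_zero]; simp
    | insert i I hi ih =>
      obtain ⟨g1, g2, g3⟩ := good K hK v t I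
      rw [T_insert v t I i hi, ← add_assoc, hπ1 i _ g1 g2 g3 t ht.le, Finset.card_insert_of_notMem hi]
      have h3 : π i (K + T v t I) ≤ ENNReal.ofReal ((1 + t * R) ^ (n - 1)) * ENNReal.ofReal W' := by
        refine (hπ2 i _ _ (hincl t ht.le I)).trans ?_
        rw [hπ4, hπ3 i K (1 + t * R) (by positivity)]
        gcongr
        exact hπW' i
      calc volume (K + T v t I) + ENNReal.ofReal t * π i (K + T v t I)
          ≤ (volume K + I.card * (ENNReal.ofReal t * (ENNReal.ofReal ((1 + t * R) ^ (n - 1)) *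
              ENNReal.ofReal W'))) + ENNReal.ofReal t * (ENNReal.ofReal ((1 + t * R) ^ (n - 1)) *
              ENNReal.ofReal W') := by gcongr
        _ = _ := by push_cast; ring
  -- choice of δ
  have hcont : ContinuousAt (fun t : ℝ => (n : ℝ) * (1 + t * R) ^ (n - 1) * W') 0 := by
    fun_prop
  have hev : ∀ᶠ t in nhds (0 : ℝ), (n : ℝ) * (1 + t * R) ^ (n - 1) * W' < n * W + ε := by
    refine hcont.eventually_lt continuousAt_const ?_
    simp only [zero_mul, add_zero, one_pow, mul_one]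
    rw [hnW]
    linarith
  obtain ⟨δ, hδ, hδ'⟩ := Metric.eventually_nhds_iff.1 hev
  refine ⟨δ, hδ, fun t ht htδ => ?_⟩
  have h5 : (n : ℝ) * (1 + t * R) ^ (n - 1) * W' < n * W + ε :=
    hδ' (by rw [dist_zero_right, Real.norm_eq_abs, abs_of_pos ht]; exact htδ)
  have h6 : K + t • L ⊆ (t • a) +ᵥ (K + T v t Finset.univ) := by
    rintro x ⟨k, hk, w, ⟨l, hl, rfl⟩, rfl⟩
    obtain ⟨s, hs, hls⟩ := hbox l hl
    refine ⟨k + ∑ i, s i • (t • v i), ⟨k, hk, _, ?_, rfl⟩, ?_⟩
    · unfold T
      rw [Set.mem_finsetSum]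
      refine ⟨fun i => s i • (t • v i), fun {i} _ => ?_, rfl⟩
      rw [segment_eq_image]
      exact ⟨s i, ⟨(hs i).1, (hs i).2⟩, by simp⟩
    · show t • a + (k + ∑ i, s i • (t • v i)) = k + t • l
      rw [hls, smul_add, Finset.smul_sum]
      have : ∀ i, s i • (t • v i) = t • (s i • v i) := fun i => smul_comm _ _ _
      simp only [this]
      abel
  have h7 : volume (K + t • L) ≤ volume (K + T v t Finset.univ) := by
    refine (measure_mono h6).trans ?_
    rw [measure_vadd]
  have h8 := key t ht Finset.univ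
  rw [Finset.card_univ, Fintype.card_fin] at h8
  have h9 := h7.trans h8
  have hW'0 : 0 ≤ W' := le_max_right _ _
  have h10 : volume K + n * (ENNReal.ofReal t * (ENNReal.ofReal ((1 + t * R) ^ (n - 1)) *
        ENNReal.ofReal W')) = ENNReal.ofReal (V K + n * (t * ((1 + t * R) ^ (n - 1) * W'))) := by
    have hV0 : 0 ≤ V K := ENNReal.toReal_nonneg
    rw [ENNReal.ofReal_add hV0 (by positivity), V,
      ENNReal.ofReal_toReal hKfin, ENNReal.ofReal_mul (by positivity), ENNReal.ofReal_mul ht.le,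
      ENNReal.ofReal_mul (by positivity), ENNReal.ofReal_natCast]
  rw [h10] at h9
  have h11 : V (K + t • L) ≤ V K + n * (t * ((1 + t * R) ^ (n - 1) * W')) := by
    unfold V
    refine ENNReal.toReal_le_of_le_ofReal ?_ h9
    have : 0 ≤ V K := ENNReal.toReal_nonneg
    unfold V at this
    positivity
  refine h11.trans ?_
  nlinarith [mul_lt_mul_of_pos_left h5 ht]

end Pool.Agent.H404R2.TH
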