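import Pool.Agent.H404R2.TH.Spec

set_option autoImplicit false

open MeasureTheory Set Pointwise Matrix

namespace Pool.Agent.H404R2.TH

namespace FINaux

theorem V_smul {n : ℕ} (s : ℝ) (K : Set (Fin n → ℝ)) : V (s • K) = |s| ^ n * V K := by
  unfold V
  rw [Measure.addHaar_smul]
  simp [abs_pow]

theorem V_nonneg {n : ℕ} (K : Set (Fin n → ℝ)) : 0 ≤ V K := ENNReal.toReal_nonneg

theorem V_pos {n : ℕ} {K : Set (Fin n → ℝ)} (hK : CB K) : 0 < V K := by
  unfold V
  rw [ENNReal.toReal_pos_iff]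
  exact ⟨Measure.measure_pos_of_nonempty_interior volume hK.interior_nonempty,
    hK.isCompact.measure_lt_top⟩

theorem pol_smul {n : ℕ} (M : Set (Fin n → ℝ)) :
    pol ((1 / 2 : ℝ) • M) = (2 : ℝ) • pol M := by
  ext y
  constructor
  · intro h
    refine ⟨(1 / 2 : ℝ) • y, ?_, ?_⟩
    · intro x hx
      have := h ((1 / 2 : ℝ) • x) ⟨x, hx, rfl⟩
      rw [smul_dotProduct] at this
      rw [dotProduct_smul]
      exact this
    · show (2 : ℝ) • ((1 / 2 : ℝ) • y) = y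
      rw [smul_smul]; norm_num
  · rintro ⟨z, hz, rfl⟩
    rintro _ ⟨x, hx, rfl⟩
    have := hz x hx
    show ((1 / 2 : ℝ) • x) ⬝ᵥ ((2 : ℝ) • z) ≤ 1
    rw [smul_dotProduct, dotProduct_smul, smul_smul]
    norm_num
    exact this

theorem mem_sub_of {n : ℕ} {K : Set (Fin n → ℝ)} {q : Fin n → ℝ}
    (h : ((q +ᵥ K) ∩ K).Nonempty) : q ∈ K - K := by
  obtain ⟨x, ⟨y, hy, hyx⟩, hx⟩ := h
  refine ⟨x, hx, y, hy, ?_⟩
  have : q + y = x := hyx
  show x - y = q
  rw [← this]; abel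

theorem greatest (hX : S_MAX) {d : ℕ} (K : Set (Fin d → ℝ)) (hK : CB K)
    (vol : Set (Fin d → ℝ) → Set (Fin d → ℝ) → ℝ) (c : ℝ) (hc : 0 ≤ c)
    (hv : ∀ S, vol (relBall K) S = c * V S) (p : Fin d → ℝ) (hp : ((p +ᵥ K) ∩ K).Nonempty) :
    ∃ r, IsGreatest (hullVals vol K) r ∧ c * V (convexHull ℝ (K ∪ (p +ᵥ K))) ≤ r := by
  obtain ⟨q, hq, hmax⟩ := hX d K hK c hc
  refine ⟨vol (relBall K) (convexHull ℝ (K ∪ (q +ᵥ K))), ⟨⟨q, hq, rfl⟩, ?_⟩, ?_⟩
  · rintro r ⟨p', hp', rfl⟩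
    rw [hv, hv]
    exact hmax p' hp'
  · rw [hv]
    exact hmax p hp

end FINaux

open FINaux in
theorem t_FIN (hM : S_MAIN) (hLB : S_LB) (hLV : S_LVOL) (hLP : S_LPOL) (hMA : S_MAH) (hT : S_TET) (hTD : S_TETD) (hTP : S_TETP) (hK : S_KAP) (hX : S_MAX) (hH : S_HULL) : S_FIN := by
  have hkap : (0:ℝ) < kap 3 := by rw [hK]; positivity
  -- basic inequality for a convex body
  have key : ∀ K : Set (Fin 3 → ℝ), CB K → ∃ p : Fin 3 → ℝ, ((p +ᵥ K) ∩ K).Nonempty ∧
      0 < V (K - K) ∧ V (K - K) ≤ 5 * V (convexHull ℝ (K ∪ (p +ᵥ K))) ∧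
      8 / 3 ≤ V (pol (K - K)) * V (convexHull ℝ (K ∪ (p +ᵥ K))) := by
    intro K hKb
    obtain ⟨c, p, hp, hpoly, hc, hN⟩ := hM K hKb
    obtain ⟨h1, h2, h3⟩ := hH 2 K hKb p hp
    have hV : 0 < V K := V_pos hKb
    have h4 := hpoly 1 zero_le_one
    rw [one_smul, ← sub_eq_add_neg] at h4
    norm_num at h4
    have hD : V (K - K) = 2 * V K + 2 * c := by rw [h4]; ring
    -- c ≥ 0 : from monotonicity we only need positivity of the difference body
    have hDpos : 0 < V (K - K) := by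
      have hsub : CB (K - K) := by
        refine ⟨?_, hKb.convex.sub hKb.convex, ?_⟩
        · have : K - K = (fun q : (Fin 3 → ℝ) × (Fin 3 → ℝ) => q.1 - q.2) '' (K ×ˢ K) := by
            ext x; constructor
            · rintro ⟨a, ha, b, hb, rfl⟩; exact ⟨(a, b), ⟨ha, hb⟩, rfl⟩
            · rintro ⟨⟨a, b⟩, ⟨ha, hb⟩, rfl⟩; exact ⟨a, ha, b, hb, rfl⟩
          rw [this]
          exact (hKb.isCompact.prod hKb.isCompact).image (by fun_prop)
        · obtain ⟨x, hx⟩ := hKb.interior_nonempty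
          have hxK : x ∈ K := interior_subset hx
          have hsub2 : (fun z => z - x) '' (interior K) ⊆ K - K := by
            rintro _ ⟨z, hz, rfl⟩
            exact ⟨z, interior_subset hz, x, hxK, rfl⟩
          have hopen : IsOpen ((fun z : Fin 3 → ℝ => z - x) '' (interior K)) := by
            have := (Homeomorph.subRight x).isOpenMap _ (isOpen_interior (s := K))
            exact this
          exact ⟨x - x, interior_maximal hsub2 hopen ⟨x, hx, rfl⟩⟩
      exact V_pos hsub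
    refine ⟨p, h3, hDpos, ?_, ?_⟩
    · rw [hD]; linarith
    · have hLvol := hLV K hKb c hpoly
      obtain ⟨hLcb, hLsym⟩ := hLB 3 K hKb
      have hLpol := hLP 3 K hKb
      have hmah := hMA 4 (Lb K) hLcb hLsym
      rw [hLvol, hLpol] at hmah
      norm_num [Nat.factorial] at hmah
      have hP : 0 ≤ V (pol (K - K)) := V_nonneg _
      have h5 : V K + c / 3 ≤ V (convexHull ℝ (K ∪ (p +ᵥ K))) := by linarith
      have h6 := mul_le_mul_of_nonneg_right h5 hP
      nlinarith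
  have hrb : ∀ K : Set (Fin 3 → ℝ), V (relBall K) = V (K - K) / 8 := by
    intro K
    unfold relBall
    rw [V_smul]
    rw [abs_of_pos (by norm_num : (0:ℝ) < 1 / 2)]
    ring
  have hrp : ∀ K : Set (Fin 3 → ℝ), V (pol (relBall K)) = 8 * V (pol (K - K)) := by
    intro K
    unfold relBall
    rw [pol_smul, V_smul]
    norm_num
  -- lower bounds
  have lowB : ∀ K : Set (Fin 3 → ℝ), CB K →
      ∃ r, IsGreatest (hullVals volBus K) r ∧ 32 * Real.pi / 15 ≤ r := by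
    intro K hKb
    obtain ⟨p, hp, hpos, h1, -⟩ := key K hKb
    obtain ⟨r, hr, hle⟩ := greatest hX K hKb volBus (kap 3 / V (relBall K))
      (div_nonneg hkap.le (V_nonneg _)) (fun S => rfl) p hp
    refine ⟨r, hr, le_trans ?_ hle⟩
    rw [hrb, hK]
    rw [div_mul_eq_mul_div, le_div_iff₀ (by positivity)]
    have := Real.pi_pos
    nlinarith
  have lowH : ∀ K : Set (Fin 3 → ℝ), CB K →
      ∃ r, IsGreatest (hullVals volHT K) r ∧ 16 / Real.pi ≤ r := by
    intro K hKb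
    obtain ⟨p, hp, hpos, -, h1⟩ := key K hKb
    obtain ⟨r, hr, hle⟩ := greatest hX K hKb volHT (V (pol (relBall K)) / kap 3)
      (div_nonneg (V_nonneg _) hkap.le) (fun S => rfl) p hp
    refine ⟨r, hr, le_trans ?_ hle⟩
    rw [hrp, hK]
    have hpi := Real.pi_pos
    rw [div_mul_eq_mul_div, div_le_div_iff₀ hpi (by positivity)]
    nlinarith
  -- the tetrahedron
  obtain ⟨hTcb, hTv⟩ := hT
  have hup : ∀ q : Fin 3 → ℝ, ((q +ᵥ Tet) ∩ Tet).Nonempty →
      V (convexHull ℝ (Tet ∪ (q +ᵥ Tet))) ≤ 2 / 3 := by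
    intro q hq
    obtain ⟨h1, h2, -⟩ := hH 2 Tet hTcb q (mem_sub_of hq)
    rw [h1]
    refine h2.trans ?_
    rw [hTv]
    norm_num
  have hTD' : (10:ℝ) / 3 ≤ V (Tet - Tet) := hTD
  have hTP' : V (pol (Tet - Tet)) ≤ 4 := hTP
  refine ⟨⟨lowB, ?_⟩, ⟨lowH, ?_⟩, hTcb⟩
  · obtain ⟨r, hr, hle⟩ := lowB Tet hTcb
    have : r = 32 * Real.pi / 15 := by
      apply le_antisymm _ hle
      obtain ⟨⟨q, hq, rfl⟩, -⟩ := hr
      have h1 := hup q hq
      unfold volBus
      rw [hrb, hK]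
      have hpi := Real.pi_pos
      have hpos : 0 < V (Tet - Tet) := by linarith
      rw [div_mul_eq_mul_div, div_le_iff₀ (by positivity)]
      nlinarith
    rwa [this] at hr
  · obtain ⟨r, hr, hle⟩ := lowH Tet hTcb
    have : r = 16 / Real.pi := by
      apply le_antisymm _ hle
      obtain ⟨⟨q, hq, rfl⟩, -⟩ := hr
      have h1 := hup q hq
      unfold volHT
      rw [hrp, hK]
      have hpi := Real.pi_pos
      have h0 : 0 ≤ V (pol (Tet - Tet)) := V_nonneg _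
      have h0' : 0 ≤ V (convexHull ℝ (Tet ∪ (q +ᵥ Tet))) := V_nonneg _
      have h2 : V (pol (Tet - Tet)) * V (convexHull ℝ (Tet ∪ (q +ᵥ Tet))) ≤ 4 * (2 / 3) :=
        mul_le_mul hTP' h1 h0' (by norm_num)
      rw [div_mul_eq_mul_div, div_le_div_iff₀ (by positivity) hpi]
      nlinarith
    rwa [this] at hr

end Pool.Agent.H404R2.TH
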