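import Pool.Agent.H404R2.TH.Spec

set_option autoImplicit false

open MeasureTheory Set Pointwise Matrix

namespace Pool.Agent.H404R2.TH

theorem GIaux_vol {n : ℕ} {A B : Set (Fin n → ℝ)} (hA : CB A) (hB : CB B) (t : ℝ) :
    volume (A + t • B) = volume ((fun q : (Fin n → ℝ) × (Fin n → ℝ) => q.1 + t • q.2) ''
      (interior A ×ˢ interior B)) := by
  set f : (Fin n → ℝ) × (Fin n → ℝ) → (Fin n → ℝ) := fun q => q.1 + t • q.2 with hf
  set C := f '' (interior A ×ˢ interior B) with hC
  have hfc : Continuous f := by fun_prop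
  have himg : A + t • B = f '' (A ×ˢ B) := by
    ext x
    constructor
    · rintro ⟨a, ha, b', ⟨b, hb, rfl⟩, rfl⟩
      exact ⟨(a, b), ⟨ha, hb⟩, rfl⟩
    · rintro ⟨⟨a, b⟩, ⟨ha, hb⟩, rfl⟩
      exact Set.add_mem_add ha (Set.smul_mem_smul_set hb)
  have hCconv : Convex ℝ C := by
    have h1 : C = interior A + t • interior B := by
      ext x
      constructor
      · rintro ⟨⟨a, b⟩, ⟨ha, hb⟩, rfl⟩
        exact Set.add_mem_add ha (Set.smul_mem_smul_set hb)
      · rintro ⟨a, ha, b', ⟨b, hb, rfl⟩, rfl⟩
        exact ⟨(a, b), ⟨ha, hb⟩, rfl⟩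
    rw [h1]
    exact hA.convex.interior.add (hB.convex.interior.smul t)
  have hsub1 : C ⊆ A + t • B := by
    rw [himg]
    exact Set.image_mono (Set.prod_mono interior_subset interior_subset)
  have hclA : A ⊆ closure (interior A) := by
    rw [hA.convex.closure_interior_eq_closure_of_nonempty_interior hA.interior_nonempty]
    exact subset_closure
  have hclB : B ⊆ closure (interior B) := by
    rw [hB.convex.closure_interior_eq_closure_of_nonempty_interior hB.interior_nonempty]
    exact subset_closure
  have hsub2 : A + t • B ⊆ closure C := by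
    rw [himg]
    refine (Set.image_mono (Set.prod_mono hclA hclB)).trans ?_
    rw [← closure_prod_eq]
    exact image_closure_subset_closure_image hfc
  have h3 : volume (closure C) = volume C := by
    have hfr : volume (frontier C) = 0 := hCconv.addHaar_frontier volume
    refine le_antisymm ?_ (measure_mono subset_closure)
    calc volume (closure C) ≤ volume (C ∪ frontier C) := by
          refine measure_mono ?_
          rw [closure_eq_self_union_frontier]
      _ ≤ volume C + volume (frontier C) := measure_union_le _ _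
      _ = volume C := by rw [hfr, add_zero]
  exact le_antisymm ((measure_mono hsub2).trans h3.le) (measure_mono hsub1)

theorem t_GI (h1 : S_GIJ) (h2 : S_GIR) : S_GI := by
  intro n A B φA GA MA φB GB MB hA hB LA LB t ht
  obtain ⟨hinj, hpos⟩ := h1 n A B φA GA MA φB GB MB hA hB LA LB t ht
  have hsurj := h2 n A B φA GA MA φB GB MB hA hB LA LB t ht
  set F : (Fin n → ℝ) → (Fin n → ℝ) := fun x => GA x + t • GB x with hF
  have hder : ∀ x, HasFDerivAt F (Matrix.toLin' (MA x + t • MB x)).toContinuousLinearMap x := by
    intro x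
    have h := (LA.deriv x).add ((LB.deriv x).const_smul t)
    have e : (Matrix.toLin' (MA x + t • MB x)).toContinuousLinearMap =
        (Matrix.toLin' (MA x)).toContinuousLinearMap +
          t • (Matrix.toLin' (MB x)).toContinuousLinearMap := by
      ext1 v
      simp
    rw [e]
    exact h
  have hrange : F '' univ = (fun q : (Fin n → ℝ) × (Fin n → ℝ) => q.1 + t • q.2) ''
      (interior A ×ˢ interior B) := by
    ext y
    constructor
    · rintro ⟨x, _, rfl⟩
      exact ⟨(GA x, GB x), ⟨LA.mem x, LB.mem x⟩, rfl⟩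
    · rintro ⟨⟨a, b⟩, ⟨ha, hb⟩, rfl⟩
      obtain ⟨x, hx⟩ := hsurj a ha b hb
      exact ⟨x, mem_univ x, hx⟩
  have h5 := lintegral_abs_det_fderiv_eq_addHaar_image volume (f := F)
    (f' := fun x => (Matrix.toLin' (MA x + t • MB x)).toContinuousLinearMap) MeasurableSet.univ
    (fun x _ => (hder x).hasFDerivWithinAt) hinj.injOn
  rw [GIaux_vol hA hB t, ← hrange, ← h5, Measure.restrict_univ]
  refine lintegral_congr (fun x => ?_)
  have h6 : ((Matrix.toLin' (MA x + t • MB x)).toContinuousLinearMap).det =
      (MA x + t • MB x).det := by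
    rw [LinearMap.det_toContinuousLinearMap, LinearMap.det_toLin']
  rw [h6, abs_of_pos (hpos x)]

end Pool.Agent.H404R2.TH
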