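import Pool.Agent.H404R2.TH.Spec

set_option autoImplicit false

open MeasureTheory Set Pointwise Matrix

namespace Pool.Agent.H404R2.TH

namespace GIJaux

theorem dir_deriv {n : ℕ} {G : (Fin n → ℝ) → (Fin n → ℝ)} {M : Matrix (Fin n) (Fin n) ℝ}
    {x v : Fin n → ℝ} {s : ℝ}
    (h : HasFDerivAt G (Matrix.toLin' M).toContinuousLinearMap (x + s • v)) :
    HasDerivAt (fun s : ℝ => G (x + s • v) ⬝ᵥ v) ((M *ᵥ v) ⬝ᵥ v) s := by
  have h1 : HasDerivAt (fun s : ℝ => x + s • v) v s := by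
    have := ((hasDerivAt_id s).smul_const v).const_add x
    simpa using this
  have h2 := h.comp_hasDerivAt s h1
  have h3 : ((Matrix.toLin' M).toContinuousLinearMap v) = M *ᵥ v := by
    simp [Matrix.toLin'_apply]
  rw [h3, hasDerivAt_pi] at h2
  unfold dotProduct
  exact HasDerivAt.fun_sum fun i _ => (h2 i).mul_const (v i)

end GIJaux

theorem t_GIJ : S_GIJ := by
  intro n A B φA GA MA φB GB MB _ _ hA hB t ht
  have hN : ∀ x, (MA x + t • MB x).PosDef := fun x =>
    (hA.pos x).add_posSemidef ((hB.pos x).posSemidef.smul ht)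
  refine ⟨?_, fun x => (hN x).det_pos⟩
  intro x x' hxx
  by_contra hne
  simp only at hxx
  have hv : x' - x ≠ 0 := sub_ne_zero.mpr (Ne.symm hne)
  have hg : ∀ s : ℝ, HasDerivAt (fun s : ℝ => GA (x + s • (x' - x)) ⬝ᵥ (x' - x) +
      t * (GB (x + s • (x' - x)) ⬝ᵥ (x' - x)))
      ((MA (x + s • (x' - x)) *ᵥ (x' - x)) ⬝ᵥ (x' - x) +
      t * ((MB (x + s • (x' - x)) *ᵥ (x' - x)) ⬝ᵥ (x' - x))) s := fun s =>
    (GIJaux.dir_deriv (hA.deriv _)).add ((GIJaux.dir_deriv (hB.deriv _)).const_mul t)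
  have hmono : StrictMono (fun s : ℝ => GA (x + s • (x' - x)) ⬝ᵥ (x' - x) +
      t * (GB (x + s • (x' - x)) ⬝ᵥ (x' - x))) := by
    apply strictMono_of_deriv_pos
    intro s
    rw [(hg s).deriv]
    have h1 := (hN (x + s • (x' - x))).dotProduct_mulVec_pos hv
    rw [Matrix.add_mulVec, dotProduct_add, Matrix.smul_mulVec, dotProduct_smul] at h1
    simp only [star_trivial, smul_eq_mul] at h1
    rw [dotProduct_comm _ (x' - x), dotProduct_comm (MB _ *ᵥ _) (x' - x)]
    exact h1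
  have h01 := hmono (zero_lt_one' ℝ)
  simp only [zero_smul, add_zero, one_smul, add_sub_cancel] at h01
  have h2 : (GA x + t • GB x) ⬝ᵥ (x' - x) = (GA x' + t • GB x') ⬝ᵥ (x' - x) := by rw [hxx]
  rw [add_dotProduct, add_dotProduct, smul_dotProduct, smul_dotProduct, smul_eq_mul,
    smul_eq_mul] at h2
  linarith

end Pool.Agent.H404R2.TH
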