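import Pool.Agent.H404R2.TH.Spec

set_option autoImplicit false

open MeasureTheory Set Pointwise Matrix

namespace Pool.Agent.H404R2.TH

namespace GIRaux

theorem dot_deriv {n : ℕ} (x v a : Fin n → ℝ) :
    HasDerivAt (fun s : ℝ => (x + s • v) ⬝ᵥ a) (v ⬝ᵥ a) 0 := by
  have h1 : (fun s : ℝ => (x + s • v) ⬝ᵥ a) = fun s : ℝ => x ⬝ᵥ a + s * (v ⬝ᵥ a) := by
    funext s
    rw [add_dotProduct, smul_dotProduct, smul_eq_mul]
  rw [h1]
  simpa using ((hasDerivAt_id (0 : ℝ)).mul_const (v ⬝ᵥ a)).const_add (x ⬝ᵥ a)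

end GIRaux

theorem t_GIR : S_GIR := by
  intro n A B φA GA MA φB GB MB _ _ hA hB t ht a ha b hb
  obtain ⟨c, hc, C, hC⟩ := hA.coer a ha
  obtain ⟨c', hc', C', hC'⟩ := hB.coer b hb
  have hcont : Continuous fun x => (φA x - x ⬝ᵥ a) + t * (φB x - x ⬝ᵥ b) := by
    have h1 := hA.contφ
    have h2 := hB.contφ
    have h3 : ∀ a : Fin n → ℝ, Continuous fun x : Fin n → ℝ => x ⬝ᵥ a := by
      intro a
      unfold dotProduct
      fun_prop
    exact (h1.sub (h3 a)).add (continuous_const.mul (h2.sub (h3 b)))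
  have htend : Filter.Tendsto (fun x => (φA x - x ⬝ᵥ a) + t * (φB x - x ⬝ᵥ b))
      (Filter.cocompact (Fin n → ℝ)) Filter.atTop := by
    have h1 : Filter.Tendsto (fun x : Fin n → ℝ => c * ‖x‖ + (-C - t * C'))
        (Filter.cocompact (Fin n → ℝ)) Filter.atTop :=
      Filter.tendsto_atTop_add_const_right _ _
        ((tendsto_norm_cocompact_atTop (E := Fin n → ℝ)).const_mul_atTop hc)
    refine Filter.tendsto_atTop_mono (fun x => ?_) h1
    have h2 := hC x
    have h3 := mul_le_mul_of_nonneg_left (hC' x) ht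
    have h4 : 0 ≤ t * (c' * ‖x‖) := by positivity
    nlinarith
  obtain ⟨x, hx⟩ := hcont.exists_forall_le htend
  refine ⟨x, ?_⟩
  have key : ∀ v : Fin n → ℝ, (GA x + t • GB x - (a + t • b)) ⬝ᵥ v = 0 := by
    intro v
    have h1 : HasDerivAt (fun s : ℝ => (φA (x + s • v) - (x + s • v) ⬝ᵥ a) +
        t * (φB (x + s • v) - (x + s • v) ⬝ᵥ b))
        ((GA x ⬝ᵥ v - v ⬝ᵥ a) + t * (GB x ⬝ᵥ v - v ⬝ᵥ b)) 0 :=
      ((hA.grad x v).sub (GIRaux.dot_deriv x v a)).add
        (((hB.grad x v).sub (GIRaux.dot_deriv x v b)).const_mul t)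
    have h2 : IsLocalMin (fun s : ℝ => (φA (x + s • v) - (x + s • v) ⬝ᵥ a) +
        t * (φB (x + s • v) - (x + s • v) ⬝ᵥ b)) 0 := by
      refine Filter.Eventually.of_forall fun s => ?_
      simp only [zero_smul, add_zero]
      exact hx (x + s • v)
    have h3 := h2.hasDerivAt_eq_zero h1
    rw [sub_dotProduct, add_dotProduct, add_dotProduct, smul_dotProduct, smul_dotProduct,
      smul_eq_mul, smul_eq_mul, dotProduct_comm a v, dotProduct_comm b v]
    linarith
  have h1 := dotProduct_self_eq_zero.mp (key _)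
  exact sub_eq_zero.mp h1

end Pool.Agent.H404R2.TH
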