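import Pool.Agent.H404R2.TH.Spec

set_option autoImplicit false

open MeasureTheory Set Pointwise Matrix

namespace Pool.Agent.H404R2.TH

/-! The lemmas of this namespace are copied from the Starting point file
`Pool/Agent/Results/MP_87489e_co/MassMin.lean`. -/
namespace HULLaux

/-- fibre over `y` -/
def fib {n : ℕ} (K : Set (Fin (n + 1) → ℝ)) (y : Fin n → ℝ) : Set ℝ :=
  {t | (Fin.cons t y : Fin (n + 1) → ℝ) ∈ K}

/-- projection along the first coordinate -/
def proj {n : ℕ} (K : Set (Fin (n + 1) → ℝ)) : Set (Fin n → ℝ) :=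
  (fun x : Fin (n + 1) → ℝ => fun i => x (Fin.succ i)) '' K

theorem fib_eq {n : ℕ} (K : Set (Fin (n + 1) → ℝ)) (y : Fin n → ℝ) :
    (fun x : ℝ => (x, y)) ⁻¹'
      ((MeasurableEquiv.piFinSuccAbove (fun _ : Fin (n + 1) => ℝ) 0).symm ⁻¹' K) = fib K y := by
  ext t
  have h : (MeasurableEquiv.piFinSuccAbove (fun _ : Fin (n + 1) => ℝ) 0).symm (t, y) =
      Fin.cons t y := Fin.insertNth_zero' t y
  show (MeasurableEquiv.piFinSuccAbove (fun _ : Fin (n + 1) => ℝ) 0).symm (t, y) ∈ K ↔ _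
  rw [h]
  rfl

theorem vol_fib {n : ℕ} {K : Set (Fin (n + 1) → ℝ)} (hK : MeasurableSet K) :
    volume K = ∫⁻ y : Fin n → ℝ, volume (fib K y) := by
  have h1 := (volume_preserving_piFinSuccAbove (fun _ : Fin (n + 1) => ℝ) 0).symm
  have h2 := h1.measure_preimage hK.nullMeasurableSet
  rw [← h2, Measure.volume_eq_prod, Measure.prod_apply_symm]
  · apply lintegral_congr
    intro y
    rw [fib_eq]
  · exact h1.measurable hK

theorem meas_fib {n : ℕ} {K : Set (Fin (n + 1) → ℝ)} (hK : MeasurableSet K) :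
    Measurable fun y : Fin n → ℝ => volume (fib K y) := by
  have h1 := (volume_preserving_piFinSuccAbove (fun _ : Fin (n + 1) => ℝ) 0).symm
  have h2 := measurable_measure_prodMk_right (μ := (volume : Measure ℝ))
    (h1.measurable hK)
  simp only [fib_eq] at h2
  exact h2

theorem mem_fib_iff {n : ℕ} {K : Set (Fin (n + 1) → ℝ)} {y : Fin n → ℝ} :
    y ∈ proj K ↔ (fib K y).Nonempty := by
  constructor
  · rintro ⟨x, hx, rfl⟩
    refine ⟨x 0, ?_⟩
    show (Fin.cons (x 0) (Fin.tail x) : Fin (n + 1) → ℝ) ∈ K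
    rwa [Fin.cons_self_tail]
  · rintro ⟨t, ht⟩
    exact ⟨_, ht, by ext i; simp⟩

theorem continuous_cons {n : ℕ} (y : Fin n → ℝ) :
    Continuous fun t : ℝ => (Fin.cons t y : Fin (n + 1) → ℝ) := by
  apply continuous_pi
  intro i
  refine Fin.cases ?_ ?_ i
  · simp only [Fin.cons_zero]
    exact continuous_id
  · intro j
    simp only [Fin.cons_succ]
    exact continuous_const

theorem cons_comb {n : ℕ} (y y' : Fin n → ℝ) (t t' a b : ℝ) :
    a • (Fin.cons t y : Fin (n + 1) → ℝ) + b • (Fin.cons t' y' : Fin (n + 1) → ℝ) =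
      Fin.cons (a * t + b * t') (a • y + b • y') := by
  ext i
  refine Fin.cases ?_ ?_ i
  · simp
  · intro j
    simp

theorem fib_convex {n : ℕ} {K : Set (Fin (n + 1) → ℝ)} (hc : Convex ℝ K) (y : Fin n → ℝ) :
    Convex ℝ (fib K y) := by
  intro s hs t ht a b ha hb hab
  show (Fin.cons (a • s + b • t) y : Fin (n + 1) → ℝ) ∈ K
  have h := hc hs ht ha hb hab
  rw [cons_comb, ← add_smul, hab, one_smul] at h
  exact h

theorem fib_compact {n : ℕ} {K : Set (Fin (n + 1) → ℝ)} (hK : IsCompact K) (y : Fin n → ℝ) :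
    IsCompact (fib K y) := by
  have h1 : IsClosed (fib K y) := hK.isClosed.preimage (continuous_cons y)
  have h2 : fib K y ⊆ (fun x : Fin (n + 1) → ℝ => x 0) '' K := by
    intro t ht
    exact ⟨_, ht, by simp⟩
  exact (hK.image (continuous_apply 0)).of_isClosed_subset h1 h2

theorem fib_Icc {n : ℕ} {K : Set (Fin (n + 1) → ℝ)} (hK : IsCompact K) (hc : Convex ℝ K)
    {y : Fin n → ℝ} (hy : y ∈ proj K) : ∃ α β : ℝ, α ≤ β ∧ fib K y = Icc α β := by
  have hne := mem_fib_iff.1 hy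
  have h1 : IsConnected (fib K y) := ⟨hne, (fib_convex hc y).isPreconnected⟩
  have h2 := eq_Icc_of_connected_compact h1 (fib_compact hK y)
  refine ⟨_, _, ?_, h2⟩
  rw [h2] at hne
  exact nonempty_Icc.1 hne

theorem proj_convex {n : ℕ} {K : Set (Fin (n + 1) → ℝ)} (hc : Convex ℝ K) :
    Convex ℝ (proj K) := by
  rintro _ ⟨x, hx, rfl⟩ _ ⟨x', hx', rfl⟩ a b ha hb hab
  exact ⟨_, hc hx hx' ha hb hab, by ext i; simp⟩

theorem proj_compact {n : ℕ} {K : Set (Fin (n + 1) → ℝ)} (hK : IsCompact K) :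
    IsCompact (proj K) :=
  hK.image (by fun_prop)

/-- the segment from `0` to `2 e_0` -/
def seg (n : ℕ) : Set (Fin (n + 1) → ℝ) := {x | ∃ s : ℝ, 0 ≤ s ∧ s ≤ 2 ∧ x = Fin.cons s 0}

theorem fib_add_seg {n : ℕ} {K : Set (Fin (n + 1) → ℝ)} (hK : IsCompact K) (hc : Convex ℝ K)
    (y : Fin n → ℝ) :
    volume (fib (K + seg n) y) = volume (fib K y) + (proj K).indicator (fun _ => 2) y := by
  have hmem : ∀ t, t ∈ fib (K + seg n) y ↔ ∃ s, 0 ≤ s ∧ s ≤ 2 ∧ t - s ∈ fib K y := by
    intro t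
    constructor
    · rintro ⟨x, hx, _, ⟨s, hs0, hs2, rfl⟩, hxs⟩
      refine ⟨s, hs0, hs2, ?_⟩
      show (Fin.cons (t - s) y : Fin (n + 1) → ℝ) ∈ K
      have h1 : (Fin.cons (t - s) y : Fin (n + 1) → ℝ) = x := by
        have h2 : x = Fin.cons t y - Fin.cons s 0 := eq_sub_of_add_eq hxs
        rw [h2]
        ext i
        refine Fin.cases ?_ ?_ i
        · simp
        · intro j
          simp
      rw [h1]
      exact hx
    · rintro ⟨s, hs0, hs2, h⟩
      refine ⟨_, h, _, ⟨s, hs0, hs2, rfl⟩, ?_⟩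
      ext i
      refine Fin.cases ?_ ?_ i
      · simp
      · intro j
        simp
  by_cases hy : y ∈ proj K
  · obtain ⟨α, β, hαβ, hF⟩ := fib_Icc hK hc hy
    rw [indicator_of_mem hy]
    have h1 : fib (K + seg n) y = Icc α (β + 2) := by
      ext t
      rw [hmem, hF]
      constructor
      · rintro ⟨s, hs0, hs2, h1, h2⟩
        constructor <;> linarith
      · rintro ⟨h1, h2⟩
        by_cases h3 : t ≤ β
        · exact ⟨0, le_rfl, by norm_num, by simpa using ⟨h1, h3⟩⟩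
        · push Not at h3
          exact ⟨t - β, by linarith, by linarith, by constructor <;> linarith⟩
    rw [h1, hF, Real.volume_Icc, Real.volume_Icc]
    have h2 : (2 : ENNReal) = ENNReal.ofReal 2 := by simp
    rw [h2, ← ENNReal.ofReal_add (by linarith) (by norm_num)]
    congr 1
    ring
  · rw [indicator_of_notMem hy, add_zero]
    have h0 : fib K y = ∅ := by
      by_contra h
      exact hy (mem_fib_iff.2 (nonempty_iff_ne_empty.2 h))
    have h1 : fib (K + seg n) y = ∅ := by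
      ext t
      rw [hmem, h0]
      simp
    rw [h0, h1]

theorem isCompact_seg (n : ℕ) : IsCompact (seg n) := by
  have h1 : seg n = (fun s : ℝ => (Fin.cons s 0 : Fin (n + 1) → ℝ)) '' Icc 0 2 := by
    ext x
    constructor
    · rintro ⟨s, h0, h2, rfl⟩
      exact ⟨s, ⟨h0, h2⟩, rfl⟩
    · rintro ⟨s, ⟨h0, h2⟩, rfl⟩
      exact ⟨s, h0, h2, rfl⟩
  rw [h1]
  exact isCompact_Icc.image (continuous_cons 0)

/-- volume of the sum of a convex body and a segment -/
theorem vol_add_seg {n : ℕ} {K : Set (Fin (n + 1) → ℝ)} (hK : IsCompact K) (hc : Convex ℝ K) :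
    volume (K + seg n) = volume K + 2 * volume (proj K) := by
  rw [vol_fib (hK.add (isCompact_seg n)).isClosed.measurableSet,
    vol_fib hK.isClosed.measurableSet]
  simp_rw [fib_add_seg hK hc]
  rw [lintegral_add_left (meas_fib hK.isClosed.measurableSet),
    lintegral_indicator (proj_compact hK).isClosed.measurableSet]
  simp

theorem int_pow (n : ℕ) :
    ∫⁻ t : ℝ in Ioo 0 2, ENNReal.ofReal ((1 - t / 2) ^ n) = ENNReal.ofReal (2 / (n + 1)) := by
  have hi : ∫ t : ℝ in (0:ℝ)..2, (1 - t / 2) ^ n = 2 / (n + 1) := by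
    have hn : (n : ℝ) + 1 ≠ 0 := by positivity
    have h1 : ∀ t ∈ uIcc (0:ℝ) 2, HasDerivAt (fun t : ℝ => -(2 / (n + 1)) * (1 - t / 2) ^ (n + 1))
        ((1 - t / 2) ^ n) t := by
      intro t _
      have h2 : HasDerivAt (fun t : ℝ => 1 - t / 2) (-(1 / 2)) t := by
        have := ((hasDerivAt_id t).div_const 2).const_sub 1
        simpa using this
      have h3 := (h2.pow (n + 1)).const_mul (-(2 / ((n : ℝ) + 1)))
      refine h3.congr_deriv ?_
      push_cast
      field_simp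
    rw [intervalIntegral.integral_eq_sub_of_hasDerivAt h1
      ((by fun_prop : Continuous fun t : ℝ => (1 - t / 2) ^ n).intervalIntegrable _ _)]
    norm_num
  rw [← hi, intervalIntegral.integral_of_le (by norm_num), ← integral_Ioc_eq_integral_Ioo.symm,
    ofReal_integral_eq_lintegral_ofReal]
  · exact ((by fun_prop : Continuous fun t : ℝ => (1 - t / 2) ^ n).integrableOn_Icc).mono_set
      Ioo_subset_Icc_self
  · filter_upwards [ae_restrict_mem measurableSet_Ioo] with t ht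
    have : 0 ≤ 1 - t / 2 := by have := ht.2; linarith
    positivity

/-- volume of a convex body with a long chord, compared with the volume of its projection -/
theorem vol_proj_le {n : ℕ} {K : Set (Fin (n + 1) → ℝ)} (hK : IsCompact K) (hc : Convex ℝ K)
    {a : Fin n → ℝ} {t₀ : ℝ} (h1 : (Fin.cons t₀ a : Fin (n + 1) → ℝ) ∈ K)
    (h2 : (Fin.cons (t₀ + 2) a : Fin (n + 1) → ℝ) ∈ K) :
    ENNReal.ofReal (2 / (n + 1)) * volume (proj K) ≤ volume K := by
  have hfin : ∀ y, volume (fib K y) ≠ ⊤ := fun y => (fib_compact hK y).measure_lt_top.ne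
  set ℓ : (Fin n → ℝ) → ℝ := fun y => (volume (fib K y)).toReal with hℓ
  have hℓm : Measurable ℓ := (meas_fib hK.isClosed.measurableSet).ennreal_toReal
  have e1 : volume K = ∫⁻ t in Ioi (0:ℝ), volume {y | t ≤ ℓ y} := by
    rw [vol_fib hK.isClosed.measurableSet,
      ← lintegral_eq_lintegral_meas_le volume (Filter.Eventually.of_forall fun y =>
        ENNReal.toReal_nonneg) hℓm.aemeasurable]
    apply lintegral_congr
    intro y
    exact (ENNReal.ofReal_toReal (hfin y)).symm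
  have key : ∀ t ∈ Ioo (0:ℝ) 2, ENNReal.ofReal ((1 - t / 2) ^ n) * volume (proj K) ≤
      volume {y | t ≤ ℓ y} := by
    intro t ht
    have hr : 0 ≤ 1 - t / 2 := by have := ht.2; linarith
    have h3 := Measure.addHaar_image_homothety (volume : Measure (Fin n → ℝ)) a (1 - t / 2) (proj K)
    rw [Module.finrank_fin_fun, abs_of_nonneg (by positivity)] at h3
    rw [← h3]
    apply measure_mono
    rintro _ ⟨y', hy', rfl⟩
    obtain ⟨s, hs⟩ := mem_fib_iff.1 hy'
    show t ≤ (volume (fib K _)).toReal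
    have h4 : Icc ((1 - t / 2) * s + t / 2 * t₀) ((1 - t / 2) * s + t / 2 * t₀ + t) ⊆
        fib K (AffineMap.homothety a (1 - t / 2) y') := by
      intro x hx
      obtain ⟨hx1, hx2⟩ := hx
      have ht0 : 0 < t := ht.1
      set θ : ℝ := (x - ((1 - t / 2) * s + t / 2 * t₀)) / t with hθ
      have hθ0 : 0 ≤ θ := div_nonneg (by linarith) ht0.le
      have hθ1 : θ ≤ 1 := by rw [hθ, div_le_one ht0]; linarith
      have h5 := hc h1 h2 (show 0 ≤ 1 - θ by linarith) hθ0 (by ring)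
      have h6 := hc hs h5 hr (show 0 ≤ t / 2 by linarith) (by ring)
      rw [cons_comb, cons_comb] at h6
      show (Fin.cons x _ : Fin (n + 1) → ℝ) ∈ K
      have h7 : (1 - t / 2) * s + t / 2 * ((1 - θ) * t₀ + θ * (t₀ + 2)) = x := by
        have h8 : θ * t = x - ((1 - t / 2) * s + t / 2 * t₀) := by
          rw [hθ, div_mul_cancel₀ _ ht0.ne']
        linarith
      have h9 : (1 - t / 2) • y' + (t / 2) • ((1 - θ) • a + θ • a) =
          AffineMap.homothety a (1 - t / 2) y' := by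
        rw [AffineMap.homothety_apply, vsub_eq_sub, vadd_eq_add]
        module
      rw [h7, h9] at h6
      exact h6
    have h5 := measure_mono (μ := (volume : Measure ℝ)) h4
    rw [Real.volume_Icc, add_sub_cancel_left] at h5
    have h6 := ENNReal.toReal_mono (hfin _) h5
    rwa [ENNReal.toReal_ofReal ht.1.le] at h6
  calc ENNReal.ofReal (2 / (n + 1)) * volume (proj K)
      = ∫⁻ t : ℝ in Ioo 0 2, ENNReal.ofReal ((1 - t / 2) ^ n) * volume (proj K) := by
        rw [lintegral_mul_const _ (by fun_prop), int_pow]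
    _ ≤ ∫⁻ t : ℝ in Ioo 0 2, volume {y | t ≤ ℓ y} :=
        setLIntegral_mono' measurableSet_Ioo key
    _ ≤ ∫⁻ t in Ioi (0:ℝ), volume {y | t ≤ ℓ y} :=
        lintegral_mono_set Ioo_subset_Ioi_self
    _ = volume K := e1.symm


theorem vol_seg_le {n : ℕ} {K : Set (Fin (n + 1) → ℝ)} (hK : IsCompact K) (hc : Convex ℝ K)
    {a : Fin (n + 1) → ℝ} (ha : a ∈ K) (ha2 : a + Pi.single 0 (2 : ℝ) ∈ K) :
    volume (K + seg n) ≤ ENNReal.ofReal (n + 2) * volume K := by
  have e1 : (Fin.cons (a 0) (fun i => a i.succ) : Fin (n + 1) → ℝ) = a := by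
    ext i
    refine Fin.cases ?_ ?_ i
    · simp
    · intro j; simp
  have e2 : (Fin.cons (a 0 + 2) (fun i => a i.succ) : Fin (n + 1) → ℝ) =
      a + Pi.single 0 (2 : ℝ) := by
    ext i
    refine Fin.cases ?_ ?_ i
    · simp
    · intro j; simp
  have h2 := vol_proj_le hK hc (a := fun i => a i.succ) (t₀ := a 0) (by rw [e1]; exact ha)
    (by rw [e2]; exact ha2)
  rw [vol_add_seg hK hc]
  have h3 : 2 * volume (proj K) ≤ ENNReal.ofReal (n + 1) * volume K := by
    calc 2 * volume (proj K)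
        = ENNReal.ofReal (n + 1) * (ENNReal.ofReal (2 / (n + 1)) * volume (proj K)) := by
          rw [← mul_assoc, ← ENNReal.ofReal_mul (by positivity)]
          have : ((n : ℝ) + 1) * (2 / (n + 1)) = 2 := by field_simp
          rw [this]
          simp
      _ ≤ ENNReal.ofReal (n + 1) * volume K := by gcongr
  calc volume K + 2 * volume (proj K)
      ≤ volume K + ENNReal.ofReal (n + 1) * volume K := by gcongr
    _ = (1 + ENNReal.ofReal (n + 1)) * volume K := by ring
    _ = ENNReal.ofReal (n + 2) * volume K := by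
        congr 1
        rw [← ENNReal.ofReal_one, ← ENNReal.ofReal_add (by norm_num) (by positivity)]
        congr 1
        ring

theorem seg_eq (n : ℕ) : seg n = segment ℝ (0 : Fin (n + 1) → ℝ) (Pi.single 0 (2 : ℝ)) := by
  rw [segment_eq_image]
  ext x
  constructor
  · rintro ⟨s, h0, h2, rfl⟩
    refine ⟨s / 2, ⟨by positivity, by linarith⟩, ?_⟩
    ext i
    refine Fin.cases ?_ ?_ i
    · simp
    · intro j; simp
  · rintro ⟨t, ⟨h0, h1⟩, rfl⟩
    refine ⟨2 * t, by positivity, by linarith, ?_⟩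
    ext i
    refine Fin.cases ?_ ?_ i
    · simp [mul_comm]
    · intro j; simp

/-- linear change of variables -/
theorem vol_image {n : ℕ} (A : (Fin (n + 1) → ℝ) ≃L[ℝ] (Fin (n + 1) → ℝ))
    (K : Set (Fin (n + 1) → ℝ)) (p : Fin (n + 1) → ℝ) (hp : A (Pi.single 0 (2 : ℝ)) = p) :
    volume (K + segment ℝ 0 p) = ENNReal.ofReal |LinearMap.det (A : (Fin (n + 1) → ℝ) →ₗ[ℝ] _)| *
      volume (A.symm '' K + seg n) := by
  rw [← Measure.addHaar_image_continuousLinearEquiv, Set.image_add, Set.image_image, seg_eq]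
  have h1 : (fun x => A (A.symm x)) '' K = K := by simp
  have h2 : A '' segment ℝ 0 (Pi.single 0 (2 : ℝ)) = segment ℝ 0 p := by
    have h3 := image_segment (𝕜 := ℝ) (A : (Fin (n + 1) → ℝ) →ₗ[ℝ] (Fin (n + 1) → ℝ)).toAffineMap
      (0 : Fin (n + 1) → ℝ) (Pi.single 0 (2 : ℝ))
    simp only [LinearMap.coe_toAffineMap] at h3
    have h4 : (A : (Fin (n + 1) → ℝ) →ₗ[ℝ] (Fin (n + 1) → ℝ)) (Pi.single 0 (2 : ℝ)) = p := hp
    rw [h4, map_zero] at h3
    exact h3
  rw [h1, h2]

theorem hull_sub {n : ℕ} {K : Set (Fin n → ℝ)} (hc : Convex ℝ K) (p : Fin n → ℝ) :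
    convexHull ℝ (K ∪ (p +ᵥ K)) ⊆ K + segment ℝ 0 p := by
  apply convexHull_min
  · rintro x (hx | ⟨y, hy, rfl⟩)
    · exact ⟨x, hx, 0, left_mem_segment ℝ 0 p, add_zero x⟩
    · exact ⟨y, hy, p, right_mem_segment ℝ 0 p, by simp [add_comm]⟩
  · exact hc.add (convex_segment 0 p)

theorem sub_hull {n : ℕ} (K : Set (Fin n → ℝ)) (p : Fin n → ℝ) :
    K + segment ℝ 0 p ⊆ convexHull ℝ (K ∪ (p +ᵥ K)) := by
  rintro _ ⟨x, hx, q, hq, rfl⟩
  rw [segment_eq_image] at hq
  obtain ⟨t, ⟨h0, h1⟩, rfl⟩ := hq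
  have h2 : x ∈ convexHull ℝ (K ∪ (p +ᵥ K)) := subset_convexHull ℝ _ (Or.inl hx)
  have h3 : p + x ∈ convexHull ℝ (K ∪ (p +ᵥ K)) :=
    subset_convexHull ℝ _ (Or.inr ⟨x, hx, rfl⟩)
  have h4 := (convex_convexHull ℝ (K ∪ (p +ᵥ K))) h2 h3 (show 0 ≤ 1 - t by linarith) h0 (by ring)
  have h5 : (1 - t) • x + t • (p + x) = x + ((1 - t) • (0 : Fin n → ℝ) + t • p) := by module
  show x + ((1 - t) • (0 : Fin n → ℝ) + t • p) ∈ _
  rw [← h5]
  exact h4

/-- the easy upper bound (Rogers and Shephard) -/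
theorem hull_le {n : ℕ} {K : Set (Fin (n + 1) → ℝ)} (hK : IsCompact K) (hc : Convex ℝ K)
    {p : Fin (n + 1) → ℝ} (hp : ((p +ᵥ K) ∩ K).Nonempty) :
    volume (convexHull ℝ (K ∪ (p +ᵥ K))) ≤ ENNReal.ofReal (n + 2) * volume K := by
  obtain ⟨x, ⟨y, hy, hyx⟩, hx⟩ := hp
  have hyx' : p + y = x := hyx
  by_cases hp0 : p = 0
  · subst hp0
    have h1 : K ∪ ((0 : Fin (n + 1) → ℝ) +ᵥ K) = K := by simp
    rw [h1, hc.convexHull_eq]
    calc volume K = 1 * volume K := (one_mul _).symm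
      _ ≤ ENNReal.ofReal (n + 2) * volume K := by
        gcongr
        rw [ENNReal.one_le_ofReal]
        have : (0 : ℝ) ≤ n := Nat.cast_nonneg n
        linarith
  · have hs : (Pi.single 0 (2 : ℝ) : Fin (n + 1) → ℝ) ≠ 0 := by
      intro h
      have := congrFun h 0
      simp at this
    obtain ⟨A, hA⟩ := SeparatingDual.exists_continuousLinearEquiv_apply_eq (R := ℝ) hs hp0
    have h1 : IsCompact (A.symm '' K) := hK.image A.symm.continuous
    have h2 : Convex ℝ (A.symm '' K) :=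
      hc.linear_image (A.symm : (Fin (n + 1) → ℝ) →ₗ[ℝ] (Fin (n + 1) → ℝ))
    have h3 : A.symm p = Pi.single 0 (2 : ℝ) := by rw [← hA]; simp
    have h4 : A.symm y + Pi.single 0 (2 : ℝ) ∈ A.symm '' K := by
      refine ⟨x, hx, ?_⟩
      rw [← hyx', map_add, h3]
      exact add_comm _ _
    have h5 := vol_seg_le h1 h2 ⟨y, hy, rfl⟩ h4
    calc volume (convexHull ℝ (K ∪ (p +ᵥ K))) ≤ volume (K + segment ℝ 0 p) :=
          measure_mono (hull_sub hc p)
      _ = ENNReal.ofReal |LinearMap.det (A : (Fin (n + 1) → ℝ) →ₗ[ℝ] _)| *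
          volume (A.symm '' K + seg n) := vol_image A K p hA
      _ ≤ ENNReal.ofReal |LinearMap.det (A : (Fin (n + 1) → ℝ) →ₗ[ℝ] _)| *
          (ENNReal.ofReal (n + 2) * volume (A.symm '' K)) := by gcongr
      _ = ENNReal.ofReal (n + 2) * (ENNReal.ofReal
          |LinearMap.det (A : (Fin (n + 1) → ℝ) →ₗ[ℝ] _)| * volume (A.symm '' K)) := by ring
      _ = ENNReal.ofReal (n + 2) * volume K := by
          rw [← Measure.addHaar_image_continuousLinearEquiv, Set.image_image]
          simp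

end HULLaux

open HULLaux in
theorem t_HULL : S_HULL := by
  intro n K hK p hp
  obtain ⟨x, hx, y, hy, hxy⟩ := hp
  have hxy' : x - y = p := hxy
  have hne : ((p +ᵥ K) ∩ K).Nonempty := by
    refine ⟨x, ⟨y, hy, ?_⟩, hx⟩
    show p + y = x
    rw [← hxy', sub_add_cancel]
  have heq : convexHull ℝ (K ∪ (p +ᵥ K)) = K + segment ℝ 0 p :=
    Subset.antisymm (hull_sub hK.convex p) (sub_hull K p)
  refine ⟨heq, ?_, hne⟩
  have h1 := hull_le hK.isCompact hK.convex hne
  rw [heq] at h1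
  unfold V
  have h2 := ENNReal.toReal_mono (ENNReal.mul_ne_top ENNReal.ofReal_ne_top
    hK.isCompact.measure_lt_top.ne) h1
  rw [ENNReal.toReal_mul, ENNReal.toReal_ofReal (by positivity)] at h2
  exact h2

end Pool.Agent.H404R2.TH
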