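import Pool.Agent.H404R2.TH.Spec

set_option autoImplicit false

open MeasureTheory Set Pointwise Matrix

namespace Pool.Agent.H404R2.TH

theorem t_KAP : S_KAP := by
  unfold S_KAP kap V
  have hs : (WithLp.toLp 2 : (Fin 3 → ℝ) → EuclideanSpace ℝ (Fin 3)) ⁻¹' (Metric.closedBall 0 1) =
      {x : Fin 3 → ℝ | ∑ i, x i ^ 2 ≤ 1} := by
    ext x
    rw [Set.mem_preimage, mem_closedBall_zero_iff, EuclideanSpace.norm_eq, Set.mem_ofPred_eq,
      Real.sqrt_le_one]
    simp only [Real.norm_eq_abs, sq_abs]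
  have h1 := (PiLp.volume_preserving_toLp (Fin 3)).measure_preimage
    (s := Metric.closedBall (0 : EuclideanSpace ℝ (Fin 3)) 1) measurableSet_closedBall.nullMeasurableSet
  rw [hs] at h1
  rw [h1, EuclideanSpace.volume_closedBall_fin_three]
  have hpi := Real.pi_pos
  rw [ENNReal.ofReal_one, one_pow, one_mul, ENNReal.toReal_ofReal (by positivity)]
  ring

end Pool.Agent.H404R2.TH
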