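import Pool.Agent.H404R2.TH.Spec

set_option autoImplicit false

open MeasureTheory Set Pointwise Matrix

namespace Pool.Agent.H404R2.TH

namespace LBaux

/-- the parametrisation of the symmetric body (helper355) -/
noncomputable def par {n : ℕ} (p : ℝ × (Fin n → ℝ) × (Fin n → ℝ)) : Fin (n + 1) → ℝ :=
  Fin.cons p.1 (((1 + p.1) / 2) • p.2.1 - ((1 - p.1) / 2) • p.2.2)

theorem mem_Lb {n : ℕ} {K : Set (Fin n → ℝ)} {z : Fin (n + 1) → ℝ} :
    z ∈ Lb K ↔ ∃ s : ℝ, (-1 ≤ s ∧ s ≤ 1) ∧ ∃ x ∈ K, ∃ y ∈ K, z = par (s, x, y) := by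
  constructor
  · rintro ⟨s, h1, h2, x, hx, rfl⟩
    obtain ⟨a, ha, b, hb, rfl⟩ := Set.mem_add.1 hx
    obtain ⟨a', ha', rfl⟩ := Set.mem_smul_set.1 ha
    obtain ⟨b', hb', rfl⟩ := Set.mem_smul_set.1 hb
    refine ⟨s, ⟨h1, h2⟩, a', ha', -b', Set.mem_neg.1 hb', ?_⟩
    unfold par
    simp only
    rw [smul_neg, sub_neg_eq_add]
  · rintro ⟨s, ⟨h1, h2⟩, x, hx, y, hy, rfl⟩
    refine ⟨s, h1, h2, ((1 + s) / 2) • x - ((1 - s) / 2) • y, ?_, rfl⟩
    have e : ((1 + s) / 2) • x - ((1 - s) / 2) • y = ((1 + s) / 2) • x + ((1 - s) / 2) • (-y) := by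
      rw [smul_neg, ← sub_eq_add_neg]
    rw [e]
    exact Set.add_mem_add (Set.smul_mem_smul_set hx)
      (Set.smul_mem_smul_set (Set.neg_mem_neg.2 hy))

theorem continuous_par {n : ℕ} : Continuous (par (n := n)) := by
  refine continuous_pi fun i => ?_
  refine Fin.cases ?_ (fun j => ?_) i
  · exact continuous_fst
  · unfold par
    simp only [Fin.cons_succ, Pi.sub_apply, Pi.smul_apply, smul_eq_mul]
    fun_prop

theorem combo {n : ℕ} {K : Set (Fin n → ℝ)} (hK : Convex ℝ K) {x x' : Fin n → ℝ} (hx : x ∈ K)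
    (hx' : x' ∈ K) {α β : ℝ} (hα : 0 ≤ α) (hβ : 0 ≤ β) :
    ∃ X ∈ K, α • x + β • x' = (α + β) • X := by
  have h : α • x + β • x' ∈ (α + β) • K := by
    rw [hK.add_smul hα hβ]
    exact Set.add_mem_add (Set.smul_mem_smul_set hx) (Set.smul_mem_smul_set hx')
  obtain ⟨X, hX, h2⟩ := Set.mem_smul_set.1 h
  exact ⟨X, hX, h2.symm⟩

end LBaux

open LBaux in
theorem t_LB : S_LB := by
  intro n K hK
  have himg : Lb K = par '' (Icc (-1 : ℝ) 1 ×ˢ (K ×ˢ K)) := by
    ext z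
    rw [mem_Lb]
    constructor
    · rintro ⟨s, hs, x, hx, y, hy, rfl⟩
      exact ⟨(s, x, y), ⟨hs, hx, hy⟩, rfl⟩
    · rintro ⟨⟨s, x, y⟩, ⟨hs, hx, hy⟩, rfl⟩
      exact ⟨s, hs, x, hx, y, hy, rfl⟩
  refine ⟨⟨?_, ?_, ?_⟩, ?_⟩
  · rw [himg]
    exact (isCompact_Icc.prod (hK.isCompact.prod hK.isCompact)).image continuous_par
  · intro z hz z' hz' a b ha hb hab
    obtain ⟨s, ⟨h1, h2⟩, x, hx, y, hy, rfl⟩ := mem_Lb.1 hz
    obtain ⟨s', ⟨h1', h2'⟩, x', hx', y', hy', rfl⟩ := mem_Lb.1 hz'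
    have e1 : (0 : ℝ) ≤ a * ((1 + s) / 2) := mul_nonneg ha (by linarith)
    have e2 : (0 : ℝ) ≤ b * ((1 + s') / 2) := mul_nonneg hb (by linarith)
    have e3 : (0 : ℝ) ≤ a * ((1 - s) / 2) := mul_nonneg ha (by linarith)
    have e4 : (0 : ℝ) ≤ b * ((1 - s') / 2) := mul_nonneg hb (by linarith)
    obtain ⟨X, hX, hXe⟩ := combo hK.convex hx hx' e1 e2
    obtain ⟨Y, hY, hYe⟩ := combo hK.convex hy hy' e3 e4
    have hb' : b = 1 - a := by linarith
    refine mem_Lb.2 ⟨a * s + b * s', ⟨?_, ?_⟩, X, hX, Y, hY, ?_⟩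
    · nlinarith
    · nlinarith
    · have g1 : a * ((1 + s) / 2) + b * ((1 + s') / 2) = (1 + (a * s + b * s')) / 2 := by
        rw [hb']; ring
      have g2 : a * ((1 - s) / 2) + b * ((1 - s') / 2) = (1 - (a * s + b * s')) / 2 := by
        rw [hb']; ring
      rw [g1] at hXe
      rw [g2] at hYe
      funext i
      refine Fin.cases ?_ (fun j => ?_) i
      · simp [par]
      · have k1 := congrFun hXe j
        have k2 := congrFun hYe j
        simp only [Pi.add_apply, Pi.smul_apply, smul_eq_mul] at k1 k2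
        simp only [par, Pi.add_apply, Pi.smul_apply, Fin.cons_succ, Pi.sub_apply, smul_eq_mul]
        linarith
  · obtain ⟨c, hc⟩ := hK.interior_nonempty
    obtain ⟨r, hr, hball⟩ := Metric.isOpen_iff.1 isOpen_interior c hc
    have hballK : Metric.ball c r ⊆ K := hball.trans interior_subset
    have hopen : IsOpen {z : Fin (n + 1) → ℝ | |z 0| < 1 ∧
        ‖(fun j : Fin n => z j.succ - z 0 * c j)‖ < r} := by
      refine IsOpen.and ?_ ?_
      · exact isOpen_lt (by fun_prop) continuous_const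
      · exact isOpen_lt (by fun_prop) continuous_const
    have hsub : {z : Fin (n + 1) → ℝ | |z 0| < 1 ∧
        ‖(fun j : Fin n => z j.succ - z 0 * c j)‖ < r} ⊆ Lb K := by
      rintro z ⟨hz0, hz⟩
      set w : Fin n → ℝ := fun j : Fin n => z j.succ - z 0 * c j with hw
      have h0 := abs_lt.1 hz0
      refine mem_Lb.2 ⟨z 0, ⟨h0.1.le, h0.2.le⟩, c + w, hballK ?_, c - w, hballK ?_, ?_⟩
      · rw [Metric.mem_ball, dist_eq_norm, add_sub_cancel_left]
        exact hz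
      · rw [Metric.mem_ball, dist_eq_norm, sub_sub_cancel_left, norm_neg]
        exact hz
      · funext i
        refine Fin.cases ?_ (fun j => ?_) i
        · simp [par]
        · simp only [par, Fin.cons_succ, Pi.add_apply, Pi.sub_apply, Pi.smul_apply, smul_eq_mul,
            hw]
          ring
    refine ⟨0, ?_⟩
    rw [mem_interior]
    refine ⟨_, hsub, hopen, ?_, ?_⟩
    · simp
    · have : (fun j : Fin n => (0 : Fin (n + 1) → ℝ) j.succ - (0 : Fin (n + 1) → ℝ) 0 * c j) =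
          0 := by
        funext j
        simp
      rw [this, norm_zero]
      exact hr
  · intro z hz
    obtain ⟨s, ⟨h1, h2⟩, x, hx, y, hy, rfl⟩ := mem_Lb.1 hz
    refine mem_Lb.2 ⟨-s, ⟨by linarith, by linarith⟩, y, hy, x, hx, ?_⟩
    funext i
    refine Fin.cases ?_ (fun j => ?_) i
    · simp [par]
    · simp only [par, Pi.neg_apply, Fin.cons_succ, Pi.sub_apply, Pi.smul_apply, smul_eq_mul]
      ring

end Pool.Agent.H404R2.TH
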