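import Pool.Agent.H404R2.TH.Spec

set_option autoImplicit false

open MeasureTheory Set Pointwise Matrix

namespace Pool.Agent.H404R2.TH

theorem t_LL (h1 : S_LLD) (h2 : S_LLP) (h3 : S_LLI) (h4 : S_LLC) : S_LL := by
  intro n A hA
  obtain ⟨hZpos, hMpos⟩ := h2 n A hA
  have hmom : ∀ f : (Fin n → ℝ) → ℝ, Continuous f → Continuous (mom A f) := fun f hf =>
    continuous_iff_continuousAt.2 fun x => (h1 n A hA f hf x).continuousAt
  have hZ : ∀ x, HasFDerivAt (Zf A)
      (∑ j, mom A (fun y => y j) x • (ContinuousLinearMap.proj j : (Fin n → ℝ) →L[ℝ] ℝ)) x := by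
    intro x
    have h := h1 n A hA (fun _ => 1) continuous_const x
    simp only [one_mul] at h
    exact h
  have hZc : Continuous (Zf A) := continuous_iff_continuousAt.2 fun x => (hZ x).continuousAt
  have hGc : ∀ i, Continuous fun x => Gf A x i := fun i =>
    (hmom _ (continuous_apply i)).div hZc fun x => (hZpos x).ne'
  refine ⟨fun x => Real.log (Zf A x), Gf A, Mf A, ?_, hMpos, ?_, h3 n A hA, ?_, ?_, h4 n A hA⟩
  · intro x
    rw [hasFDerivAt_pi']
    intro i
    have hi := h1 n A hA (fun y => y i) (continuous_apply i) x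
    have hinv : HasFDerivAt (fun x => (Zf A x)⁻¹) (-(Zf A x ^ 2)⁻¹ •
        ∑ j, mom A (fun y => y j) x • (ContinuousLinearMap.proj j : (Fin n → ℝ) →L[ℝ] ℝ)) x :=
      (hasDerivAt_inv (hZpos x).ne').comp_hasFDerivAt x (hZ x)
    have hm := hi.mul hinv
    have he : (fun x => Gf A x i) = fun x => mom A (fun y => y i) x * (Zf A x)⁻¹ := by
      funext x
      rw [Gf, div_eq_mul_inv]
    rw [he]
    refine hm.congr_fderiv ?_
    ext v
    have hne := (hZpos x).ne'
    simp only [ContinuousLinearMap.add_apply, ContinuousLinearMap.smul_apply,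
      ContinuousLinearMap.sum_apply, ContinuousLinearMap.proj_apply, smul_eq_mul,
      ContinuousLinearMap.comp_apply, LinearMap.coe_toContinuousLinearMap', Matrix.toLin'_apply,
      Matrix.mulVec, dotProduct, Mf, Matrix.of_apply, Gf]
    rw [Finset.mul_sum, Finset.mul_sum, Finset.mul_sum, ← Finset.sum_add_distrib]
    refine Finset.sum_congr rfl fun j _ => ?_
    field_simp
    ring
  · intro i j
    simp only [Mf, Matrix.of_apply]
    exact ((hmom _ ((continuous_apply i).mul (continuous_apply j))).div hZc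
      fun x => (hZpos x).ne').sub ((hGc i).mul (hGc j))
  · intro x v
    have hp : HasDerivAt (fun s : ℝ => x + s • v) v 0 := by
      have := ((hasDerivAt_id (0:ℝ)).smul_const v).const_add x
      simpa using this
    have hZ0 : HasFDerivAt (Zf A) (∑ j, mom A (fun y => y j) x •
        (ContinuousLinearMap.proj j : (Fin n → ℝ) →L[ℝ] ℝ)) (x + (0:ℝ) • v) := by
      rw [zero_smul, add_zero]
      exact hZ x
    have hc := hZ0.comp_hasDerivAt (0:ℝ) hp
    have hl := hc.log (by
      show Zf A (x + (0:ℝ) • v) ≠ 0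
      exact (hZpos _).ne')
    refine hl.congr_deriv ?_
    simp only [ContinuousLinearMap.sum_apply, ContinuousLinearMap.smul_apply,
      ContinuousLinearMap.proj_apply, smul_eq_mul, Function.comp, zero_smul, add_zero, dotProduct,
      Gf]
    rw [Finset.sum_div]
    refine Finset.sum_congr rfl fun j _ => ?_
    ring
  · exact hZc.log fun x => (hZpos x).ne'

end Pool.Agent.H404R2.TH
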