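import Pool.Agent.H404R2.TH.Spec

set_option autoImplicit false

open MeasureTheory Set Pointwise Matrix

namespace Pool.Agent.H404R2.TH

namespace LLCaux

noncomputable def lo {n : ℕ} (a x : Fin n → ℝ) (r : ℝ) : Fin n → ℝ :=
  fun i => if 0 ≤ x i then a i + r / 2 else a i - r

noncomputable def hi {n : ℕ} (a x : Fin n → ℝ) (r : ℝ) : Fin n → ℝ :=
  fun i => if 0 ≤ x i then a i + r else a i - r / 2

theorem lo_le_hi {n : ℕ} (a x : Fin n → ℝ) {r : ℝ} (hr : 0 < r) : lo a x r ≤ hi a x r := by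
  intro i
  unfold lo hi
  split_ifs <;> linarith

theorem hi_sub_lo {n : ℕ} (a x : Fin n → ℝ) (r : ℝ) (i : Fin n) :
    hi a x r i - lo a x r i = r / 2 := by
  unfold lo hi
  split_ifs <;> ring

theorem mem_ball {n : ℕ} (a x : Fin n → ℝ) {r : ℝ} (hr : 0 < r) {y : Fin n → ℝ}
    (hy : y ∈ Icc (lo a x r) (hi a x r)) : y ∈ Metric.closedBall a r := by
  rw [Metric.mem_closedBall, dist_pi_le_iff hr.le]
  intro i
  have h1 := hy.1 i
  have h2 := hy.2 i
  unfold lo at h1
  unfold hi at h2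
  rw [Real.dist_eq, abs_le]
  split_ifs at h1 h2 <;> constructor <;> linarith

theorem dot_ge {n : ℕ} (a x : Fin n → ℝ) {r : ℝ} (hr : 0 < r) {y : Fin n → ℝ}
    (hy : y ∈ Icc (lo a x r) (hi a x r)) : x ⬝ᵥ a + r / 2 * ‖x‖ ≤ x ⬝ᵥ y := by
  have h1 : ∀ i, x i * a i + r / 2 * |x i| ≤ x i * y i := by
    intro i
    have h1 := hy.1 i
    have h2 := hy.2 i
    unfold lo at h1
    unfold hi at h2
    by_cases hx : 0 ≤ x i
    · rw [if_pos hx] at h1
      rw [abs_of_nonneg hx]
      nlinarith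
    · rw [if_neg hx] at h2
      push Not at hx
      rw [abs_of_neg hx]
      nlinarith
  have h2 : ‖x‖ ≤ ∑ i, |x i| := by
    rw [pi_norm_le_iff_of_nonneg (Finset.sum_nonneg fun i _ => abs_nonneg _)]
    intro i
    rw [Real.norm_eq_abs]
    exact Finset.single_le_sum (f := fun i => |x i|) (fun i _ => abs_nonneg _) (Finset.mem_univ i)
  calc x ⬝ᵥ a + r / 2 * ‖x‖ ≤ x ⬝ᵥ a + r / 2 * ∑ i, |x i| := by
        have := mul_le_mul_of_nonneg_left h2 (by positivity : (0 : ℝ) ≤ r / 2)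
        linarith
    _ = ∑ i, (x i * a i + r / 2 * |x i|) := by
        rw [Finset.sum_add_distrib, Finset.mul_sum]
        rfl
    _ ≤ ∑ i, x i * y i := Finset.sum_le_sum fun i _ => h1 i
    _ = x ⬝ᵥ y := rfl

theorem cont_exp {n : ℕ} (x : Fin n → ℝ) : Continuous fun y : Fin n → ℝ => Real.exp (x ⬝ᵥ y) := by
  apply Real.continuous_exp.comp
  unfold dotProduct
  fun_prop

theorem Zf_ge {n : ℕ} {A : Set (Fin n → ℝ)} (hA : CB A) (a x : Fin n → ℝ) {r : ℝ} (hr : 0 < r)
    (hball : Metric.closedBall a r ⊆ A) :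
    (r / 2) ^ n * Real.exp (x ⬝ᵥ a + r / 2 * ‖x‖) ≤ Zf A x := by
  unfold Zf mom
  simp only [one_mul]
  have hQA : Icc (lo a x r) (hi a x r) ⊆ A := fun y hy => hball (mem_ball a x hr hy)
  have hint : IntegrableOn (fun y : Fin n → ℝ => Real.exp (x ⬝ᵥ y)) A :=
    (cont_exp x).continuousOn.integrableOn_compact hA.isCompact
  have h1 : ∫ y in Icc (lo a x r) (hi a x r), Real.exp (x ⬝ᵥ y) ≤ ∫ y in A, Real.exp (x ⬝ᵥ y) := by
    apply setIntegral_mono_set hint
    · exact Filter.Eventually.of_forall fun y => (Real.exp_pos _).le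
    · exact Filter.Eventually.of_forall hQA
  have h2 : ∫ _y in Icc (lo a x r) (hi a x r), Real.exp (x ⬝ᵥ a + r / 2 * ‖x‖) ≤
      ∫ y in Icc (lo a x r) (hi a x r), Real.exp (x ⬝ᵥ y) := by
    apply setIntegral_mono_on
    · exact continuous_const.continuousOn.integrableOn_compact isCompact_Icc
    · exact hint.mono_set hQA
    · exact measurableSet_Icc
    · intro y hy
      exact Real.exp_le_exp.2 (dot_ge a x hr hy)
  refine le_trans (le_of_eq ?_) (h2.trans h1)
  rw [setIntegral_const, smul_eq_mul, measureReal_def, Real.volume_Icc_pi_toReal (lo_le_hi a x hr)]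
  simp only [hi_sub_lo, Finset.prod_const, Finset.card_univ, Fintype.card_fin]

end LLCaux

open LLCaux in
theorem t_LLC : S_LLC := by
  intro n A hA a ha
  obtain ⟨ε, hε, hball⟩ := Metric.mem_nhds_iff.1 (mem_interior_iff_mem_nhds.1 ha)
  have hr : 0 < ε / 2 := by positivity
  have hcb : Metric.closedBall a (ε / 2) ⊆ A :=
    (Metric.closedBall_subset_ball (by linarith)).trans hball
  refine ⟨ε / 2 / 2, by positivity, -(n * Real.log (ε / 2 / 2)), fun x => ?_⟩
  have h := Zf_ge hA a x hr hcb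
  have hpos : 0 < (ε / 2 / 2) ^ n * Real.exp (x ⬝ᵥ a + ε / 2 / 2 * ‖x‖) := by positivity
  have h1 := Real.log_le_log hpos h
  rw [Real.log_mul (by positivity) (Real.exp_pos _).ne', Real.log_pow, Real.log_exp] at h1
  linarith

end Pool.Agent.H404R2.TH
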