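import Pool.Agent.H404R2.TH.Spec

set_option autoImplicit false

open MeasureTheory Set Pointwise Matrix

namespace Pool.Agent.H404R2.TH

namespace LLDaux

/-- dot product with `y` -/
noncomputable def dotL {n : ℕ} (y : Fin n → ℝ) : (Fin n → ℝ) →L[ℝ] ℝ :=
  ∑ i, y i • (ContinuousLinearMap.proj i : (Fin n → ℝ) →L[ℝ] ℝ)

theorem dotL_apply {n : ℕ} (y x : Fin n → ℝ) : dotL y x = x ⬝ᵥ y := by
  simp only [dotL, _root_.sum_apply, _root_.smul_apply,
    ContinuousLinearMap.proj_apply, smul_eq_mul, dotProduct]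
  exact Finset.sum_congr rfl fun i _ => mul_comm _ _

theorem cont_dot {n : ℕ} : Continuous fun p : (Fin n → ℝ) × (Fin n → ℝ) => p.1 ⬝ᵥ p.2 := by
  unfold dotProduct
  fun_prop

/-- the derivative of the integrand -/
noncomputable def F' {n : ℕ} (f : (Fin n → ℝ) → ℝ) (x y : Fin n → ℝ) : (Fin n → ℝ) →L[ℝ] ℝ :=
  ∑ i, (f y * y i * Real.exp (x ⬝ᵥ y)) • (ContinuousLinearMap.proj i : (Fin n → ℝ) →L[ℝ] ℝ)

theorem F'_eq {n : ℕ} (f : (Fin n → ℝ) → ℝ) (x y : Fin n → ℝ) :
    F' f x y = f y • (Real.exp (x ⬝ᵥ y) • dotL y) := by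
  unfold F' dotL
  rw [Finset.smul_sum, Finset.smul_sum]
  refine Finset.sum_congr rfl fun i _ => ?_
  rw [smul_smul, smul_smul]
  congr 1
  ring

theorem cont_F' {n : ℕ} {f : (Fin n → ℝ) → ℝ} (hf : Continuous f) :
    Continuous fun p : (Fin n → ℝ) × (Fin n → ℝ) => F' f p.1 p.2 := by
  unfold F'
  refine continuous_finsetSum _ fun i _ => ?_
  have h1 : Continuous fun p : (Fin n → ℝ) × (Fin n → ℝ) =>
      f p.2 * p.2 i * Real.exp (p.1 ⬝ᵥ p.2) :=
    ((hf.comp continuous_snd).mul ((continuous_apply i).comp continuous_snd)).mul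
      (Real.continuous_exp.comp cont_dot)
  exact h1.smul continuous_const

theorem hasF' {n : ℕ} (f : (Fin n → ℝ) → ℝ) (x y : Fin n → ℝ) :
    HasFDerivAt (fun x => f y * Real.exp (x ⬝ᵥ y)) (F' f x y) x := by
  rw [F'_eq]
  have h1 : HasFDerivAt (fun x : Fin n → ℝ => x ⬝ᵥ y) (dotL y) x := by
    have h2 := (dotL y).hasFDerivAt (x := x)
    refine h2.congr_of_eventuallyEq (Filter.Eventually.of_forall fun z => ?_)
    exact (dotL_apply y z).symm
  exact h1.exp.const_mul (f y)

end LLDaux

open LLDaux in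
theorem t_LLD : S_LLD := by
  intro n A hA f hf x₀
  have hcA := hA.isCompact
  have hmA := hcA.measurableSet
  obtain ⟨C, hC⟩ := ((isCompact_closedBall x₀ 1).prod hcA).exists_bound_of_continuousOn
    (cont_F' hf).continuousOn
  have hcont : ∀ x : Fin n → ℝ, Continuous fun y : Fin n → ℝ => f y * Real.exp (x ⬝ᵥ y) := by
    intro x
    exact hf.mul (Real.continuous_exp.comp (cont_dot.comp (continuous_const.prodMk continuous_id)))
  have hcont' : ∀ x : Fin n → ℝ, Continuous fun y : Fin n → ℝ => F' f x y := by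
    intro x
    exact (cont_F' hf).comp (continuous_const.prodMk continuous_id)
  have hconti : ∀ i, Continuous fun y : Fin n → ℝ => f y * y i * Real.exp (x₀ ⬝ᵥ y) := by
    intro i
    exact (hf.mul (continuous_apply i)).mul
      (Real.continuous_exp.comp (cont_dot.comp (continuous_const.prodMk continuous_id)))
  have key := hasFDerivAt_integral_of_dominated_of_fderiv_le (𝕜 := ℝ)
    (μ := volume.restrict A) (F := fun x y => f y * Real.exp (x ⬝ᵥ y)) (F' := F' f) (x₀ := x₀)
    (s := Metric.ball x₀ 1) (bound := fun _ => C) (Metric.ball_mem_nhds x₀ one_pos)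
    (Filter.Eventually.of_forall fun x => (hcont x).aestronglyMeasurable)
    ((hcont x₀).continuousOn.integrableOn_compact hcA)
    (hcont' x₀).aestronglyMeasurable
    (by
      refine (ae_restrict_iff' hmA).2 (Filter.Eventually.of_forall fun y hy x hx => ?_)
      exact hC (x, y) ⟨Metric.ball_subset_closedBall hx, hy⟩)
    (by
      have : IsFiniteMeasure (volume.restrict A) := ⟨by
        rw [Measure.restrict_apply_univ]
        exact hcA.measure_lt_top⟩
      exact integrable_const C)
    (Filter.Eventually.of_forall fun y x _ => hasF' f x y)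
  have e : ∫ y, F' f x₀ y ∂(volume.restrict A) =
      ∑ i, mom A (fun y => f y * y i) x₀ • (ContinuousLinearMap.proj i : (Fin n → ℝ) →L[ℝ] ℝ) := by
    unfold F'
    rw [integral_finsetSum]
    · refine Finset.sum_congr rfl fun i _ => ?_
      rw [integral_smul_const]
      rfl
    · intro i _
      exact ((hconti i).continuousOn.integrableOn_compact hcA).smul_const _
  rw [e] at key
  exact key

end Pool.Agent.H404R2.TH
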