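import Pool.Agent.H404R2.TH.Spec

set_option autoImplicit false

open MeasureTheory Set Pointwise Matrix

namespace Pool.Agent.H404R2.TH

/-- The tilted barycentre of a convex body is an interior point. -/
theorem t_LLI : S_LLI := by
  intro n A hA x
  have hcont : Continuous fun y : Fin n → ℝ => Real.exp (x ⬝ᵥ y) := by
    refine Real.continuous_exp.comp ?_
    unfold dotProduct
    fun_prop
  have hρm : Measurable fun y : Fin n → ℝ => ENNReal.ofReal (Real.exp (x ⬝ᵥ y)) :=
    hcont.measurable.ennreal_ofReal
  obtain ⟨μ, hμ⟩ : ∃ μ : Measure (Fin n → ℝ), μ = (volume.restrict A).withDensity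
    (fun y => ENNReal.ofReal (Real.exp (x ⬝ᵥ y))) := ⟨_, rfl⟩
  have hfin : IsFiniteMeasure μ := by
    rw [hμ]
    exact isFiniteMeasure_withDensity_ofReal
      (hcont.continuousOn.integrableOn_compact hA.isCompact).2
  have hmom : ∀ g : (Fin n → ℝ) → ℝ, ∫ y, g y ∂μ = mom A g x := by
    intro g
    rw [hμ, integral_withDensity_eq_integral_toReal_smul hρm
      (Filter.Eventually.of_forall fun y => ENNReal.ofReal_lt_top)]
    unfold mom
    congr 1
    funext y
    rw [ENNReal.toReal_ofReal (Real.exp_pos _).le, smul_eq_mul, mul_comm]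
  have hae : ∀ᵐ y ∂μ, y ∈ A := by
    rw [hμ]
    exact (withDensity_absolutelyContinuous _ _).ae_le
      (ae_restrict_mem hA.isCompact.measurableSet)
  obtain ⟨C, hC⟩ := hA.isCompact.isBounded.exists_norm_le
  have hid : Integrable (fun y : Fin n → ℝ => y) μ :=
    Integrable.of_bound continuous_id.aestronglyMeasurable C (hae.mono fun y hy => hC y hy)
  obtain ⟨a, ha⟩ := hA.interior_nonempty
  obtain ⟨r, hr, hball⟩ := Metric.nhds_basis_closedBall.mem_iff.1 (isOpen_interior.mem_nhds ha)
  have h0 : μ (Metric.closedBall a r) ≠ 0 := by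
    rw [hμ]
    intro h
    rw [withDensity_apply_eq_zero hρm] at h
    have hu : {y : Fin n → ℝ | ENNReal.ofReal (Real.exp (x ⬝ᵥ y)) ≠ 0} ∩ Metric.closedBall a r =
        Metric.closedBall a r := by
      refine inter_eq_right.2 fun y _ => ?_
      simp [Real.exp_pos]
    rw [hu, Measure.restrict_apply measurableSet_closedBall,
      inter_eq_left.2 (hball.trans interior_subset)] at h
    exact (Metric.measure_closedBall_pos volume a hr).ne' h
  have ht : (⨍ y in Metric.closedBall a r, y ∂μ) ∈ interior A :=
    hball ((convex_closedBall a r).set_average_mem Metric.isClosed_closedBall h0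
      (measure_ne_top _ _) (ae_restrict_mem measurableSet_closedBall) hid.integrableOn)
  have hav := hA.convex.average_mem_interior_of_set h0 hae hid ht
  have hreal : μ.real univ = Zf A x := by
    have h1 := hmom (fun _ => 1)
    rw [integral_const, smul_eq_mul, mul_one] at h1
    exact h1
  have heq : (⨍ y, y ∂μ) = Gf A x := by
    funext i
    rw [average_eq, Pi.smul_apply, eval_integral (fun i => hid.eval i) i, hreal, hmom, smul_eq_mul]
    unfold Gf
    rw [div_eq_inv_mul]
  rw [heq] at hav
  exact hav

end Pool.Agent.H404R2.TH
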