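import Pool.Agent.H404R2.TH.Spec

set_option autoImplicit false

open MeasureTheory Set Pointwise Matrix

namespace Pool.Agent.H404R2.TH

namespace LPOLaux

/-- dilated polar of the difference body -/
def Q {n : ℕ} (K : Set (Fin n → ℝ)) (r : ℝ) : Set (Fin n → ℝ) := {y | ∀ z ∈ K - K, z ⬝ᵥ y ≤ r}

/-- the polar of `Lb K` in the coordinates `(σ, y)` -/
def S1 {n : ℕ} (K : Set (Fin n → ℝ)) : Set (ℝ × (Fin n → ℝ)) :=
  {p | ∀ k ∈ K, p.1 + k ⬝ᵥ p.2 ≤ 1 ∧ -1 ≤ p.1 + k ⬝ᵥ p.2}

/-- the region above the norm -/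
def S2 {n : ℕ} (K : Set (Fin n → ℝ)) : Set (ℝ × (Fin n → ℝ)) :=
  {p | p.2 ∈ Q K p.1 ∧ p.1 ≤ 2}

theorem cont_dot {n : ℕ} (k : Fin n → ℝ) : Continuous fun y : Fin n → ℝ => k ⬝ᵥ y := by
  unfold dotProduct
  fun_prop

theorem cont_dot' {n : ℕ} (y : Fin n → ℝ) : Continuous fun k : Fin n → ℝ => k ⬝ᵥ y := by
  unfold dotProduct
  fun_prop

theorem closed_S1 {n : ℕ} (K : Set (Fin n → ℝ)) : IsClosed (S1 K) := by
  have : S1 K = ⋂ k ∈ K, {p : ℝ × (Fin n → ℝ) | p.1 + k ⬝ᵥ p.2 ≤ 1 ∧ -1 ≤ p.1 + k ⬝ᵥ p.2} := by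
    ext p; simp [S1]
  rw [this]
  refine isClosed_biInter fun k _ => ?_
  have hc : Continuous fun p : ℝ × (Fin n → ℝ) => p.1 + k ⬝ᵥ p.2 :=
    continuous_fst.add ((cont_dot k).comp continuous_snd)
  exact (isClosed_le hc continuous_const).inter (isClosed_le continuous_const hc)

theorem closed_S2 {n : ℕ} (K : Set (Fin n → ℝ)) : IsClosed (S2 K) := by
  have : S2 K = (⋂ z ∈ K - K, {p : ℝ × (Fin n → ℝ) | z ⬝ᵥ p.2 ≤ p.1}) ∩ {p | p.1 ≤ 2} := by
    ext p; simp only [S2, Q, mem_setOf_eq, mem_inter_iff, mem_iInter]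
  rw [this]
  refine IsClosed.inter (isClosed_biInter fun z _ => ?_) (isClosed_le continuous_fst continuous_const)
  exact isClosed_le ((cont_dot z).comp continuous_snd) continuous_fst

theorem pol_Lb {n : ℕ} (K : Set (Fin n → ℝ)) (hne : K.Nonempty) :
    pol (Lb K) = (MeasurableEquiv.piFinSuccAbove (fun _ : Fin (n + 1) => ℝ) 0) ⁻¹' (S1 K) := by
  have hdot : ∀ (s : ℝ) (x : Fin n → ℝ) (z : Fin (n + 1) → ℝ),
      (Fin.cons s x : Fin (n + 1) → ℝ) ⬝ᵥ z = s * z 0 + x ⬝ᵥ (fun j => z j.succ) := by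
    intro s x z
    simp [dotProduct, Fin.sum_univ_succ]
  ext z
  have he : (MeasurableEquiv.piFinSuccAbove (fun _ : Fin (n + 1) => ℝ) 0) z
      = (z 0, fun j => z j.succ) := by
    rfl
  rw [mem_preimage, he]
  simp only [S1, pol, mem_setOf_eq]
  constructor
  · intro h k hk
    constructor
    · have h1 : (Fin.cons 1 k : Fin (n + 1) → ℝ) ∈ Lb K := by
        refine ⟨1, by norm_num, le_rfl, k, ?_, rfl⟩
        refine ⟨k, ?_, 0, ?_, by simp⟩
        · norm_num; exact hk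
        · norm_num
          rw [zero_smul_set (by simpa using hne)]
          rfl
      have := h _ h1
      rw [hdot] at this
      linarith
    · have h1 : (Fin.cons (-1) (-k) : Fin (n + 1) → ℝ) ∈ Lb K := by
        refine ⟨-1, le_rfl, by norm_num, -k, ?_, rfl⟩
        refine ⟨0, ?_, -k, ?_, by simp⟩
        · norm_num
          rw [zero_smul_set hne]
          rfl
        · norm_num; exact hk
      have := h _ h1
      rw [hdot, neg_dotProduct] at this
      linarith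
  · intro h x hx
    obtain ⟨s, hs1, hs2, x', hx', rfl⟩ := hx
    obtain ⟨u, hu, v, hv, rfl⟩ := hx'
    obtain ⟨k, hk, rfl⟩ := hu
    obtain ⟨w, hw, rfl⟩ := hv
    have h1 := (h k hk).1
    have h2 := (h (-w) (by simpa using hw)).2
    rw [neg_dotProduct] at h2
    rw [hdot]
    simp only [add_dotProduct, smul_dotProduct, smul_eq_mul]
    have h3 : 0 ≤ (1 + s) / 2 := by linarith
    have h4 : 0 ≤ (1 - s) / 2 := by linarith
    nlinarith

theorem Q_smul {n : ℕ} (K : Set (Fin n → ℝ)) {r : ℝ} (hr : 0 < r) : Q K r = r • Q K 1 := by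
  ext y
  rw [mem_smul_set_iff_inv_smul_mem₀ hr.ne']
  simp only [Q, mem_setOf_eq]
  refine forall₂_congr fun z _ => ?_
  rw [dotProduct_smul, smul_eq_mul, inv_mul_le_iff₀ hr, mul_one]

theorem Q_neg {n : ℕ} (K : Set (Fin n → ℝ)) (hne : K.Nonempty) {r : ℝ} (hr : r < 0) :
    Q K r = ∅ := by
  ext y
  simp only [Q, mem_setOf_eq, mem_empty_iff_false, iff_false]
  intro h
  obtain ⟨k, hk⟩ := hne
  have := h (k - k) (sub_mem_sub hk hk)
  simp at this
  linarith

theorem sections {n : ℕ} (K : Set (Fin n → ℝ)) (hK : IsCompact K) (hne : K.Nonempty)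
    (y : Fin n → ℝ) : volume ((fun σ : ℝ => (σ, y)) ⁻¹' S1 K) = volume ((fun r : ℝ => (r, y)) ⁻¹' S2 K) := by
  obtain ⟨k1, hk1, h1⟩ := hK.exists_isMaxOn hne (cont_dot' y).continuousOn
  obtain ⟨k2, hk2, h2⟩ := hK.exists_isMinOn hne (cont_dot' y).continuousOn
  have h1' : ∀ k ∈ K, k ⬝ᵥ y ≤ k1 ⬝ᵥ y := fun k hk => h1 hk
  have h2' : ∀ k ∈ K, k2 ⬝ᵥ y ≤ k ⬝ᵥ y := fun k hk => h2 hk
  have e1 : (fun σ : ℝ => (σ, y)) ⁻¹' S1 K = Icc (-1 - k2 ⬝ᵥ y) (1 - k1 ⬝ᵥ y) := by
    ext σ
    simp only [S1, mem_preimage, mem_setOf_eq, mem_Icc]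
    constructor
    · intro h
      have := (h k1 hk1).1
      have := (h k2 hk2).2
      constructor <;> linarith
    · rintro ⟨h3, h4⟩ k hk
      have := h1' k hk
      have := h2' k hk
      constructor <;> linarith
  have e2 : (fun r : ℝ => (r, y)) ⁻¹' S2 K = Icc (k1 ⬝ᵥ y - k2 ⬝ᵥ y) 2 := by
    ext r
    simp only [S2, Q, mem_preimage, mem_setOf_eq, mem_Icc]
    constructor
    · rintro ⟨h3, h4⟩
      refine ⟨?_, h4⟩
      have := h3 (k1 - k2) (sub_mem_sub hk1 hk2)
      rw [sub_dotProduct] at this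
      exact this
    · rintro ⟨h3, h4⟩
      refine ⟨?_, h4⟩
      intro z hz
      obtain ⟨a, ha, b, hb, rfl⟩ := hz
      simp only [sub_dotProduct]
      have := h1' a ha
      have := h2' b hb
      linarith
  rw [e1, e2, Real.volume_Icc, Real.volume_Icc]
  congr 1
  ring

theorem vol_S2 {n : ℕ} (K : Set (Fin n → ℝ)) (hne : K.Nonempty) :
    volume (S2 K) = ENNReal.ofReal (2 ^ (n + 1) / (n + 1)) * volume (Q K 1) := by
  have h1 : volume (S2 K) = ∫⁻ r : ℝ, volume (Prod.mk r ⁻¹' S2 K) := by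
    rw [Measure.volume_eq_prod, Measure.prod_apply (closed_S2 K).measurableSet]
  rw [h1]
  have h2 : (fun r : ℝ => volume (Prod.mk r ⁻¹' S2 K)) =ᵐ[volume]
      (Ioc (0 : ℝ) 2).indicator fun r => ENNReal.ofReal (r ^ n) * volume (Q K 1) := by
    have h0 : ∀ᵐ r : ℝ, r ≠ 0 := by
      rw [ae_iff]
      simp
    filter_upwards [h0] with r hr0
    have e : Prod.mk r ⁻¹' S2 K = {y | y ∈ Q K r ∧ r ≤ 2} := rfl
    rw [e]
    by_cases hr : r ∈ Ioc (0 : ℝ) 2
    · rw [indicator_of_mem hr]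
      have e2 : {y | y ∈ Q K r ∧ r ≤ 2} = r • Q K 1 := by
        rw [← Q_smul K hr.1]
        ext y
        simp [hr.2]
      rw [e2, Measure.addHaar_smul]
      simp only [Module.finrank_fin_fun]
      rw [abs_of_nonneg (pow_nonneg hr.1.le n)]
    · rw [indicator_of_notMem hr]
      have e2 : {y | y ∈ Q K r ∧ r ≤ 2} = ∅ := by
        ext y
        simp only [mem_setOf_eq, mem_empty_iff_false, iff_false, not_and, not_le]
        intro hy
        by_contra h2
        rcases lt_or_gt_of_ne hr0 with h | h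
        · rw [Q_neg K hne h] at hy
          exact hy
        · exact hr ⟨h, not_lt.1 h2⟩
      rw [e2, measure_empty]
  rw [lintegral_congr_ae h2, lintegral_indicator measurableSet_Ioc,
    lintegral_mul_const _ (by fun_prop)]
  congr 1
  rw [← ofReal_integral_eq_lintegral_ofReal]
  · congr 1
    rw [← intervalIntegral.integral_of_le (by norm_num), integral_pow]
    simp
  · exact (continuous_pow n).integrableOn_Ioc
  · rw [Filter.EventuallyLE, ae_restrict_iff' measurableSet_Ioc]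
    exact Filter.Eventually.of_forall fun r hr => pow_nonneg hr.1.le n

end LPOLaux

open LPOLaux in
theorem t_LPOL : S_LPOL := by
  intro n K hK
  have hne : K.Nonempty := hK.interior_nonempty.mono interior_subset
  have h1 : volume (pol (Lb K)) = volume (S1 K) := by
    rw [pol_Lb K hne]
    exact (volume_preserving_piFinSuccAbove (fun _ : Fin (n + 1) => ℝ) 0).measure_preimage_equiv _
  have h2 : volume (S1 K) = volume (S2 K) := by
    rw [Measure.volume_eq_prod, Measure.prod_apply_symm (closed_S1 K).measurableSet,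
      Measure.prod_apply_symm (closed_S2 K).measurableSet]
    exact lintegral_congr fun y => sections K hK.isCompact hne y
  have h3 : pol (K - K) = Q K 1 := rfl
  unfold V
  rw [h1, h2, vol_S2 K hne, ENNReal.toReal_mul, ENNReal.toReal_ofReal (by positivity), h3]

end Pool.Agent.H404R2.TH
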