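import Pool.Agent.H404R2.TH.Spec

set_option autoImplicit false

open MeasureTheory Set Pointwise Matrix

namespace Pool.Agent.H404R2.TH

namespace LVOLaux

lemma isCompact_Lb {n : ℕ} {K : Set (Fin n → ℝ)} (hK : IsCompact K) : IsCompact (Lb K) := by
  have h : Lb K = (fun p : ℝ × (Fin n → ℝ) × (Fin n → ℝ) =>
      (Fin.cons p.1 (((1 + p.1) / 2) • p.2.1 + ((1 - p.1) / 2) • (-p.2.2)) : Fin (n + 1) → ℝ)) ''
      (Icc (-1 : ℝ) 1 ×ˢ K ×ˢ K) := by
    ext z
    constructor
    · rintro ⟨s, h1, h2, x, hx, rfl⟩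
      obtain ⟨u, hu, w, hw, rfl⟩ := Set.mem_add.1 hx
      obtain ⟨u', hu', rfl⟩ := Set.mem_smul_set.1 hu
      obtain ⟨w', hw', rfl⟩ := Set.mem_smul_set.1 hw
      refine ⟨(s, u', -w'), ⟨⟨h1, h2⟩, hu', ?_⟩, ?_⟩
      · simpa using hw'
      · simp
    · rintro ⟨⟨s, u, w⟩, ⟨⟨h1, h2⟩, hu, hw⟩, rfl⟩
      refine ⟨s, h1, h2, _, ?_, rfl⟩
      exact Set.add_mem_add (Set.smul_mem_smul_set hu)
        (Set.smul_mem_smul_set (by simpa using hw))
  rw [h]
  refine (isCompact_Icc.prod (hK.prod hK)).image ?_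
  refine continuous_pi (fun i => ?_)
  refine Fin.cases ?_ (fun j => ?_) i
  · simpa using continuous_fst
  · simp only [Fin.cons_succ, Pi.add_apply, Pi.smul_apply, Pi.neg_apply]
    fun_prop

lemma slice {n : ℕ} {K : Set (Fin n → ℝ)} (s : ℝ) :
    {x : Fin n → ℝ | (Fin.cons s x : Fin (n + 1) → ℝ) ∈ Lb K} =
      if -1 ≤ s ∧ s ≤ 1 then ((1 + s) / 2) • K + ((1 - s) / 2) • (-K) else ∅ := by
  ext x
  simp only [Lb, mem_ofPred_eq]
  split_ifs with h
  · constructor
    · rintro ⟨s', -, -, x', hx', he⟩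
      have h1 : s = s' := by simpa using congrFun he 0
      have h2 : x = x' := by
        ext i
        simpa using congrFun he i.succ
      rw [h1, h2]
      exact hx'
    · intro hx
      exact ⟨s, h.1, h.2, x, hx, rfl⟩
  · simp only [mem_empty_iff_false, iff_false]
    rintro ⟨s', h1, h2, x', hx', he⟩
    have h3 : s = s' := by simpa using congrFun he 0
    exact h (h3 ▸ ⟨h1, h2⟩)

lemma vol_fib {n : ℕ} {A : Set (Fin (n + 1) → ℝ)} (hA : MeasurableSet A) :
    volume A = ∫⁻ s : ℝ, volume {x : Fin n → ℝ | (Fin.cons s x : Fin (n + 1) → ℝ) ∈ A} := by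
  have h := (volume_preserving_piFinSuccAbove (fun _ : Fin (n + 1) => ℝ) 0).symm
  rw [← h.measure_preimage_equiv A, Measure.volume_eq_prod,
    Measure.prod_apply (h.measurable hA)]
  refine lintegral_congr (fun s => ?_)
  congr 1
  ext x
  simp only [mem_preimage, mem_ofPred_eq]
  have : (MeasurableEquiv.piFinSuccAbove (fun _ : Fin (n + 1) => ℝ) 0).symm (s, x) =
      (Fin.cons s x : Fin (n + 1) → ℝ) := by
    change Fin.insertNth (α := fun _ => ℝ) 0 s x = _
    rw [Fin.insertNth_zero']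
  rw [this]

end LVOLaux

open LVOLaux

theorem t_LVOL : S_LVOL := by
  intro K hK c hc
  have hcpt := isCompact_Lb hK.isCompact
  set f : ℝ → ℝ := fun s => V K * (((1 + s) / 2) ^ 3 + ((1 - s) / 2) ^ 3) +
    c * (((1 + s) / 2) * ((1 - s) / 2)) with hf
  have hslV : ∀ s : ℝ, -1 < s → s ≤ 1 →
      volume (((1 + s) / 2) • K + ((1 - s) / 2) • (-K)) = ENNReal.ofReal (f s) := by
    intro s h1 h2
    have ha : 0 < (1 + s) / 2 := by linarith
    have hb : 0 ≤ (1 - s) / 2 := by linarith
    set a := (1 + s) / 2 with hadef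
    set b := (1 - s) / 2 with hbdef
    have hab : a + b = 1 := by rw [hadef, hbdef]; ring
    have e1 : a • K + b • (-K) = a • (K + (b / a) • (-K)) := by
      rw [smul_add, smul_smul, mul_div_cancel₀ b ha.ne']
    have hcp : IsCompact (K + (b / a) • (-K)) := hK.isCompact.add (hK.isCompact.neg.smul _)
    rw [e1, Measure.addHaar_smul, Module.finrank_fin_fun, abs_of_nonneg (by positivity),
      ← ENNReal.ofReal_toReal hcp.measure_lt_top.ne, ← ENNReal.ofReal_mul (by positivity)]
    congr 1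
    have := hc (b / a) (by positivity)
    unfold V at this
    rw [this]
    have h4 : f s = (volume K).toReal * (a ^ 3 + b ^ 3) + c * (a * b) := rfl
    have h3 : c * (a * b) = c * (a * b * (a + b)) := by rw [hab, mul_one]
    rw [h4, h3]
    field_simp
  have hfn : ∀ s : ℝ, -1 < s → s ≤ 1 → 0 ≤ f s := by
    intro s h1 h2
    have ha : 0 < (1 + s) / 2 := by linarith
    have hb : 0 ≤ (1 - s) / 2 := by linarith
    have := hc (((1 - s) / 2) / ((1 + s) / 2)) (by positivity)
    have h0 : 0 ≤ V (K + (((1 - s) / 2) / ((1 + s) / 2)) • (-K)) := ENNReal.toReal_nonneg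
    rw [this] at h0
    have h3 := mul_nonneg (pow_nonneg ha.le 3) h0
    set a := (1 + s) / 2 with hadef
    set b := (1 - s) / 2 with hbdef
    have hab : a + b = 1 := by rw [hadef, hbdef]; ring
    have h4 : f s = a ^ 3 * (V K * (1 + (b / a) ^ 3) + c * (b / a + (b / a) ^ 2)) := by
      have h5 : f s = V K * (a ^ 3 + b ^ 3) + c * (a * b) := rfl
      have h3 : c * (a * b) = c * (a * b * (a + b)) := by rw [hab, mul_one]
      rw [h5, h3]
      field_simp
    rw [h4]
    exact h3
  have hfc : Continuous f := by simp only [hf]; fun_prop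
  have hvol : volume (Lb K) = ∫⁻ s in Ioc (-1 : ℝ) 1, ENNReal.ofReal (f s) := by
    rw [vol_fib hcpt.measurableSet, ← lintegral_indicator measurableSet_Ioc]
    refine lintegral_congr_ae ?_
    have hne : ∀ᵐ s : ℝ, s ≠ -1 := by
      rw [ae_iff]
      simp
    filter_upwards [hne] with s hs
    rw [slice]
    by_cases h : s ∈ Ioc (-1 : ℝ) 1
    · rw [indicator_of_mem h, if_pos ⟨h.1.le, h.2⟩, hslV s h.1 h.2]
    · rw [indicator_of_notMem h, if_neg, measure_empty]
      rintro ⟨h1, h2⟩
      exact h ⟨lt_of_le_of_ne h1 (Ne.symm hs), h2⟩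
  have hint : ∫ s in (-1 : ℝ)..1, f s = V K + c / 3 := by
    have e : ∀ s : ℝ, f s = (V K / 4 + c / 4) + (3 * V K / 4 - c / 4) * s ^ 2 := by
      intro s
      simp only [hf]
      ring
    simp_rw [e]
    rw [intervalIntegral.integral_add (by simp) (by
      apply Continuous.intervalIntegrable; fun_prop), intervalIntegral.integral_const,
      intervalIntegral.integral_const_mul, integral_pow]
    norm_num
    ring
  unfold V at hint ⊢
  rw [hvol, ← ofReal_integral_eq_lintegral_ofReal, ← intervalIntegral.integral_of_le (by norm_num),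
    hint, ENNReal.toReal_ofReal]
  · rw [← hint, intervalIntegral.integral_of_le (by norm_num)]
    exact setIntegral_nonneg measurableSet_Ioc fun s hs => hfn s hs.1 hs.2
  · exact (hfc.integrableOn_Icc).mono_set Ioc_subset_Icc_self
  · refine (ae_restrict_iff' measurableSet_Ioc).2 (Filter.Eventually.of_forall fun s hs => ?_)
    exact hfn s hs.1 hs.2

end Pool.Agent.H404R2.TH
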