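import Pool.Agent.H404R2.TH.Spec

set_option autoImplicit false

open MeasureTheory Set Pointwise Matrix

namespace Pool.Agent.H404R2.TH

namespace MAINaux

lemma cb_neg {n : ℕ} {K : Set (Fin n → ℝ)} (hK : CB K) : CB (-K) := by
  refine ⟨hK.isCompact.neg, hK.convex.neg, ?_⟩
  obtain ⟨x, hx⟩ := hK.interior_nonempty
  refine ⟨-x, ?_⟩
  have h := (Homeomorph.neg (Fin n → ℝ)).preimage_interior K
  have h2 : (Homeomorph.neg (Fin n → ℝ)) ⁻¹' K = -K := rfl
  rw [h2] at h
  rw [← h]
  simpa using hx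

lemma V_neg {n : ℕ} (S : Set (Fin n → ℝ)) : V (-S) = V S := by
  unfold V
  have : (volume : Measure (Fin n → ℝ)) (-S) = volume S := Measure.measure_neg volume S
  rw [this]

lemma V_smul {n : ℕ} (t : ℝ) (ht : 0 ≤ t) (S : Set (Fin n → ℝ)) : V (t • S) = t ^ n * V S := by
  unfold V
  rw [Measure.addHaar_smul, ENNReal.toReal_mul, ENNReal.toReal_ofReal (abs_nonneg _)]
  simp [abs_of_nonneg (pow_nonneg ht n)]

lemma symm (K : Set (Fin 3 → ℝ)) (t : ℝ) (ht : 0 < t) :
    V (K + t • (-K)) = t ^ 3 * V (K + t⁻¹ • (-K)) := by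
  have h1 : -(K + t • (-K)) = t • (K + t⁻¹ • (-K)) := by
    rw [smul_add, smul_smul, mul_inv_cancel₀ ht.ne', one_smul, neg_add, smul_set_neg, neg_neg,
      add_comm]
  rw [← V_neg (K + t • (-K)), h1, V_smul t ht.le]

end MAINaux

open MAINaux in
theorem t_MAIN (h1 : S_POLY) (h2 : S_AUE) (h3 : S_DER) (h4 : S_HULL) : S_MAIN := by
  intro K hK
  have hnK : CB (-K) := cb_neg hK
  obtain ⟨P, hPd, hP⟩ := h1 3 K (-K) hK hnK
  have hne : K.Nonempty := hK.interior_nonempty.mono interior_subset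
  have hPe : ∀ t : ℝ, P.eval t = P.coeff 0 + P.coeff 1 * t + P.coeff 2 * t ^ 2
      + P.coeff 3 * t ^ 3 := by
    intro t
    rw [Polynomial.eval_eq_sum_range' (n := 4) (by omega)]
    simp [Finset.sum_range_succ]
  have h0 : P.coeff 0 = V K := by
    have := hP 0 le_rfl
    rw [hPe, zero_smul_set hne.neg, add_zero] at this
    simpa using this.symm
  have hs : ∀ t : ℝ, 0 < t → P.eval t = t ^ 3 * P.eval t⁻¹ := by
    intro t ht
    rw [← hP t ht.le, ← hP t⁻¹ (inv_pos.2 ht).le]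
    exact symm K t ht
  have e2 := hs 2 (by norm_num)
  have e3 := hs 3 (by norm_num)
  rw [hPe, hPe] at e2 e3
  have h30 : P.coeff 3 = P.coeff 0 := by linarith
  have h21 : P.coeff 2 = P.coeff 1 := by linarith
  have hpoly : ∀ t : ℝ, 0 ≤ t →
      V (K + t • (-K)) = V K * (1 + t ^ 3) + P.coeff 1 * (t + t ^ 2) := by
    intro t ht
    rw [hP t ht, hPe, h30, h21, h0]; ring
  obtain ⟨a, v, hv, hbox⟩ := h2 3 K hK
  have hbox' : InBox (-K) (-a - ∑ i, v i) v := by
    intro x hx
    obtain ⟨s, hs01, hsx⟩ := hbox (-x) hx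
    refine ⟨fun i => 1 - s i, fun i => ⟨by linarith [(hs01 i).2], by linarith [(hs01 i).1]⟩, ?_⟩
    have : x = -(a + ∑ i, s i • v i) := by rw [← hsx, neg_neg]
    rw [this]
    simp only [sub_smul, one_smul, Finset.sum_sub_distrib]
    abel
  obtain ⟨i0, hi0⟩ := Finite.exists_max fun i => V (K + segment ℝ 0 (v i))
  set W := V (K + segment ℝ 0 (v i0)) - V K with hW
  obtain ⟨hh1, hh2, -⟩ := h4 2 K hK (v i0) (hv i0)
  have hd := h3 3 K (-K) hK hnK.isCompact _ v hbox' W (fun i => by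
    have := hi0 i
    linarith)
  refine ⟨P.coeff 1, v i0, hv i0, hpoly, ?_, ?_⟩
  · rw [hh1, ← hW]
    by_contra hcon
    push Not at hcon
    set c := P.coeff 1
    set ε := (c - 3 * W) / 2 with hε
    have hεpos : 0 < ε := by rw [hε]; linarith
    obtain ⟨δ, hδ, hall⟩ := hd ε hεpos
    have hc1 : 0 < |c| + 1 := by positivity
    set t := min (δ / 2) (ε / (|c| + 1)) with ht
    have htpos : 0 < t := lt_min (by linarith) (by positivity)
    have htδ : t < δ := lt_of_le_of_lt (min_le_left _ _) (by linarith)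
    have htc : t * (|c| + 1) ≤ ε := by
      have : t ≤ ε / (|c| + 1) := min_le_right _ _
      rwa [le_div_iff₀ hc1] at this
    have h := hall t htpos htδ
    rw [hpoly t htpos.le] at h
    have hVK : 0 ≤ V K := ENNReal.toReal_nonneg
    push_cast at h
    have h' : t * (V K * t ^ 2 + c * (1 + t)) ≤ t * (3 * W + ε) := by nlinarith
    have h'' : V K * t ^ 2 + c * (1 + t) ≤ 3 * W + ε := le_of_mul_le_mul_left h' htpos
    have h5 : 0 ≤ V K * t ^ 2 := by positivity
    have h6 : -(|c| * t) ≤ c * t := by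
      have := neg_abs_le c
      nlinarith
    nlinarith
  · rw [hh1]
    have h := hh2
    norm_num at h
    linarith

end Pool.Agent.H404R2.TH
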