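import Pool.Agent.H404R2.TH.Spec

set_option autoImplicit false

open MeasureTheory Set Pointwise Matrix

namespace Pool.Agent.H404R2.TH

namespace MAXaux

variable {d : ℕ}

theorem hull_eq {K : Set (Fin d → ℝ)} (hK : Convex ℝ K) (q : Fin d → ℝ) :
    convexHull ℝ (K ∪ (q +ᵥ K)) = K + segment ℝ 0 q := by
  apply subset_antisymm
  · apply convexHull_min
    · rintro x (hx | hx)
      · exact ⟨x, hx, 0, left_mem_segment ℝ 0 q, by simp⟩
      · obtain ⟨k, hk, rfl⟩ := hx
        exact ⟨k, hk, q, right_mem_segment ℝ 0 q, by simp [add_comm]⟩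
    · exact hK.add (convex_segment 0 q)
  · rintro x ⟨k, hk, y, ⟨a, b, ha, hb, hab, rfl⟩, rfl⟩
    have h1 : k ∈ convexHull ℝ (K ∪ (q +ᵥ K)) := subset_convexHull ℝ _ (Or.inl hk)
    have h2 : q + k ∈ convexHull ℝ (K ∪ (q +ᵥ K)) :=
      subset_convexHull ℝ _ (Or.inr ⟨k, hk, rfl⟩)
    have h3 := (convex_convexHull ℝ (K ∪ (q +ᵥ K))) h1 h2 ha hb hab
    have h4 : k + (a • (0 : Fin d → ℝ) + b • q) = a • k + b • (q + k) := by
      have : a • k + b • k = k := by rw [← add_smul, hab, one_smul]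
      rw [smul_zero, zero_add, smul_add]
      nth_rewrite 1 [← this]
      abel
    change k + (a • (0 : Fin d → ℝ) + b • q) ∈ _
    rw [h4]
    exact h3

theorem hull_compact {K : Set (Fin d → ℝ)} (hK : CB K) (q : Fin d → ℝ) :
    IsCompact (convexHull ℝ (K ∪ (q +ᵥ K))) := by
  rw [hull_eq hK.convex]
  have h : IsCompact (segment ℝ (0 : Fin d → ℝ) q) := by
    rw [segment_eq_image ℝ (0 : Fin d → ℝ) q]
    exact isCompact_Icc.image (by fun_prop)
  exact hK.isCompact.add h

theorem usc {K : Set (Fin d → ℝ)} (hK : CB K) (s : Set (Fin d → ℝ)) :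
    UpperSemicontinuousOn (fun q : Fin d → ℝ => volume (convexHull ℝ (K ∪ (q +ᵥ K)))) s := by
  intro q _ y hy
  apply Filter.Eventually.filter_mono nhdsWithin_le_nhds
  have h1 := tendsto_measure_cthickening_of_isCompact (μ := (volume : Measure (Fin d → ℝ)))
    (hull_compact hK q)
  have h2 : ∀ᶠ r : ℝ in nhds 0, volume (Metric.cthickening r (convexHull ℝ (K ∪ (q +ᵥ K)))) < y :=
    h1.eventually_lt_const hy
  obtain ⟨ε, hε, hr⟩ := Metric.eventually_nhds_iff.mp h2
  have h3 := hr (y := ε / 2) (by rw [Real.dist_eq, sub_zero, abs_of_pos (by positivity)]; linarith)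
  filter_upwards [Metric.ball_mem_nhds q (half_pos hε)] with p hp
  refine lt_of_le_of_lt (measure_mono ?_) h3
  apply convexHull_min
  · rintro x (hx | hx)
    · exact Metric.self_subset_cthickening _ (subset_convexHull ℝ _ (Or.inl hx))
    · obtain ⟨k, hk, rfl⟩ := hx
      refine Metric.mem_cthickening_of_dist_le (p +ᵥ k) (q +ᵥ k) _ _
        (subset_convexHull ℝ _ (Or.inr ⟨k, hk, rfl⟩)) ?_
      change dist (p + k) (q + k) ≤ ε / 2
      rw [dist_add_right]
      exact (Metric.mem_ball.mp hp).le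
  · exact (convex_convexHull ℝ _).cthickening _

end MAXaux

theorem t_MAX : S_MAX := by
  intro d K hK c hc
  have hne : K.Nonempty := hK.interior_nonempty.mono interior_subset
  have hset : ∀ q : Fin d → ℝ, ((q +ᵥ K) ∩ K).Nonempty ↔ q ∈ K - K := by
    intro q
    constructor
    · rintro ⟨x, ⟨k, hk, rfl⟩, hx⟩
      exact ⟨q + k, hx, k, hk, by simp⟩
    · rintro ⟨x, hx, k, hk, rfl⟩
      exact ⟨x, ⟨k, hk, by simp⟩, hx⟩
  have hcomp : IsCompact (K - K) := by
    rw [sub_eq_add_neg]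
    exact hK.isCompact.add hK.isCompact.neg
  obtain ⟨p, hp, hmax⟩ := UpperSemicontinuousOn.exists_isMaxOn (hne.sub hne) hcomp
    (MAXaux.usc hK (K - K))
  refine ⟨p, (hset p).mpr hp, fun q hq => ?_⟩
  refine mul_le_mul_of_nonneg_left ?_ hc
  exact ENNReal.toReal_mono (MAXaux.hull_compact hK p).measure_lt_top.ne (hmax ((hset q).mp hq))

end Pool.Agent.H404R2.TH
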