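import Pool.Agent.H404R2.TH.Spec

set_option autoImplicit false

open MeasureTheory Set Pointwise Matrix

namespace Pool.Agent.H404R2.TH

namespace POLYaux

open Polynomial in
/-- the polynomial `t ↦ det (P + t Q)` -/
noncomputable def qp {n : ℕ} (P Q : Matrix (Fin n) (Fin n) ℝ) : Polynomial ℝ :=
  ((X : ℝ[X]) • Q.map (C : ℝ → ℝ[X]) + P.map (C : ℝ → ℝ[X])).det

theorem qp_deg {n : ℕ} (P Q : Matrix (Fin n) (Fin n) ℝ) : (qp P Q).natDegree ≤ n := by
  have := Polynomial.natDegree_det_X_add_C_le Q P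
  simpa [qp] using this

theorem qp_eval {n : ℕ} (P Q : Matrix (Fin n) (Fin n) ℝ) (t : ℝ) :
    (qp P Q).eval t = (P + t • Q).det := by
  unfold qp
  rw [← Polynomial.coe_evalRingHom, RingHom.map_det]
  congr 1
  ext i j
  simp
  ring

theorem interp {n : ℕ} (P Q : Matrix (Fin n) (Fin n) ℝ) (t : ℝ) :
    (P + t • Q).det = ∑ k ∈ Finset.range (n+1), (P + (k:ℝ) • Q).det *
      (Lagrange.basis (Finset.range (n+1)) (fun k : ℕ => (k:ℝ)) k).eval t := by
  have hinj : Set.InjOn (fun k : ℕ => (k:ℝ)) (Finset.range (n+1)) :=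
    fun a _ b _ h => by simpa using h
  have hdeg : (qp P Q).degree < (Finset.range (n+1)).card := by
    rw [Finset.card_range]
    refine lt_of_le_of_lt (Polynomial.degree_le_natDegree) ?_
    have := qp_deg P Q
    exact_mod_cast (by omega : (qp P Q).natDegree < n + 1)
  have h := Lagrange.eq_interpolate hinj hdeg
  have h2 := congrArg (Polynomial.eval t) h
  rw [qp_eval, Lagrange.interpolate_apply, Polynomial.eval_finsetSum] at h2
  rw [h2]
  refine Finset.sum_congr rfl (fun k _ => ?_)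
  rw [Polynomial.eval_mul, Polynomial.eval_C, qp_eval]

end POLYaux

theorem t_POLY (h1 : S_LL) (h2 : S_GI) (h3 : S_GIJ) : S_POLY := by
  intro n A B hA hB
  obtain ⟨φA, GA, MA, hLA⟩ := h1 n A hA
  obtain ⟨φB, GB, MB, hLB⟩ := h1 n B hB
  have hpos : ∀ t : ℝ, 0 ≤ t → ∀ x, 0 < (MA x + t • MB x).det := fun t ht =>
    (h3 n A B φA GA MA φB GB MB hA hB hLA hLB t ht).2
  have hvol : ∀ t : ℝ, 0 ≤ t → volume (A + t • B) = ∫⁻ x, ENNReal.ofReal ((MA x + t • MB x).det) :=
    fun t ht => h2 n A B φA GA MA φB GB MB hA hB hLA hLB t ht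
  have hcMA : Continuous MA := continuous_matrix hLA.cont
  have hcMB : Continuous MB := continuous_matrix hLB.cont
  have hcont : ∀ t : ℝ, Continuous (fun x => (MA x + t • MB x).det) := fun t =>
    (hcMA.add (hcMB.const_smul t)).matrix_det
  have hfin : ∀ t : ℝ, volume (A + t • B) ≠ ⊤ := fun t =>
    (hA.isCompact.add (hB.isCompact.smul t)).measure_lt_top.ne
  have hint : ∀ t : ℝ, 0 ≤ t → Integrable (fun x => (MA x + t • MB x).det) := by
    intro t ht
    rw [← lintegral_ofReal_ne_top_iff_integrable (hcont t).aestronglyMeasurable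
      (Filter.Eventually.of_forall (fun x => (hpos t ht x).le)), ← hvol t ht]
    exact hfin t
  have hV : ∀ t : ℝ, 0 ≤ t → V (A + t • B) = ∫ x, (MA x + t • MB x).det := by
    intro t ht
    unfold V
    rw [hvol t ht, integral_eq_lintegral_of_nonneg_ae
      (Filter.Eventually.of_forall (fun x => (hpos t ht x).le)) (hcont t).aestronglyMeasurable]
  refine ⟨∑ k ∈ Finset.range (n+1), Polynomial.C (V (A + (k:ℝ) • B)) *
      (Lagrange.basis (Finset.range (n+1)) (fun k : ℕ => (k:ℝ)) k), ?_, ?_⟩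
  · refine Polynomial.natDegree_sum_le_of_forall_le _ _ (fun k hk => ?_)
    refine (Polynomial.natDegree_C_mul_le _ _).trans ?_
    have hinj : Set.InjOn (fun k : ℕ => (k:ℝ)) (Finset.range (n+1)) :=
      fun a _ b _ h => by simpa using h
    rw [Lagrange.natDegree_basis hinj hk, Finset.card_range]
    omega
  · intro t ht
    rw [hV t ht, Polynomial.eval_finsetSum]
    have e1 : ∀ x, (MA x + t • MB x).det = ∑ k ∈ Finset.range (n+1), (MA x + (k:ℝ) • MB x).det *
      (Lagrange.basis (Finset.range (n+1)) (fun k : ℕ => (k:ℝ)) k).eval t := fun x =>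
        POLYaux.interp (MA x) (MB x) t
    simp_rw [e1]
    have e2 : ∀ k ∈ Finset.range (n+1), Integrable (fun x => (MA x + (k:ℝ) • MB x).det *
        (Lagrange.basis (Finset.range (n+1)) (fun k : ℕ => (k:ℝ)) k).eval t) := fun k _ =>
      (hint (k:ℝ) (Nat.cast_nonneg k)).mul_const _
    rw [integral_finsetSum _ e2]
    refine Finset.sum_congr rfl (fun k _ => ?_)
    rw [integral_mul_const, Polynomial.eval_mul, Polynomial.eval_C, hV (k:ℝ) (Nat.cast_nonneg k)]

end Pool.Agent.H404R2.TH
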