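import Pool.Agent.H404R2.TH.Spec

set_option autoImplicit false

open MeasureTheory Set Pointwise Matrix

namespace Pool.Agent.H404R2.TH

namespace SEGaux


/-- fibre over `y` -/
def fib {n : ℕ} (K : Set (Fin (n + 1) → ℝ)) (y : Fin n → ℝ) : Set ℝ :=
  {t | (Fin.cons t y : Fin (n + 1) → ℝ) ∈ K}

/-- projection along the first coordinate -/
def proj {n : ℕ} (K : Set (Fin (n + 1) → ℝ)) : Set (Fin n → ℝ) :=
  (fun x : Fin (n + 1) → ℝ => fun i => x (Fin.succ i)) '' K

theorem fib_eq {n : ℕ} (K : Set (Fin (n + 1) → ℝ)) (y : Fin n → ℝ) :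
    (fun x : ℝ => (x, y)) ⁻¹'
      ((MeasurableEquiv.piFinSuccAbove (fun _ : Fin (n + 1) => ℝ) 0).symm ⁻¹' K) = fib K y := by
  ext t
  have h : (MeasurableEquiv.piFinSuccAbove (fun _ : Fin (n + 1) => ℝ) 0).symm (t, y) =
      Fin.cons t y := Fin.insertNth_zero' t y
  show (MeasurableEquiv.piFinSuccAbove (fun _ : Fin (n + 1) => ℝ) 0).symm (t, y) ∈ K ↔ _
  rw [h]
  rfl

theorem vol_fib {n : ℕ} {K : Set (Fin (n + 1) → ℝ)} (hK : MeasurableSet K) :
    volume K = ∫⁻ y : Fin n → ℝ, volume (fib K y) := by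
  have h1 := (volume_preserving_piFinSuccAbove (fun _ : Fin (n + 1) => ℝ) 0).symm
  have h2 := h1.measure_preimage hK.nullMeasurableSet
  rw [← h2, Measure.volume_eq_prod, Measure.prod_apply_symm]
  · apply lintegral_congr
    intro y
    rw [fib_eq]
  · exact h1.measurable hK

theorem meas_fib {n : ℕ} {K : Set (Fin (n + 1) → ℝ)} (hK : MeasurableSet K) :
    Measurable fun y : Fin n → ℝ => volume (fib K y) := by
  have h1 := (volume_preserving_piFinSuccAbove (fun _ : Fin (n + 1) => ℝ) 0).symm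
  have h2 := measurable_measure_prodMk_right (μ := (volume : Measure ℝ))
    (h1.measurable hK)
  simp only [fib_eq] at h2
  exact h2

theorem mem_fib_iff {n : ℕ} {K : Set (Fin (n + 1) → ℝ)} {y : Fin n → ℝ} :
    y ∈ proj K ↔ (fib K y).Nonempty := by
  constructor
  · rintro ⟨x, hx, rfl⟩
    refine ⟨x 0, ?_⟩
    show (Fin.cons (x 0) (Fin.tail x) : Fin (n + 1) → ℝ) ∈ K
    rwa [Fin.cons_self_tail]
  · rintro ⟨t, ht⟩
    exact ⟨_, ht, by ext i; simp⟩

theorem continuous_cons {n : ℕ} (y : Fin n → ℝ) :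
    Continuous fun t : ℝ => (Fin.cons t y : Fin (n + 1) → ℝ) := by
  apply continuous_pi
  intro i
  refine Fin.cases ?_ ?_ i
  · simp only [Fin.cons_zero]
    exact continuous_id
  · intro j
    simp only [Fin.cons_succ]
    exact continuous_const

theorem cons_comb {n : ℕ} (y y' : Fin n → ℝ) (t t' a b : ℝ) :
    a • (Fin.cons t y : Fin (n + 1) → ℝ) + b • (Fin.cons t' y' : Fin (n + 1) → ℝ) =
      Fin.cons (a * t + b * t') (a • y + b • y') := by
  ext i
  refine Fin.cases ?_ ?_ i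
  · simp
  · intro j
    simp

theorem fib_convex {n : ℕ} {K : Set (Fin (n + 1) → ℝ)} (hc : Convex ℝ K) (y : Fin n → ℝ) :
    Convex ℝ (fib K y) := by
  intro s hs t ht a b ha hb hab
  show (Fin.cons (a • s + b • t) y : Fin (n + 1) → ℝ) ∈ K
  have h := hc hs ht ha hb hab
  rw [cons_comb, ← add_smul, hab, one_smul] at h
  exact h

theorem fib_compact {n : ℕ} {K : Set (Fin (n + 1) → ℝ)} (hK : IsCompact K) (y : Fin n → ℝ) :
    IsCompact (fib K y) := by
  have h1 : IsClosed (fib K y) := hK.isClosed.preimage (continuous_cons y)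
  have h2 : fib K y ⊆ (fun x : Fin (n + 1) → ℝ => x 0) '' K := by
    intro t ht
    exact ⟨_, ht, by simp⟩
  exact (hK.image (continuous_apply 0)).of_isClosed_subset h1 h2

theorem fib_Icc {n : ℕ} {K : Set (Fin (n + 1) → ℝ)} (hK : IsCompact K) (hc : Convex ℝ K)
    {y : Fin n → ℝ} (hy : y ∈ proj K) : ∃ α β : ℝ, α ≤ β ∧ fib K y = Icc α β := by
  have hne := mem_fib_iff.1 hy
  have h1 : IsConnected (fib K y) := ⟨hne, (fib_convex hc y).isPreconnected⟩
  have h2 := eq_Icc_of_connected_compact h1 (fib_compact hK y)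
  refine ⟨_, _, ?_, h2⟩
  rw [h2] at hne
  exact nonempty_Icc.1 hne

theorem proj_compact {n : ℕ} {K : Set (Fin (n + 1) → ℝ)} (hK : IsCompact K) :
    IsCompact (proj K) :=
  hK.image (by fun_prop)


/-- the segment from `0` to `t e_0` -/
def seg (n : ℕ) (τ : ℝ) : Set (Fin (n + 1) → ℝ) := {x | ∃ s : ℝ, 0 ≤ s ∧ s ≤ τ ∧ x = Fin.cons s 0}

theorem fib_add_seg {n : ℕ} {K : Set (Fin (n + 1) → ℝ)} (hK : IsCompact K) (hc : Convex ℝ K)
    (y : Fin n → ℝ) (τ : ℝ) (hτ : 0 ≤ τ) :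
    volume (fib (K + seg n τ) y) =
      volume (fib K y) + (proj K).indicator (fun _ => ENNReal.ofReal τ) y := by
  have hmem : ∀ t, t ∈ fib (K + seg n τ) y ↔ ∃ s, 0 ≤ s ∧ s ≤ τ ∧ t - s ∈ fib K y := by
    intro t
    constructor
    · rintro ⟨x, hx, _, ⟨s, hs0, hs2, rfl⟩, hxs⟩
      refine ⟨s, hs0, hs2, ?_⟩
      show (Fin.cons (t - s) y : Fin (n + 1) → ℝ) ∈ K
      have h1 : (Fin.cons (t - s) y : Fin (n + 1) → ℝ) = x := by
        have h2 : x = Fin.cons t y - Fin.cons s 0 := eq_sub_of_add_eq hxs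
        rw [h2]
        ext i
        refine Fin.cases ?_ ?_ i
        · simp
        · intro j
          simp
      rw [h1]
      exact hx
    · rintro ⟨s, hs0, hs2, h⟩
      refine ⟨_, h, _, ⟨s, hs0, hs2, rfl⟩, ?_⟩
      ext i
      refine Fin.cases ?_ ?_ i
      · simp
      · intro j
        simp
  by_cases hy : y ∈ proj K
  · obtain ⟨α, β, hαβ, hF⟩ := fib_Icc hK hc hy
    rw [indicator_of_mem hy]
    have h1 : fib (K + seg n τ) y = Icc α (β + τ) := by
      ext t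
      rw [hmem, hF]
      constructor
      · rintro ⟨s, hs0, hs2, h1, h2⟩
        constructor <;> linarith
      · rintro ⟨h1, h2⟩
        by_cases h3 : t ≤ β
        · exact ⟨0, le_rfl, hτ, by simpa using ⟨h1, h3⟩⟩
        · push Not at h3
          exact ⟨t - β, by linarith, by linarith, by constructor <;> linarith⟩
    rw [h1, hF, Real.volume_Icc, Real.volume_Icc]
    rw [← ENNReal.ofReal_add (by linarith) hτ]
    congr 1
    ring
  · rw [indicator_of_notMem hy, add_zero]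
    have h0 : fib K y = ∅ := by
      by_contra h
      exact hy (mem_fib_iff.2 (nonempty_iff_ne_empty.2 h))
    have h1 : fib (K + seg n τ) y = ∅ := by
      ext t
      rw [hmem, h0]
      simp
    rw [h0, h1]

theorem isCompact_seg (n : ℕ) (τ : ℝ) : IsCompact (seg n τ) := by
  have h1 : seg n τ = (fun s : ℝ => (Fin.cons s 0 : Fin (n + 1) → ℝ)) '' Icc 0 τ := by
    ext x
    constructor
    · rintro ⟨s, h0, h2, rfl⟩
      exact ⟨s, ⟨h0, h2⟩, rfl⟩
    · rintro ⟨s, ⟨h0, h2⟩, rfl⟩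
      exact ⟨s, h0, h2, rfl⟩
  rw [h1]
  exact isCompact_Icc.image (continuous_cons 0)

/-- volume of the sum of a convex body and a segment -/
theorem vol_add_seg {n : ℕ} {K : Set (Fin (n + 1) → ℝ)} (hK : IsCompact K) (hc : Convex ℝ K)
    (τ : ℝ) (hτ : 0 ≤ τ) :
    volume (K + seg n τ) = volume K + ENNReal.ofReal τ * volume (proj K) := by
  rw [vol_fib (hK.add (isCompact_seg n τ)).isClosed.measurableSet,
    vol_fib hK.isClosed.measurableSet]
  simp_rw [fib_add_seg hK hc _ τ hτ]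
  rw [lintegral_add_left (meas_fib hK.isClosed.measurableSet),
    lintegral_indicator (proj_compact hK).isClosed.measurableSet]
  simp

theorem seg_eq (n : ℕ) (τ : ℝ) (hτ : 0 ≤ τ) :
    seg n τ = segment ℝ (0 : Fin (n + 1) → ℝ) (Pi.single 0 τ) := by
  rw [segment_eq_image]
  ext x
  constructor
  · rintro ⟨s, h0, h2, rfl⟩
    rcases eq_or_lt_of_le hτ with h | h
    · have hs : s = 0 := le_antisymm (h ▸ h2) h0
      refine ⟨0, ⟨le_rfl, zero_le_one⟩, ?_⟩
      ext i
      refine Fin.cases ?_ ?_ i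
      · simp [hs]
      · intro j; simp
    · refine ⟨s / τ, ⟨by positivity, by rw [div_le_one h]; exact h2⟩, ?_⟩
      ext i
      refine Fin.cases ?_ ?_ i
      · simp [h.ne']
      · intro j; simp
  · rintro ⟨t, ⟨h0, h1⟩, rfl⟩
    refine ⟨τ * t, by positivity, by nlinarith, ?_⟩
    ext i
    refine Fin.cases ?_ ?_ i
    · simp [mul_comm]
    · intro j; simp

/-- linear change of variables -/
theorem vol_image {n : ℕ} (A : (Fin (n + 1) → ℝ) ≃L[ℝ] (Fin (n + 1) → ℝ))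
    (K : Set (Fin (n + 1) → ℝ)) (p : Fin (n + 1) → ℝ) (τ : ℝ) (hτ : 0 ≤ τ)
    (hp : A (Pi.single 0 τ) = p) :
    volume (K + segment ℝ 0 p) = ENNReal.ofReal |LinearMap.det (A : (Fin (n + 1) → ℝ) →ₗ[ℝ] _)| *
      volume (A.symm '' K + seg n τ) := by
  rw [← Measure.addHaar_image_continuousLinearEquiv, Set.image_add, Set.image_image,
    seg_eq n τ hτ]
  have h1 : (fun x => A (A.symm x)) '' K = K := by simp
  have h2 : A '' segment ℝ 0 (Pi.single 0 τ) = segment ℝ 0 p := by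
    have h3 := image_segment (𝕜 := ℝ) (A : (Fin (n + 1) → ℝ) →ₗ[ℝ] (Fin (n + 1) → ℝ)).toAffineMap
      (0 : Fin (n + 1) → ℝ) (Pi.single 0 τ)
    simp only [LinearMap.coe_toAffineMap] at h3
    have h4 : (A : (Fin (n + 1) → ℝ) →ₗ[ℝ] (Fin (n + 1) → ℝ)) (Pi.single 0 τ) = p := hp
    rw [h4, map_zero] at h3
    exact h3
  rw [h1, h2]

theorem proj_smul {n : ℕ} (K : Set (Fin (n + 1) → ℝ)) (s : ℝ) : proj (s • K) = s • proj K := by
  unfold proj
  ext y
  constructor
  · rintro ⟨_, ⟨x, hx, rfl⟩, rfl⟩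
    exact ⟨_, ⟨x, hx, rfl⟩, by ext i; simp⟩
  · rintro ⟨_, ⟨x, hx, rfl⟩, rfl⟩
    exact ⟨_, ⟨x, hx, rfl⟩, by ext i; simp⟩

theorem proj_vadd {n : ℕ} (K : Set (Fin (n + 1) → ℝ)) (a : Fin (n + 1) → ℝ) :
    proj (a +ᵥ K) = (fun i => a (Fin.succ i)) +ᵥ proj K := by
  unfold proj
  ext y
  constructor
  · rintro ⟨_, ⟨x, hx, rfl⟩, rfl⟩
    exact ⟨_, ⟨x, hx, rfl⟩, by ext i; simp⟩
  · rintro ⟨_, ⟨x, hx, rfl⟩, rfl⟩
    exact ⟨_, ⟨x, hx, rfl⟩, by ext i; simp⟩

end SEGaux

open SEGaux in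
theorem t_SEG : S_SEG := by
  intro n v
  by_cases hv : v = 0
  · subst hv
    refine ⟨fun _ => 0, ?_, ?_, ?_, ?_, ?_⟩
    · intro K _ _ _ t _
      rw [smul_zero, segment_same, mul_zero, add_zero, add_singleton]
      simp
    · intros; exact le_rfl
    · intros; simp
    · intros; rfl
    · intros; exact ENNReal.zero_ne_top
  obtain ⟨m, rfl⟩ : ∃ m, n = m + 1 := by
    cases n with
    | zero => exact absurd (Subsingleton.elim v 0) hv
    | succ m => exact ⟨m, rfl⟩
  obtain ⟨A, hA⟩ := SeparatingDual.exists_continuousLinearEquiv_apply_eq (R := ℝ)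
    (x := (Pi.single 0 (1 : ℝ) : Fin (m + 1) → ℝ)) (y := v)
    (by intro h; have := congrFun h 0; simp at this) hv
  have hAt : ∀ t : ℝ, A (Pi.single 0 t) = t • v := by
    intro t
    rw [← hA, ← map_smul]
    congr 1
    ext i
    refine Fin.cases ?_ ?_ i
    · simp
    · intro j; simp
  refine ⟨fun K => ENNReal.ofReal |LinearMap.det (A : (Fin (m + 1) → ℝ) →ₗ[ℝ] _)| *
    volume (proj (A.symm '' K)), ?_, ?_, ?_, ?_, ?_⟩
  · intro K hK hc hne t ht
    rw [vol_image A K (t • v) t ht (hAt t)]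
    have hK' : IsCompact (A.symm '' K) := hK.image A.symm.continuous
    have hc' : Convex ℝ (A.symm '' K) :=
      hc.linear_image (A.symm : (Fin (m + 1) → ℝ) →ₗ[ℝ] (Fin (m + 1) → ℝ))
    rw [vol_add_seg hK' hc' t ht, mul_add]
    congr 1
    · rw [← Measure.addHaar_image_continuousLinearEquiv, Set.image_image]
      simp
    · ring
  · intro K K' h
    refine mul_le_mul_right (measure_mono ?_) _
    exact image_mono (image_mono h)
  · intro K s hs
    have h1 : A.symm '' (s • K) = s • (A.symm '' K) := by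
      ext y
      constructor
      · rintro ⟨_, ⟨x, hx, rfl⟩, rfl⟩
        exact ⟨_, ⟨x, hx, rfl⟩, by simp⟩
      · rintro ⟨_, ⟨x, hx, rfl⟩, rfl⟩
        exact ⟨_, ⟨x, hx, rfl⟩, by simp⟩
    simp only
    rw [h1, proj_smul, Measure.addHaar_smul, Module.finrank_fin_fun, abs_of_nonneg (pow_nonneg hs.le m),
      Nat.add_sub_cancel]
    ring
  · intro K a
    have h1 : A.symm '' (a +ᵥ K) = A.symm a +ᵥ (A.symm '' K) := by
      ext y
      constructor
      · rintro ⟨_, ⟨x, hx, rfl⟩, rfl⟩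
        exact ⟨_, ⟨x, hx, rfl⟩, by simp⟩
      · rintro ⟨_, ⟨x, hx, rfl⟩, rfl⟩
        exact ⟨_, ⟨x, hx, rfl⟩, by simp⟩
    simp only
    rw [h1, proj_vadd, measure_vadd]
  · intro K hK
    exact ENNReal.mul_ne_top ENNReal.ofReal_ne_top
      (proj_compact (hK.image A.symm.continuous)).measure_lt_top.ne

end Pool.Agent.H404R2.TH
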