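import Pool.Agent.H404R2.TH.Spec

set_option autoImplicit false

open MeasureTheory Set Pointwise Matrix

namespace Pool.Agent.H404R2.TH

namespace TETaux

/-- simplex of size `r` -/
def Sx (n : ℕ) (r : ℝ) : Set (Fin n → ℝ) := {x | (∀ i, 0 ≤ x i) ∧ ∑ i, x i ≤ r}

theorem Sx_meas (n : ℕ) (r : ℝ) : MeasurableSet (Sx n r) := by
  have h : Sx n r = (⋂ i, {x : Fin n → ℝ | 0 ≤ x i}) ∩ {x | ∑ i, x i ≤ r} := by
    ext x
    simp [Sx]
  rw [h]
  refine (MeasurableSet.iInter fun i => ?_).inter ?_
  · exact measurableSet_le measurable_const (measurable_pi_apply i)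
  · exact measurableSet_le (by fun_prop) measurable_const

theorem int_simplex (n : ℕ) (r : ℝ) (hr : 0 ≤ r) :
    ∫⁻ z in Icc (0 : ℝ) r, ENNReal.ofReal ((r - z) ^ n / n.factorial) =
      ENNReal.ofReal (r ^ (n + 1) / (n + 1).factorial) := by
  have hcont : Continuous fun z : ℝ => (r - z) ^ n / (n.factorial : ℝ) := by fun_prop
  rw [← ofReal_integral_eq_lintegral_ofReal]
  · congr 1
    rw [integral_Icc_eq_integral_Ioc, ← intervalIntegral.integral_of_le hr,
      intervalIntegral.integral_div,
      intervalIntegral.integral_comp_sub_left (fun x => x ^ n) r, integral_pow]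
    rw [Nat.factorial_succ]
    push_cast
    have : (n.factorial : ℝ) ≠ 0 := by positivity
    have h2 : (n : ℝ) + 1 ≠ 0 := by positivity
    field_simp
    simp
  · exact hcont.continuousOn.integrableOn_Icc
  · refine (ae_restrict_iff' measurableSet_Icc).mpr (Filter.Eventually.of_forall fun z hz => ?_)
    have : 0 ≤ r - z := by linarith [hz.2]
    simp only [Pi.zero_apply]
    positivity

theorem vol_Sx (n : ℕ) : ∀ r : ℝ, 0 ≤ r →
    volume (Sx n r) = ENNReal.ofReal (r ^ n / n.factorial) := by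
  induction n with
  | zero =>
    intro r hr
    have h : Sx 0 r = univ := by
      ext x
      simp [Sx, hr]
    rw [h]
    simp [volume_pi, Measure.pi_of_empty]
  | succ n ih =>
    intro r hr
    have hA : MeasurableSet {q : ℝ × (Fin n → ℝ) | 0 ≤ q.1 ∧ (∀ i, 0 ≤ q.2 i) ∧
        q.1 + ∑ i, q.2 i ≤ r} := by
      have h : {q : ℝ × (Fin n → ℝ) | 0 ≤ q.1 ∧ (∀ i, 0 ≤ q.2 i) ∧
        q.1 + ∑ i, q.2 i ≤ r} = {q | 0 ≤ q.1} ∩ ((⋂ i, {q : ℝ × (Fin n → ℝ) | 0 ≤ q.2 i}) ∩
          {q | q.1 + ∑ i, q.2 i ≤ r}) := by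
        ext q
        simp
      rw [h]
      refine (measurableSet_le measurable_const measurable_fst).inter
        ((MeasurableSet.iInter fun i => ?_).inter ?_)
      · exact measurableSet_le measurable_const (by fun_prop)
      · exact measurableSet_le (by fun_prop) measurable_const
    have h1 : volume (Sx (n + 1) r) = volume {q : ℝ × (Fin n → ℝ) | 0 ≤ q.1 ∧ (∀ i, 0 ≤ q.2 i) ∧
        q.1 + ∑ i, q.2 i ≤ r} := by
      rw [← (volume_preserving_piFinSuccAbove (fun _ : Fin (n + 1) => ℝ) 0).measure_preimage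
        hA.nullMeasurableSet]
      congr 1
      ext x
      simp only [Sx, Set.mem_ofPred_eq, Set.mem_preimage]
      rw [Fin.sum_univ_succ, Fin.forall_fin_succ, and_assoc]
      simp [MeasurableEquiv.piFinSuccAbove, Fin.tail]
    rw [h1, Measure.volume_eq_prod, Measure.prod_apply hA, ← int_simplex n r hr,
      ← lintegral_indicator measurableSet_Icc]
    congr 1
    ext z
    by_cases hz : z ∈ Icc (0 : ℝ) r
    · rw [indicator_of_mem hz, ← ih (r - z) (by linarith [hz.2])]
      congr 1
      ext w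
      simp only [Sx, Set.mem_ofPred_eq, Set.mem_preimage]
      constructor
      · rintro ⟨_, h2, h3⟩
        exact ⟨h2, by linarith⟩
      · rintro ⟨h2, h3⟩
        exact ⟨hz.1, h2, by linarith⟩
    · rw [indicator_of_notMem hz]
      have : (Prod.mk z ⁻¹' {q : ℝ × (Fin n → ℝ) | 0 ≤ q.1 ∧ (∀ i, 0 ≤ q.2 i) ∧
        q.1 + ∑ i, q.2 i ≤ r}) = ∅ := by
        ext w
        simp only [Set.mem_ofPred_eq, Set.mem_preimage, Set.mem_empty_iff_false, iff_false]
        rintro ⟨h1, h2, h3⟩
        apply hz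
        have h4 : 0 ≤ ∑ i, w i := Finset.sum_nonneg fun i _ => h2 i
        exact ⟨h1, by linarith⟩
      rw [this, measure_empty]

theorem tet_cb : CB Tet := by
  refine ⟨?_, ?_, ?_⟩
  · have hc : IsClosed Tet := by
      have h : Tet = (⋂ i, {x : Fin 3 → ℝ | 0 ≤ x i}) ∩ {x | ∑ i, x i ≤ 1} := by
        ext x
        simp [Tet]
      rw [h]
      refine (isClosed_iInter fun i => ?_).inter ?_
      · exact isClosed_le continuous_const (continuous_apply i)
      · exact isClosed_le (by fun_prop) continuous_const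
    refine IsCompact.of_isClosed_subset (isCompact_Icc (a := (0 : Fin 3 → ℝ)) (b := 1)) hc ?_
    intro x hx
    refine ⟨fun i => hx.1 i, fun i => ?_⟩
    have h1 : x i ≤ ∑ j, x j := Finset.single_le_sum (fun j _ => hx.1 j) (Finset.mem_univ i)
    exact h1.trans hx.2
  · intro x hx y hy a b ha hb hab
    refine ⟨fun i => ?_, ?_⟩
    · have h1 := hx.1 i
      have h2 := hy.1 i
      simp only [Pi.add_apply, Pi.smul_apply, smul_eq_mul]
      positivity
    · simp only [Pi.add_apply, Pi.smul_apply, smul_eq_mul, Finset.sum_add_distrib,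
        ← Finset.mul_sum]
      have h1 := hx.2
      have h2 := hy.2
      nlinarith
  · have ho : IsOpen ((⋂ i, {x : Fin 3 → ℝ | 0 < x i}) ∩ {x | ∑ i, x i < 1}) := by
      refine (isOpen_iInter_of_finite fun i => ?_).inter ?_
      · exact isOpen_lt continuous_const (continuous_apply i)
      · exact isOpen_lt (by fun_prop) continuous_const
    refine ⟨fun _ => 1 / 4, interior_maximal ?_ ho ?_⟩
    · rintro x ⟨h1, h2⟩
      simp only [Set.mem_iInter, Set.mem_ofPred_eq] at h1 h2
      exact ⟨fun i => (h1 i).le, h2.le⟩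
    · simp only [Set.mem_inter_iff, Set.mem_iInter, Set.mem_ofPred_eq]
      constructor
      · intro i; norm_num
      · norm_num

end TETaux

open TETaux in
theorem t_TET : S_TET := by
  refine ⟨tet_cb, ?_⟩
  have h : Tet = Sx 3 1 := rfl
  unfold V
  rw [h, vol_Sx 3 1 zero_le_one, ENNReal.toReal_ofReal (by positivity)]
  norm_num [Nat.factorial]

end Pool.Agent.H404R2.TH
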