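import Pool.Agent.H404R2.TH.Spec
import Pool.Agent.H404R2.TH.TTET

set_option autoImplicit false

open MeasureTheory Set Pointwise Matrix

namespace Pool.Agent.H404R2.TH

namespace TETDaux

/-- the prism: coordinate `i` positive, the other two negative -/
def R (i : Fin 3) : Set (Fin 3 → ℝ) :=
  {x | 0 < x i ∧ x i ≤ 1 ∧ (∀ j, j ≠ i → x j < 0) ∧ (x i - (x 0 + x 1 + x 2)) ≤ 1}

theorem R_meas (i : Fin 3) : MeasurableSet (R i) := by
  have h : R i = {x : Fin 3 → ℝ | 0 < x i} ∩ ({x | x i ≤ 1} ∩
      ((⋂ j, {x : Fin 3 → ℝ | j ≠ i → x j < 0}) ∩ {x | (x i - (x 0 + x 1 + x 2)) ≤ 1})) := by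
    ext x
    simp [R]
  rw [h]
  refine (measurableSet_lt measurable_const (measurable_pi_apply i)).inter
    ((measurableSet_le (measurable_pi_apply i) measurable_const).inter
    ((MeasurableSet.iInter fun j => ?_).inter (measurableSet_le (by fun_prop) measurable_const)))
  by_cases hj : j = i
  · have : {x : Fin 3 → ℝ | j ≠ i → x j < 0} = univ := by
      ext x; simp [hj]
    rw [this]
    exact MeasurableSet.univ
  · have : {x : Fin 3 → ℝ | j ≠ i → x j < 0} = {x | x j < 0} := by
      ext x; simp [hj]
    rw [this]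
    exact measurableSet_lt (measurable_pi_apply j) measurable_const

/-- centre of the reflection -/
def cv (i : Fin 3) : Fin 3 → ℝ := fun j => if j = i then 1 else -1

theorem cv_sum (i : Fin 3) : cv i 0 + cv i 1 + cv i 2 = -1 := by
  have h : ∀ i : Fin 3, cv i 0 + cv i 1 + cv i 2 = -1 := by
    rw [Fin.forall_fin_succ, Fin.forall_fin_two]
    refine ⟨?_, ?_, ?_⟩ <;> simp [cv]
  exact h i

theorem R_vol (i : Fin 3) : ENNReal.ofReal (1 / 2) ≤ volume (R i) := by
  have hbox : volume (Set.pi univ fun j : Fin 3 =>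
      Ioo (if j = i then (0 : ℝ) else -1) (if j = i then (1 : ℝ) else 0)) = 1 := by
    rw [Real.volume_pi_Ioo]
    refine Finset.prod_eq_one fun j _ => ?_
    by_cases hj : j = i
    · simp [hj]
    · simp [hj]
  have hsub : (Set.pi univ fun j : Fin 3 =>
      Ioo (if j = i then (0 : ℝ) else -1) (if j = i then (1 : ℝ) else 0)) ⊆
      R i ∪ (fun x => cv i - x) ⁻¹' R i := by
    intro x hx
    have h0 : ∀ j, (if j = i then (0 : ℝ) else -1) < x j ∧ x j < (if j = i then (1 : ℝ) else 0) :=
      fun j => hx j (mem_univ j)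
    have hi := h0 i
    rw [if_pos rfl, if_pos rfl] at hi
    have hj : ∀ j, j ≠ i → -1 < x j ∧ x j < 0 := by
      intro j hji
      have := h0 j
      rwa [if_neg hji, if_neg hji] at this
    by_cases hc : x i - (x 0 + x 1 + x 2) ≤ 1
    · left
      exact ⟨hi.1, hi.2.le, fun j hji => (hj j hji).2, hc⟩
    · right
      have hs := cv_sum i
      have hii : cv i i = 1 := by simp [cv]
      refine ⟨?_, ?_, ?_, ?_⟩
      · simp only [Pi.sub_apply]
        rw [hii]
        linarith [hi.2]
      · simp only [Pi.sub_apply]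
        rw [hii]
        linarith [hi.1]
      · intro j hji
        have hcj : cv i j = -1 := by simp [cv, hji]
        simp only [Pi.sub_apply]
        rw [hcj]
        linarith [(hj j hji).1]
      · simp only [Pi.sub_apply]
        rw [hii]
        push Not at hc
        linarith
  have hpre : volume ((fun x => cv i - x) ⁻¹' R i) = volume (R i) :=
    (Measure.measurePreserving_sub_left volume (cv i)).measure_preimage
      (R_meas i).nullMeasurableSet
  have h1 : (1 : ENNReal) ≤ volume (R i) + volume (R i) := by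
    calc (1 : ENNReal) = volume (Set.pi univ fun j : Fin 3 =>
      Ioo (if j = i then (0 : ℝ) else -1) (if j = i then (1 : ℝ) else 0)) := hbox.symm
      _ ≤ volume (R i ∪ (fun x => cv i - x) ⁻¹' R i) := measure_mono hsub
      _ ≤ volume (R i) + volume ((fun x => cv i - x) ⁻¹' R i) := measure_union_le _ _
      _ = volume (R i) + volume (R i) := by rw [hpre]
  by_cases ht : volume (R i) = ⊤
  · rw [ht]; exact le_top
  · rw [ENNReal.ofReal_le_iff_le_toReal ht]
    have h2 : (1 : ℝ) ≤ (volume (R i)).toReal + (volume (R i)).toReal := by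
      rw [← ENNReal.toReal_add ht ht]
      have := ENNReal.toReal_mono (ENNReal.add_ne_top.mpr ⟨ht, ht⟩) h1
      simpa using this
    linarith

/-- the pieces -/
def Q : Option (Fin 3) → Set (Fin 3 → ℝ)
  | none => Tet \ {0}
  | some i => R i

theorem Q_meas (o : Option (Fin 3)) : MeasurableSet (Q o) := by
  cases o with
  | none =>
    exact (TETaux.Sx_meas 3 1).diff (measurableSet_singleton 0)
  | some i => exact R_meas i

theorem exists_ne (i j : Fin 3) : ∃ k : Fin 3, k ≠ i ∧ k ≠ j := by
  revert i j
  decide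

theorem Q_disj : Pairwise (Function.onFun Disjoint Q) := by
  intro o o' hoo
  show Disjoint (Q o) (Q o')
  rw [Set.disjoint_left]
  intro x hx hx'
  cases o with
  | none =>
    cases o' with
    | none => exact hoo rfl
    | some i =>
      obtain ⟨k, hk, _⟩ := exists_ne i i
      have h1 : 0 ≤ x k := hx.1.1 k
      have h2 : x k < 0 := hx'.2.2.1 k hk
      linarith
  | some i =>
    cases o' with
    | none =>
      obtain ⟨k, hk, _⟩ := exists_ne i i
      have h1 : 0 ≤ x k := hx'.1.1 k
      have h2 : x k < 0 := hx.2.2.1 k hk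
      linarith
    | some j =>
      have hij : i ≠ j := fun h => hoo (by rw [h])
      have h1 : 0 < x i := hx.1
      have h2 : x i < 0 := hx'.2.2.1 i hij
      linarith

theorem Q_neg (o o' : Option (Fin 3)) (x : Fin 3 → ℝ) (hx : x ∈ Q o) (hx' : -x ∈ Q o') :
    False := by
  cases o with
  | none =>
    cases o' with
    | none =>
      apply hx.2
      show x = 0
      ext i
      have h1 : 0 ≤ x i := hx.1.1 i
      have h2 : 0 ≤ (-x) i := hx'.1.1 i
      simp only [Pi.neg_apply] at h2
      simp only [Pi.zero_apply]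
      linarith
    | some i =>
      have h1 : 0 ≤ x i := hx.1.1 i
      have h2 : 0 < (-x) i := hx'.1
      simp only [Pi.neg_apply] at h2
      linarith
  | some i =>
    cases o' with
    | none =>
      have h1 : 0 ≤ (-x) i := hx'.1.1 i
      have h2 : 0 < x i := hx.1
      simp only [Pi.neg_apply] at h1
      linarith
    | some j =>
      obtain ⟨k, hk, hk'⟩ := exists_ne i j
      have h1 : x k < 0 := hx.2.2.1 k hk
      have h2 : (-x) k < 0 := hx'.2.2.1 k hk'
      simp only [Pi.neg_apply] at h2
      linarith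

theorem zero_mem_Tet : (0 : Fin 3 → ℝ) ∈ Tet := by
  refine ⟨fun i => le_refl _, ?_⟩
  simp

theorem R_sub (i : Fin 3) : R i ⊆ Tet - Tet := by
  intro x hx
  obtain ⟨h1, h2, h3, h4⟩ := hx
  refine Set.mem_sub.mpr ⟨fun j => if j = i then x j else 0, ⟨?_, ?_⟩,
    fun j => if j = i then 0 else - x j, ⟨?_, ?_⟩, ?_⟩
  · intro j
    by_cases hj : j = i
    · subst hj; simp [h1.le]
    · simp [hj]
  · simp [h2]
  · intro j
    by_cases hj : j = i
    · simp [hj]
    · simp only [hj, if_false]
      linarith [h3 j hj]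
  · have h5 : ∑ j, (if j = i then 0 else - x j) = x i - (x 0 + x 1 + x 2) := by
      have h6 : ∀ j, (if j = i then 0 else - x j) = (if j = i then x i else 0) - x j := by
        intro j
        by_cases hj : j = i
        · subst hj; simp
        · simp [hj]
      rw [Finset.sum_congr rfl fun j _ => h6 j, Finset.sum_sub_distrib,
        Finset.sum_ite_eq' Finset.univ i, if_pos (Finset.mem_univ i), Fin.sum_univ_three]
    rw [h5]
    exact h4
  · ext j
    by_cases hj : j = i
    · simp [hj]
    · simp [hj]

theorem Q_sub (o : Option (Fin 3)) : Q o ⊆ Tet - Tet := by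
  cases o with
  | none =>
    intro x hx
    exact Set.mem_sub.mpr ⟨x, hx.1, 0, zero_mem_Tet, sub_zero x⟩
  | some i => exact R_sub i

end TETDaux

open TETDaux in
theorem t_TETD : S_TETD := by
  have hcb := t_TET.1
  have hcomp : IsCompact (Tet - Tet) := by
    have h := hcb.isCompact.add hcb.isCompact.neg
    rwa [← sub_eq_add_neg] at h
  have hfin : volume (Tet - Tet) ≠ ⊤ := hcomp.measure_lt_top.ne
  set U : Set (Fin 3 → ℝ) := ⋃ o, Q o with hU
  have hUm : MeasurableSet U := MeasurableSet.iUnion Q_meas
  have hUv : volume U = ∑ o, volume (Q o) := by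
    rw [hU, measure_iUnion Q_disj Q_meas, tsum_fintype]
  have hTet : volume (Tet \ {0}) = ENNReal.ofReal (1 / 6) := by
    rw [measure_sdiff_null (measure_singleton 0)]
    have h1 := t_TET.2
    unfold V at h1
    rw [← h1, ENNReal.ofReal_toReal hcb.isCompact.measure_lt_top.ne]
  have hUl : ENNReal.ofReal (5 / 3) ≤ volume U := by
    rw [hUv, Fintype.sum_option]
    have e1 : volume (Q none) = ENNReal.ofReal (1 / 6) := hTet
    have e2 : ENNReal.ofReal (3 / 2) ≤ ∑ i : Fin 3, volume (Q (some i)) := by
      calc ENNReal.ofReal (3 / 2) = ∑ i : Fin 3, ENNReal.ofReal (1 / 2) := by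
            rw [← ENNReal.ofReal_sum_of_nonneg (fun i _ => by norm_num)]
            congr 1
            simp
            norm_num
        _ ≤ ∑ i : Fin 3, volume (Q (some i)) := Finset.sum_le_sum fun i _ => R_vol i
    calc ENNReal.ofReal (5 / 3) = ENNReal.ofReal (1 / 6) + ENNReal.ofReal (3 / 2) := by
          rw [← ENNReal.ofReal_add (by norm_num) (by norm_num)]
          norm_num
      _ ≤ _ := add_le_add e1.ge e2
  have hnegm : MeasurableSet (-U) := hUm.neg
  have hdisj : Disjoint U (-U) := by
    rw [Set.disjoint_left]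
    intro x hx hx'
    rw [Set.mem_neg] at hx'
    rw [hU] at hx hx'
    obtain ⟨o, ho⟩ := Set.mem_iUnion.mp hx
    obtain ⟨o', ho'⟩ := Set.mem_iUnion.mp hx'
    exact Q_neg o o' x ho ho'
  have hsub1 : U ⊆ Tet - Tet := by
    rw [hU]
    exact Set.iUnion_subset Q_sub
  have hsub2 : -U ⊆ Tet - Tet := by
    intro x hx
    rw [Set.mem_neg] at hx
    obtain ⟨a, ha, b, hb, hab⟩ := Set.mem_sub.mp (hsub1 hx)
    refine Set.mem_sub.mpr ⟨b, hb, a, ha, ?_⟩
    rw [← neg_sub, hab, neg_neg]
  have hneg : volume (-U) = volume U := Measure.measure_neg volume U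
  have hfinal : ENNReal.ofReal (10 / 3) ≤ volume (Tet - Tet) := by
    calc ENNReal.ofReal (10 / 3) = ENNReal.ofReal (5 / 3) + ENNReal.ofReal (5 / 3) := by
          rw [← ENNReal.ofReal_add (by norm_num) (by norm_num)]
          norm_num
      _ ≤ volume U + volume (-U) := by
          rw [hneg]
          exact add_le_add hUl hUl
      _ = volume (U ∪ -U) := (measure_union hdisj hnegm).symm
      _ ≤ volume (Tet - Tet) := measure_mono (Set.union_subset hsub1 hsub2)
  show 10 / 3 ≤ (volume (Tet - Tet)).toReal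
  exact (ENNReal.ofReal_le_iff_le_toReal hfin).mp hfinal

end Pool.Agent.H404R2.TH
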