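import Pool.Agent.H404R2.TH.Spec

set_option autoImplicit false

open MeasureTheory Set Pointwise Matrix

namespace Pool.Agent.H404R2.TH

namespace TETPaux

/-- the shears -/
def M0 : Matrix (Fin 3) (Fin 3) ℝ := !![1, 0, 0; -1, 1, 0; -1, 0, 1]
def M1 : Matrix (Fin 3) (Fin 3) ℝ := !![1, -1, 0; 0, 1, 0; 0, -1, 1]
def M2 : Matrix (Fin 3) (Fin 3) ℝ := !![1, 0, -1; 0, 1, -1; 0, 0, 1]

theorem vol_shear (M : Matrix (Fin 3) (Fin 3) ℝ) (hM : M.det = 1) (a b : Fin 3 → ℝ)
    (hab : ∀ i, b i - a i = 1) : volume ((Matrix.toLin' M) ⁻¹' (Icc a b)) = 1 := by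
  have hd : LinearMap.det (Matrix.toLin' M) = 1 := by rw [LinearMap.det_toLin', hM]
  rw [Measure.addHaar_preimage_linearMap volume (by rw [hd]; norm_num), hd, Real.volume_Icc_pi]
  simp [hab]

theorem mem_facts {y : Fin 3 → ℝ} (hy : y ∈ pol (Tet - Tet)) :
    (∀ i, y i ≤ 1) ∧ (∀ i, -1 ≤ y i) ∧ ∀ i j, y i - y j ≤ 1 := by
  have h0 : (0 : Fin 3 → ℝ) ∈ Tet := ⟨fun i => le_rfl, by simp⟩
  have he : ∀ i : Fin 3, (Pi.single i 1 : Fin 3 → ℝ) ∈ Tet := by
    intro i
    refine ⟨fun j => ?_, ?_⟩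
    · by_cases h : j = i
      · subst h
        simp
      · simp [Pi.single_eq_of_ne h]
    · rw [Finset.sum_pi_single']
      simp
  refine ⟨fun i => ?_, fun i => ?_, fun i j => ?_⟩
  · have h1 := hy _ (Set.sub_mem_sub (he i) h0)
    rw [sub_zero, single_dotProduct, one_mul] at h1
    exact h1
  · have h1 := hy _ (Set.sub_mem_sub h0 (he i))
    rw [zero_sub, neg_dotProduct, single_dotProduct, one_mul] at h1
    linarith
  · have h1 := hy _ (Set.sub_mem_sub (he i) (he j))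
    rw [sub_dotProduct, single_dotProduct, single_dotProduct, one_mul, one_mul] at h1
    exact h1

theorem cover : pol (Tet - Tet) ⊆ Icc (0 : Fin 3 → ℝ) 1 ∪
    ((Matrix.toLin' M0) ⁻¹' (Icc ![-1, 0, 0] ![0, 1, 1]) ∪
    ((Matrix.toLin' M1) ⁻¹' (Icc ![0, -1, 0] ![1, 0, 1]) ∪
    (Matrix.toLin' M2) ⁻¹' (Icc ![0, 0, -1] ![1, 1, 0]))) := by
  intro y hy
  obtain ⟨h1, h2, h3⟩ := mem_facts hy
  have a0 := h1 0
  have a1 := h1 1
  have a2 := h1 2
  have b0 := h2 0
  have b1 := h2 1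
  have b2 := h2 2
  have c01 := h3 0 1
  have c02 := h3 0 2
  have c10 := h3 1 0
  have c12 := h3 1 2
  have c20 := h3 2 0
  have c21 := h3 2 1
  by_cases hpos : 0 ≤ y 0 ∧ 0 ≤ y 1 ∧ 0 ≤ y 2
  · left
    refine ⟨fun i => ?_, fun i => h1 i⟩
    fin_cases i
    · exact hpos.1
    · exact hpos.2.1
    · exact hpos.2.2
  · right
    have hm : (y 0 ≤ 0 ∧ y 0 ≤ y 1 ∧ y 0 ≤ y 2) ∨ (y 1 ≤ 0 ∧ y 1 ≤ y 0 ∧ y 1 ≤ y 2) ∨
        (y 2 ≤ 0 ∧ y 2 ≤ y 0 ∧ y 2 ≤ y 1) := by
      by_contra hc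
      push Not at hc
      obtain ⟨d0, d1, d2⟩ := hc
      apply hpos
      rcases le_total (y 0) (y 1) with h | h <;> rcases le_total (y 0) (y 2) with h' | h' <;>
        rcases le_total (y 1) (y 2) with h'' | h'' <;>
        refine ⟨?_, ?_, ?_⟩ <;> by_contra hneg <;> push Not at hneg <;>
        first
        | (have := d0 (by linarith) (by linarith); linarith)
        | (have := d1 (by linarith) (by linarith); linarith)
        | (have := d2 (by linarith) (by linarith); linarith)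
    rcases hm with h | h | h
    · left
      rw [Set.mem_preimage, Matrix.toLin'_apply, Set.mem_Icc]
      refine ⟨fun i => ?_, fun i => ?_⟩ <;> fin_cases i <;>
        simp [M0, Matrix.mulVec, dotProduct, Fin.sum_univ_three] <;> linarith [h.1, h.2.1, h.2.2]
    · right
      left
      rw [Set.mem_preimage, Matrix.toLin'_apply, Set.mem_Icc]
      refine ⟨fun i => ?_, fun i => ?_⟩ <;> fin_cases i <;>
        simp [M1, Matrix.mulVec, dotProduct, Fin.sum_univ_three] <;> linarith [h.1, h.2.1, h.2.2]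
    · right
      right
      rw [Set.mem_preimage, Matrix.toLin'_apply, Set.mem_Icc]
      refine ⟨fun i => ?_, fun i => ?_⟩ <;> fin_cases i <;>
        simp [M2, Matrix.mulVec, dotProduct, Fin.sum_univ_three] <;> linarith [h.1, h.2.1, h.2.2]

end TETPaux

open TETPaux

theorem t_TETP : S_TETP := by
  have h0 : volume (Icc (0 : Fin 3 → ℝ) 1) = 1 := by
    rw [Real.volume_Icc_pi]
    simp
  have hd0 : M0.det = 1 := by simp [M0, Matrix.det_fin_three]
  have hd1 : M1.det = 1 := by simp [M1, Matrix.det_fin_three]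
  have hd2 : M2.det = 1 := by simp [M2, Matrix.det_fin_three]
  have h1 := vol_shear M0 hd0 ![-1, 0, 0] ![0, 1, 1] (by intro i; fin_cases i <;> simp)
  have h2 := vol_shear M1 hd1 ![0, -1, 0] ![1, 0, 1] (by intro i; fin_cases i <;> simp)
  have h3 := vol_shear M2 hd2 ![0, 0, -1] ![1, 1, 0] (by intro i; fin_cases i <;> simp)
  have h4 : volume (pol (Tet - Tet)) ≤ 4 := by
    refine (measure_mono cover).trans ?_
    refine (measure_union_le _ _).trans ?_
    rw [h0]
    refine (add_le_add_right ((measure_union_le _ _).trans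
      (add_le_add_right (measure_union_le _ _) _)) _).trans ?_
    rw [h1, h2, h3]
    norm_num
  unfold S_TETP V
  refine ENNReal.toReal_le_of_le_ofReal (by norm_num) (h4.trans ?_)
  simp

end Pool.Agent.H404R2.TH
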