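import Mathlib

set_option autoImplicit false

/-!
helper404: minimal translative convex hull volumes in relative norms, dimension three
(Busemann and Holmes-Thompson volumes).  Statements only.
-/

open MeasureTheory Set Pointwise Matrix

namespace Pool.Agent.H404R2.TH

/-- convex body: compact, convex, nonempty interior -/
structure CB {n : ℕ} (K : Set (Fin n → ℝ)) : Prop where
  isCompact : IsCompact K
  convex : Convex ℝ K
  interior_nonempty : (interior K).Nonempty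

/-- real valued volume -/
noncomputable def V {n : ℕ} (K : Set (Fin n → ℝ)) : ℝ := (volume K).toReal

/-! ### 1. Polynomiality of `t ↦ vol (A + t B)` -/

/-- data of a log-Laplace transform `φ x = log ∫_A exp (x·y) dy`: `G` is its gradient map with
values in the interior of `A`, `M` its Hessian, `φ - ⟨·, a⟩` is coercive for `a` in the interior -/
structure LL {n : ℕ} (A : Set (Fin n → ℝ)) (φ : (Fin n → ℝ) → ℝ) (G : (Fin n → ℝ) → (Fin n → ℝ))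
    (M : (Fin n → ℝ) → Matrix (Fin n) (Fin n) ℝ) : Prop where
  deriv : ∀ x, HasFDerivAt G (Matrix.toLin' (M x)).toContinuousLinearMap x
  pos : ∀ x, (M x).PosDef
  cont : ∀ i j, Continuous fun x => M x i j
  mem : ∀ x, G x ∈ interior A
  grad : ∀ x v, HasDerivAt (fun s : ℝ => φ (x + s • v)) (G x ⬝ᵥ v) 0
  contφ : Continuous φ
  coer : ∀ a ∈ interior A, ∃ c > (0 : ℝ), ∃ C : ℝ, ∀ x, c * ‖x‖ - C ≤ φ x - x ⬝ᵥ a

/-- tilted integral `∫_A f(y) exp(x·y) dy` -/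
noncomputable def mom {n : ℕ} (A : Set (Fin n → ℝ)) (f : (Fin n → ℝ) → ℝ) (x : Fin n → ℝ) : ℝ :=
  ∫ y in A, f y * Real.exp (x ⬝ᵥ y)

noncomputable def Zf {n : ℕ} (A : Set (Fin n → ℝ)) (x : Fin n → ℝ) : ℝ := mom A (fun _ => 1) x

noncomputable def Gf {n : ℕ} (A : Set (Fin n → ℝ)) (x : Fin n → ℝ) : Fin n → ℝ :=
  fun i => mom A (fun y => y i) x / Zf A x

noncomputable def Mf {n : ℕ} (A : Set (Fin n → ℝ)) (x : Fin n → ℝ) : Matrix (Fin n) (Fin n) ℝ :=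
  Matrix.of fun i j => mom A (fun y => y i * y j) x / Zf A x - Gf A x i * Gf A x j

/-- differentiation under the integral sign -/
def S_LLD : Prop := ∀ (n : ℕ) (A : Set (Fin n → ℝ)), CB A → ∀ f : (Fin n → ℝ) → ℝ, Continuous f →
  ∀ x, HasFDerivAt (mom A f)
    (∑ i, mom A (fun y => f y * y i) x • (ContinuousLinearMap.proj i : (Fin n → ℝ) →L[ℝ] ℝ)) x

/-- the covariance matrix is positive definite -/
def S_LLP : Prop := ∀ (n : ℕ) (A : Set (Fin n → ℝ)), CB A →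
  (∀ x, 0 < Zf A x) ∧ ∀ x, (Mf A x).PosDef

/-- the barycentre is an interior point -/
def S_LLI : Prop := ∀ (n : ℕ) (A : Set (Fin n → ℝ)), CB A → ∀ x, Gf A x ∈ interior A

/-- coercivity -/
def S_LLC : Prop := ∀ (n : ℕ) (A : Set (Fin n → ℝ)), CB A → ∀ a ∈ interior A,
  ∃ c > (0 : ℝ), ∃ C : ℝ, ∀ x, c * ‖x‖ - C ≤ Real.log (Zf A x) - x ⬝ᵥ a

def S_LL : Prop := ∀ (n : ℕ) (A : Set (Fin n → ℝ)), CB A → ∃ φ G M, LL A φ G M

def S_GIJ : Prop := ∀ (n : ℕ) (A B : Set (Fin n → ℝ)) φA GA MA φB GB MB, CB A → CB B →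
  LL A φA GA MA → LL B φB GB MB → ∀ t : ℝ, 0 ≤ t →
  Function.Injective (fun x => GA x + t • GB x) ∧ ∀ x, 0 < (MA x + t • MB x).det

def S_GIR : Prop := ∀ (n : ℕ) (A B : Set (Fin n → ℝ)) φA GA MA φB GB MB, CB A → CB B →
  LL A φA GA MA → LL B φB GB MB → ∀ t : ℝ, 0 ≤ t →
  ∀ a ∈ interior A, ∀ b ∈ interior B, ∃ x, GA x + t • GB x = a + t • b

def S_GI : Prop := ∀ (n : ℕ) (A B : Set (Fin n → ℝ)) φA GA MA φB GB MB, CB A → CB B →
  LL A φA GA MA → LL B φB GB MB → ∀ t : ℝ, 0 ≤ t →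
  volume (A + t • B) = ∫⁻ x, ENNReal.ofReal ((MA x + t • MB x).det)

def S_POLY : Prop := ∀ (n : ℕ) (A B : Set (Fin n → ℝ)), CB A → CB B →
  ∃ P : Polynomial ℝ, P.natDegree ≤ n ∧ ∀ t : ℝ, 0 ≤ t → V (A + t • B) = P.eval t

/-! ### 2. Adding a segment -/

/-- `π K` is the length of `v` times the volume of the projection of `K` along `v` -/
def S_SEG : Prop := ∀ (n : ℕ) (v : Fin n → ℝ), ∃ π : Set (Fin n → ℝ) → ENNReal,
  (∀ K, IsCompact K → Convex ℝ K → K.Nonempty → ∀ t : ℝ, 0 ≤ t →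
    volume (K + segment ℝ 0 (t • v)) = volume K + ENNReal.ofReal t * π K) ∧
  (∀ K K', K ⊆ K' → π K ≤ π K') ∧
  (∀ (K : Set (Fin n → ℝ)) (s : ℝ), 0 < s → π (s • K) = ENNReal.ofReal (s ^ (n - 1)) * π K) ∧
  (∀ (K : Set (Fin n → ℝ)) (a : Fin n → ℝ), π (a +ᵥ K) = π K) ∧
  (∀ K, IsCompact K → π K ≠ ⊤)

/-- `K` lies in the parallelotope `a + ∑ [0, v i]` -/
def InBox {n : ℕ} (K : Set (Fin n → ℝ)) (a : Fin n → ℝ) (v : Fin n → Fin n → ℝ) : Prop :=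
  ∀ x ∈ K, ∃ s : Fin n → ℝ, (∀ i, 0 ≤ s i ∧ s i ≤ 1) ∧ x = a + ∑ i, s i • v i

/-- a circumscribed parallelotope whose edge vectors are in the difference body (Auerbach) -/
def S_AUE : Prop := ∀ (n : ℕ) (K : Set (Fin n → ℝ)), CB K →
  ∃ (a : Fin n → ℝ) (v : Fin n → Fin n → ℝ), (∀ i, v i ∈ K - K) ∧ InBox K a v

def S_DER : Prop := ∀ (n : ℕ) (K L : Set (Fin n → ℝ)), CB K → IsCompact L →
  ∀ (a : Fin n → ℝ) (v : Fin n → Fin n → ℝ), InBox L a v →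
  ∀ W : ℝ, (∀ i, V (K + segment ℝ 0 (v i)) ≤ V K + W) →
  ∀ ε > (0 : ℝ), ∃ δ > (0 : ℝ), ∀ t : ℝ, 0 < t → t < δ → V (K + t • L) ≤ V K + t * (n * W + ε)

/-- convex hull of two touching translates -/
def S_HULL : Prop := ∀ (n : ℕ) (K : Set (Fin (n + 1) → ℝ)), CB K → ∀ p ∈ K - K,
  convexHull ℝ (K ∪ (p +ᵥ K)) = K + segment ℝ 0 p ∧
  V (K + segment ℝ 0 p) ≤ (n + 2) * V K ∧ ((p +ᵥ K) ∩ K).Nonempty

/-! ### 3. The main inequality in dimension three -/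

/-- `N ≥ vol K + 3 V(K,K,-K)`, the polynomial of `K + t (-K)` -/
def S_MAIN : Prop := ∀ K : Set (Fin 3 → ℝ), CB K → ∃ (c : ℝ) (p : Fin 3 → ℝ), p ∈ K - K ∧
  (∀ t : ℝ, 0 ≤ t → V (K + t • (-K)) = V K * (1 + t ^ 3) + c * (t + t ^ 2)) ∧
  c ≤ 3 * (V (convexHull ℝ (K ∪ (p +ᵥ K))) - V K) ∧
  V (convexHull ℝ (K ∪ (p +ᵥ K))) ≤ 4 * V K

/-! ### 4. The symmetric body in dimension four and its polar -/

/-- polar set with respect to the standard dot product -/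
def pol {n : ℕ} (M : Set (Fin n → ℝ)) : Set (Fin n → ℝ) := {y | ∀ x ∈ M, x ⬝ᵥ y ≤ 1}

/-- the body with sections `((1+s)/2) K + ((1-s)/2) (-K)` at height `s ∈ [-1, 1]` -/
def Lb {n : ℕ} (K : Set (Fin n → ℝ)) : Set (Fin (n + 1) → ℝ) :=
  {z | ∃ s : ℝ, -1 ≤ s ∧ s ≤ 1 ∧
    ∃ x ∈ ((1 + s) / 2) • K + ((1 - s) / 2) • (-K), z = Fin.cons s x}

def S_LB : Prop := ∀ (n : ℕ) (K : Set (Fin n → ℝ)), CB K → CB (Lb K) ∧ (∀ z ∈ Lb K, -z ∈ Lb K)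

def S_LVOL : Prop := ∀ (K : Set (Fin 3 → ℝ)), CB K → ∀ c : ℝ,
  (∀ t : ℝ, 0 ≤ t → V (K + t • (-K)) = V K * (1 + t ^ 3) + c * (t + t ^ 2)) →
  V (Lb K) = V K + c / 3

def S_LPOL : Prop := ∀ (n : ℕ) (K : Set (Fin n → ℝ)), CB K →
  V (pol (Lb K)) = 2 ^ (n + 1) / (n + 1) * V (pol (K - K))

/-- the symmetric Mahler inequality in coordinates -/
def S_MAH : Prop := ∀ (n : ℕ) (L : Set (Fin n → ℝ)), CB L → (∀ z ∈ L, -z ∈ L) →
  (4 : ℝ) ^ n / n.factorial ≤ V L * V (pol L)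

/-! ### 5. The tetrahedron and the ball -/

/-- standard tetrahedron -/
def Tet : Set (Fin 3 → ℝ) := {x | (∀ i, 0 ≤ x i) ∧ ∑ i, x i ≤ 1}

def S_TET : Prop := CB Tet ∧ V Tet = 1 / 6
def S_TETD : Prop := 10 / 3 ≤ V (Tet - Tet)
def S_TETP : Prop := V (pol (Tet - Tet)) ≤ 4

/-- volume of the Euclidean unit ball -/
noncomputable def kap (n : ℕ) : ℝ := V {x : Fin n → ℝ | ∑ i, x i ^ 2 ≤ 1}

def S_KAP : Prop := kap 3 = 4 * Real.pi / 3

/-! ### 6. Final statement -/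

/-- the unit ball of the relative norm -/
def relBall {d : ℕ} (K : Set (Fin d → ℝ)) : Set (Fin d → ℝ) := (1 / 2 : ℝ) • (K - K)

/-- Busemann volume with unit ball `M` -/
noncomputable def volBus {d : ℕ} (M S : Set (Fin d → ℝ)) : ℝ := kap d / V M * V S

/-- Holmes-Thompson volume with unit ball `M` -/
noncomputable def volHT {d : ℕ} (M S : Set (Fin d → ℝ)) : ℝ := V (pol M) / kap d * V S

/-- the values `vol (conv (K ∪ (p + K)))` over all `p` with `(p + K) ∩ K ≠ ∅` -/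
def hullVals {d : ℕ} (vol : Set (Fin d → ℝ) → Set (Fin d → ℝ) → ℝ) (K : Set (Fin d → ℝ)) : Set ℝ :=
  {r | ∃ p : Fin d → ℝ, ((p +ᵥ K) ∩ K).Nonempty ∧ r = vol (relBall K) (convexHull ℝ (K ∪ (p +ᵥ K)))}

/-- the maximum exists -/
def S_MAX : Prop := ∀ (d : ℕ) (K : Set (Fin d → ℝ)), CB K → ∀ c : ℝ, 0 ≤ c →
  ∃ p : Fin d → ℝ, ((p +ᵥ K) ∩ K).Nonempty ∧ ∀ q : Fin d → ℝ, ((q +ᵥ K) ∩ K).Nonempty →
    c * V (convexHull ℝ (K ∪ (q +ᵥ K))) ≤ c * V (convexHull ℝ (K ∪ (p +ᵥ K)))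

def S_FIN : Prop :=
  ((∀ K : Set (Fin 3 → ℝ), CB K → ∃ r, IsGreatest (hullVals volBus K) r ∧ 32 * Real.pi / 15 ≤ r) ∧
    IsGreatest (hullVals volBus Tet) (32 * Real.pi / 15)) ∧
  ((∀ K : Set (Fin 3 → ℝ), CB K → ∃ r, IsGreatest (hullVals volHT K) r ∧ 16 / Real.pi ≤ r) ∧
    IsGreatest (hullVals volHT Tet) (16 / Real.pi)) ∧ CB Tet

end Pool.Agent.H404R2.TH
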