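import Pool.Agent.H404R2.TH.Spec

set_option autoImplicit false

open MeasureTheory Set Pointwise Matrix

namespace Pool.Agent.H404R2.TH

namespace AUEaux

theorem exists_max {n : ℕ} {D : Set (Fin n → ℝ)} (hD : IsCompact D) {r : ℝ} (hr : 0 < r)
    (hrD : ∀ i, Pi.single i r ∈ D) :
    ∃ v : Fin n → Fin n → ℝ, (∀ i, v i ∈ D) ∧ (Matrix.of v).det ≠ 0 ∧
      ∀ i, ∀ x ∈ D, |((Matrix.of v).updateRow i x).det| ≤ |(Matrix.of v).det| := by
  have hc : IsCompact (Set.pi Set.univ (fun _ : Fin n => D)) := isCompact_univ_pi fun _ => hD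
  have hcont : Continuous fun v : Fin n → Fin n → ℝ => |(Matrix.of v).det| :=
    (Continuous.matrix_det continuous_id).abs
  have hne : (Set.pi Set.univ (fun _ : Fin n => D)).Nonempty :=
    ⟨fun i => Pi.single i r, fun i _ => hrD i⟩
  obtain ⟨v, hv, hmax⟩ := hc.exists_isMaxOn hne hcont.continuousOn
  have hmax' : ∀ w : Fin n → Fin n → ℝ, (∀ i, w i ∈ D) →
      |(Matrix.of w).det| ≤ |(Matrix.of v).det| := fun w hw => hmax (fun i _ => hw i)
  refine ⟨v, fun i => hv i (Set.mem_univ i), ?_, ?_⟩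
  · have h1 := hmax' (fun i => Pi.single i r) hrD
    have h2 : (Matrix.of fun i : Fin n => (Pi.single i r : Fin n → ℝ)) =
        Matrix.diagonal (fun _ => r) := by
      ext i j
      rw [Matrix.of_apply, Matrix.diagonal_apply, Pi.single_apply]
      by_cases h : i = j
      · subst h; simp
      · rw [if_neg h, if_neg (fun h' => h h'.symm)]
    rw [h2, Matrix.det_diagonal, Finset.prod_const] at h1
    have h3 : 0 < |r ^ (Finset.univ : Finset (Fin n)).card| := by positivity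
    exact abs_pos.mp (lt_of_lt_of_le h3 h1)
  · intro i x hx
    have h1 := hmax' (Function.update v i x) (fun j => by
      by_cases h : j = i
      · subst h
        rw [Function.update_self]
        exact hx
      · rw [Function.update_of_ne h]
        exact hv j (Set.mem_univ j))
    exact h1

end AUEaux

theorem t_AUE : S_AUE := by
  intro n K hK
  obtain ⟨p, hp⟩ := hK.interior_nonempty
  obtain ⟨r, hr, hball⟩ := Metric.nhds_basis_closedBall.mem_iff.mp (mem_interior_iff_mem_nhds.mp hp)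
  have hpK : p ∈ K := interior_subset hp
  have hD : IsCompact (K - K) := by
    have h1 := (hK.isCompact.prod hK.isCompact).image (continuous_fst.sub continuous_snd)
    have h2 : (fun z : (Fin n → ℝ) × (Fin n → ℝ) => z.1 - z.2) '' (K ×ˢ K) = K - K := by
      rw [Set.image_prod]
      rfl
    rw [← h2]
    exact h1
  obtain ⟨v, hv, hdet, hmax⟩ := AUEaux.exists_max hD hr (fun i => by
    refine ⟨p + Pi.single i r, hball ?_, p, hpK, by simp⟩
    rw [mem_closedBall_iff_norm, add_sub_cancel_left, Pi.norm_single, Real.norm_eq_abs,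
      abs_of_pos hr])
  have hu : IsUnit (Matrix.of v).det := isUnit_iff_ne_zero.mpr hdet
  -- the coordinates
  have hs : ∀ x : Fin n → ℝ, ∑ i, (x ᵥ* (Matrix.of v)⁻¹) i • v i = x := by
    intro x
    have h1 : (x ᵥ* (Matrix.of v)⁻¹) ᵥ* (Matrix.of v) = x := by
      rw [Matrix.vecMul_vecMul, Matrix.nonsing_inv_mul _ hu, Matrix.vecMul_one]
    conv_rhs => rw [← h1]
    rw [Matrix.vecMul_eq_sum (x ᵥ* (Matrix.of v)⁻¹)]
    rfl
  have hle : ∀ x ∈ K - K, ∀ i, |(x ᵥ* (Matrix.of v)⁻¹) i| ≤ 1 := by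
    intro x hx i
    have h1 := hmax i x hx
    have h2 := Matrix.det_updateRow_sum (Matrix.of v) i (x ᵥ* (Matrix.of v)⁻¹)
    have h3 : ∑ k, (x ᵥ* (Matrix.of v)⁻¹) k • (Matrix.of v) k = x := hs x
    rw [h3, smul_eq_mul] at h2
    rw [h2, abs_mul] at h1
    have h4 : 0 < |(Matrix.of v).det| := abs_pos.mpr hdet
    nlinarith
  have hcont : ∀ i, Continuous fun x : Fin n → ℝ => (x ᵥ* (Matrix.of v)⁻¹) i := by
    intro i
    simp only [Matrix.vecMul, dotProduct]
    fun_prop
  have hmin : ∀ i, ∃ y ∈ K, ∀ x ∈ K,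
      (y ᵥ* (Matrix.of v)⁻¹) i ≤ (x ᵥ* (Matrix.of v)⁻¹) i := by
    intro i
    obtain ⟨y, hy, h⟩ := hK.isCompact.exists_isMinOn ⟨p, hpK⟩ (hcont i).continuousOn
    exact ⟨y, hy, fun x hx => h hx⟩
  choose y hy hymin using hmin
  refine ⟨∑ i, (y i ᵥ* (Matrix.of v)⁻¹) i • v i, v, hv, ?_⟩
  intro x hx
  refine ⟨fun i => (x ᵥ* (Matrix.of v)⁻¹) i - (y i ᵥ* (Matrix.of v)⁻¹) i, fun i => ⟨?_, ?_⟩, ?_⟩
  · exact sub_nonneg.mpr (hymin i x hx)
  · have h1 := hle (x - y i) (Set.sub_mem_sub hx (hy i)) i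
    rw [Matrix.sub_vecMul, Pi.sub_apply] at h1
    exact (le_abs_self _).trans h1
  · rw [← Finset.sum_add_distrib]
    conv_lhs => rw [← hs x]
    refine Finset.sum_congr rfl fun i _ => ?_
    rw [← add_smul]
    congr 1
    ring

end Pool.Agent.H404R2.TH
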