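import Pool.Agent.H404R2.TH.Spec

set_option autoImplicit false

open MeasureTheory Set Pointwise Matrix

namespace Pool.Agent.H404R2.TH

namespace LLPaux

variable {n : ℕ}

lemma exp_cont (x : Fin n → ℝ) : Continuous fun y : Fin n → ℝ => Real.exp (x ⬝ᵥ y) := by
  apply Real.continuous_exp.comp
  exact continuous_const.dotProduct continuous_id

lemma int_on {A : Set (Fin n → ℝ)} (hA : CB A) {g : (Fin n → ℝ) → ℝ} (hg : Continuous g) :
    IntegrableOn g A :=
  hg.continuousOn.integrableOn_compact hA.isCompact

/-- positivity of integrals of nonnegative continuous functions -/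
lemma pos {A : Set (Fin n → ℝ)} (hA : CB A) {g : (Fin n → ℝ) → ℝ} (hg : Continuous g)
    (h0 : ∀ y, 0 ≤ g y) {z : Fin n → ℝ} (hz : z ∈ interior A) (hgz : 0 < g z) :
    0 < ∫ y in A, g y := by
  rw [setIntegral_pos_iff_support_of_nonneg_ae
    (Filter.Eventually.of_forall fun y => h0 y) (int_on hA hg)]
  have hopen : IsOpen ({y | 0 < g y} ∩ interior A) :=
    (isOpen_lt continuous_const hg).inter isOpen_interior
  have hpos : 0 < volume ({y | 0 < g y} ∩ interior A) :=
    hopen.measure_pos volume ⟨z, hgz, hz⟩
  refine lt_of_lt_of_le hpos (measure_mono ?_)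
  rintro y ⟨h1, h2⟩
  exact ⟨ne_of_gt h1, interior_subset h2⟩

/-- the weight -/
lemma Z_pos {A : Set (Fin n → ℝ)} (hA : CB A) (x : Fin n → ℝ) : 0 < Zf A x := by
  obtain ⟨z, hz⟩ := hA.interior_nonempty
  unfold Zf mom
  refine pos hA (continuous_const.mul (exp_cont x)) (fun y => ?_) hz ?_
  · positivity
  · positivity

lemma mom_add {A : Set (Fin n → ℝ)} (hA : CB A) {f g : (Fin n → ℝ) → ℝ} (hf : Continuous f)
    (hg : Continuous g) (x : Fin n → ℝ) :
    mom A (fun y => f y + g y) x = mom A f x + mom A g x := by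
  unfold mom
  have h1 : IntegrableOn (fun y => f y * Real.exp (x ⬝ᵥ y)) A := int_on hA (hf.mul (exp_cont x))
  have h2 : IntegrableOn (fun y => g y * Real.exp (x ⬝ᵥ y)) A := int_on hA (hg.mul (exp_cont x))
  rw [← integral_add h1 h2]
  apply integral_congr_ae
  refine Filter.Eventually.of_forall fun y => ?_
  simp only
  ring

lemma mom_smul {A : Set (Fin n → ℝ)} (c : ℝ) (f : (Fin n → ℝ) → ℝ) (x : Fin n → ℝ) :
    mom A (fun y => c * f y) x = c * mom A f x := by
  unfold mom
  rw [← integral_const_mul]
  apply integral_congr_ae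
  refine Filter.Eventually.of_forall fun y => ?_
  simp only
  ring

lemma mom_sum {A : Set (Fin n → ℝ)} (hA : CB A) {ι : Type} (s : Finset ι)
    {f : ι → (Fin n → ℝ) → ℝ} (hf : ∀ i, Continuous (f i)) (x : Fin n → ℝ) :
    mom A (fun y => ∑ i ∈ s, f i y) x = ∑ i ∈ s, mom A (f i) x := by
  classical
  induction s using Finset.induction_on with
  | empty =>
    simp [mom]
  | insert a s ha ih =>
    rw [Finset.sum_insert ha, ← ih, ← mom_add hA (hf a) (continuous_finsetSum _ fun i _ => hf i)]
    congr 1
    funext y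
    rw [Finset.sum_insert ha]

end LLPaux

open LLPaux in
theorem t_LLP : S_LLP := by
  intro n A hA
  refine ⟨fun x => Z_pos hA x, fun x => ?_⟩
  have hZ := Z_pos hA x
  apply Matrix.PosDef.of_dotProduct_mulVec_pos
  · ext i j
    rw [Matrix.conjTranspose_apply]
    simp only [Mf, Matrix.of_apply, star_trivial]
    have e : (fun y : Fin n → ℝ => y j * y i) = fun y => y i * y j := by
      funext y
      ring
    rw [e]
    ring
  · intro v hv
    rw [star_trivial]
    obtain ⟨m, hm⟩ : ∃ m, m = mom A (fun y => v ⬝ᵥ y) x / Zf A x := ⟨_, rfl⟩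
    have hvc : Continuous fun y : Fin n → ℝ => v ⬝ᵥ y := continuous_const.dotProduct continuous_id
    have h1 : mom A (fun y => v ⬝ᵥ y) x = ∑ i, v i * mom A (fun y => y i) x := by
      have : (fun y : Fin n → ℝ => v ⬝ᵥ y) = fun y => ∑ i, v i * y i := rfl
      rw [this, mom_sum hA _ (fun i => by fun_prop)]
      apply Finset.sum_congr rfl
      intro i _
      exact mom_smul (v i) (fun y => y i) x
    have h2 : mom A (fun y => (v ⬝ᵥ y) ^ 2) x =
        ∑ i, ∑ j, v i * v j * mom A (fun y => y i * y j) x := by
      have : (fun y : Fin n → ℝ => (v ⬝ᵥ y) ^ 2) = fun y => ∑ i, ∑ j, v i * v j * (y i * y j) := by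
        funext y
        simp only [dotProduct]
        rw [sq, Finset.sum_mul_sum]
        apply Finset.sum_congr rfl
        intro i _
        apply Finset.sum_congr rfl
        intro j _
        ring
      rw [this, mom_sum hA _ (fun i => by fun_prop)]
      apply Finset.sum_congr rfl
      intro i _
      rw [mom_sum hA _ (fun j => by fun_prop)]
      apply Finset.sum_congr rfl
      intro j _
      exact mom_smul (v i * v j) (fun y => y i * y j) x
    have h3 : v ⬝ᵥ (Mf A x *ᵥ v) = mom A (fun y => (v ⬝ᵥ y) ^ 2) x / Zf A x - m ^ 2 := by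
      have hG : ∑ i, v i * Gf A x i = m := by
        rw [hm, h1, Finset.sum_div]
        apply Finset.sum_congr rfl
        intro i _
        simp only [Gf]
        ring
      rw [← hG, h2]
      simp only [dotProduct, Matrix.mulVec, Mf, Matrix.of_apply]
      rw [sq, Finset.sum_mul_sum, Finset.sum_div, ← Finset.sum_sub_distrib]
      apply Finset.sum_congr rfl
      intro i _
      rw [Finset.sum_div, ← Finset.sum_sub_distrib, Finset.mul_sum]
      apply Finset.sum_congr rfl
      intro j _
      ring
    have h4 : mom A (fun y => (v ⬝ᵥ y - m) ^ 2) x =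
        mom A (fun y => (v ⬝ᵥ y) ^ 2) x - 2 * m * mom A (fun y => v ⬝ᵥ y) x + m ^ 2 * Zf A x := by
      have e : (fun y : Fin n → ℝ => (v ⬝ᵥ y - m) ^ 2) =
          fun y => ((v ⬝ᵥ y) ^ 2 + (-2 * m) * (v ⬝ᵥ y)) + m ^ 2 * (1 : ℝ) := by
        funext y
        ring
      rw [e, mom_add hA (by fun_prop) (by fun_prop), mom_add hA (by fun_prop) (by fun_prop),
        mom_smul, mom_smul]
      unfold Zf
      ring
    have h5 : 0 < mom A (fun y => (v ⬝ᵥ y - m) ^ 2) x := by
      have hex : ∃ z ∈ interior A, v ⬝ᵥ z - m ≠ 0 := by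
        by_contra hcon
        push Not at hcon
        obtain ⟨z, hz⟩ := hA.interior_nonempty
        have hline : Continuous fun t : ℝ => z + t • v := by fun_prop
        have hnb : ∀ᶠ t in nhds (0 : ℝ), z + t • v ∈ interior A := by
          apply hline.continuousAt.eventually
          apply isOpen_interior.mem_nhds
          simpa using hz
        obtain ⟨ε, hε, hball⟩ := Metric.eventually_nhds_iff.1 hnb
        have ht : z + (ε / 2) • v ∈ interior A := by
          apply hball
          rw [Real.dist_eq, sub_zero, abs_of_pos (by linarith)]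
          linarith
        have e1 := hcon z hz
        have e2 := hcon _ ht
        rw [dotProduct_add, dotProduct_smul, smul_eq_mul] at e2
        have e3 : ε / 2 * (v ⬝ᵥ v) = 0 := by linarith
        have e4 : v ⬝ᵥ v = 0 := by
          rcases mul_eq_zero.1 e3 with h | h
          · linarith
          · exact h
        exact hv (dotProduct_self_eq_zero.1 e4)
      obtain ⟨z, hz, hne⟩ := hex
      unfold mom
      refine pos hA ?_ (fun y => by positivity) hz ?_
      · exact (by fun_prop : Continuous fun y : Fin n → ℝ => (v ⬝ᵥ y - m) ^ 2).mul (exp_cont x)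
      · have : 0 < (v ⬝ᵥ z - m) ^ 2 := by positivity
        positivity
    have h6 : mom A (fun y => v ⬝ᵥ y) x = m * Zf A x := by
      rw [hm]
      field_simp
    have h7 : v ⬝ᵥ (Mf A x *ᵥ v) = mom A (fun y => (v ⬝ᵥ y - m) ^ 2) x / Zf A x := by
      rw [h3, h4, h6]
      field_simp
      ring
    rw [h7]
    positivity

end Pool.Agent.H404R2.TH
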